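import Pool.Agent.H510.UZ.Ms

/-!
Few bad heights, for all large lengths.
-/

set_option autoImplicit false

open Complex Filter Topology Set MeasureTheory

namespace Pool.Agent.H510.EX

open Pool.Agent.H510.UZ

/-- the mean of `G` -/
theorem G_mean2 (a b B : ℝ) (h1 : 1 / 2 < a) (h2 : a ≤ b) (h3 : b < 1) (hB : 0 < B) (ε : ℝ) (hε : 0 < ε) :
    ∃ N₁ : ℕ, ∀ N ≥ N₁, Continuous (G a b B N) ∧ ∃ T0 : ℝ, 0 < T0 ∧ ∀ T ≥ T0, ∫ t in (0 : ℝ)..T, G a b B N t ≤ ε * T := by
  obtain ⟨κ, hκ⟩ : ∃ κ : ℝ, κ = ε / ((b - a) * (2 * B) + 1) := ⟨_, rfl⟩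
  have hba : 0 ≤ (b - a) * (2 * B) := mul_nonneg (by linarith) (by linarith)
  have hκ0 : 0 < κ := by rw [hκ]; positivity
  obtain ⟨N₁, hN⟩ := ZU.zeta_meansq a b h1 h2 h3 B hB κ hκ0
  refine ⟨N₁, fun N hN1 => ?_⟩
  obtain ⟨T0, hT0, h⟩ := hN N hN1
  have hcont : ContinuousOn (E N) {z : ℂ | a ≤ z.re ∧ z.re ≤ b} := by
    intro z hz
    exact (E_diffAt N (lt_of_le_of_lt hz.2 h3)).continuousAt.continuousWithinAt
  have key : ∀ T ≥ T0, Continuous (fun t : ℝ => ∫ w in ZU.rect a b B, ‖E N (w + t * I)‖ ^ 2) ∧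
      ∫ t in (0 : ℝ)..T, (1 : ℝ) * (∫ w in ZU.rect a b B, ‖E N (w + t * I)‖ ^ 2) ≤ (b - a) * (2 * B) * (κ * T) := by
    intro T hT
    refine ZU.fubini_bound a b B h2 hB (E N) hcont (fun _ => 1) continuous_const T (by linarith) (κ * T) ?_
    rintro s ⟨hs1, hs2, hs3⟩
    simp only [one_mul]
    have h4 := h T hT s.re ⟨hs1, hs2⟩
    have hcont2 : Continuous (fun u : ℝ => ‖E N ((s.re : ℂ) + u * I)‖ ^ 2) := by
      have : Continuous (fun u : ℝ => E N ((s.re : ℂ) + u * I)) := by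
        rw [continuous_iff_continuousAt]
        intro u
        have h5 : ContinuousAt (E N) ((s.re : ℂ) + u * I) :=
          (E_diffAt N (by simpa using lt_of_le_of_lt hs2 h3)).continuousAt
        exact ContinuousAt.comp (f := fun u : ℝ => (s.re : ℂ) + u * I) h5 (by fun_prop)
      exact this.norm.pow 2
    have e1 : ∫ t in (0 : ℝ)..T, ‖E N (s + t * I)‖ ^ 2 = ∫ u in (s.im)..(T + s.im), ‖E N ((s.re : ℂ) + u * I)‖ ^ 2 := by
      have := intervalIntegral.integral_comp_add_right (fun u : ℝ => ‖E N ((s.re : ℂ) + u * I)‖ ^ 2) s.im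
        (a := 0) (b := T)
      rw [zero_add] at this
      rw [← this]
      congr 1
      ext t
      congr 3
      apply Complex.ext <;> simp [add_comm]
    rw [e1]
    rw [abs_le] at hs3
    calc ∫ u in (s.im)..(T + s.im), ‖E N ((s.re : ℂ) + u * I)‖ ^ 2
        ≤ ∫ u in (-B)..(T + B), ‖E N ((s.re : ℂ) + u * I)‖ ^ 2 := by
          apply intervalIntegral.integral_mono_interval (by linarith [hs3.1]) (by linarith) (by linarith [hs3.2])
          · exact Filter.Eventually.of_forall fun _ => by positivity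
          · exact hcont2.intervalIntegrable _ _
      _ ≤ κ * T := h4
  refine ⟨(key T0 le_rfl).1, T0, hT0, ?_⟩
  intro T hT
  have h5 := (key T hT).2
  simp only [one_mul] at h5
  refine h5.trans ?_
  have h6 : (b - a) * (2 * B) * κ ≤ ε := by
    rw [hκ, mul_div_assoc']
    rw [div_le_iff₀ (by positivity)]
    nlinarith
  have hT1 : 0 ≤ T := by linarith
  calc (b - a) * (2 * B) * (κ * T) = ((b - a) * (2 * B) * κ) * T := by ring
    _ ≤ ε * T := by gcongr

theorem few_bad2 (a b B : ℝ) (h1 : 1 / 2 < a) (h2 : a ≤ b) (h3 : b < 1) (hB : 0 < B) (δ ε : ℝ) (hδ : 0 < δ) (hε : 0 < ε) :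
    ∃ N₁ : ℕ, ∀ N ≥ N₁, ∀ᶠ T : ℝ in atTop,
      volume {t : ℝ | t ∈ Icc T (2 * T) ∧ Bad a b B δ N t} ≤ ENNReal.ofReal (ε * T) := by
  obtain ⟨C, hC, hpt⟩ := pt a b ((1 / 2 + a) / 2) ((b + 1) / 2) B (by linarith) h2 (by linarith) (by linarith) hB
  obtain ⟨C2, hC2⟩ : ∃ C2 : ℝ, C2 = 1 := ⟨_, rfl⟩
  replace hC2 : 0 < C2 := by rw [hC2]; norm_num
  obtain ⟨κ, hκ⟩ : ∃ κ : ℝ, κ = ε * δ ^ 2 / (4 * C * (1 + C2)) := ⟨_, rfl⟩
  have hκ0 : 0 < κ := by rw [hκ]; positivity
  obtain ⟨N₁, hG2⟩ := G_mean2 ((1 / 2 + a) / 2) ((b + 1) / 2) (B + 2) (by linarith) (by linarith) (by linarith)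
    (by linarith) κ hκ0
  refine ⟨N₁, fun N hN1 => ?_⟩
  obtain ⟨hGc, T0, hT0, hG⟩ := hG2 N hN1
  filter_upwards [eventually_ge_atTop T0, eventually_ge_atTop 4] with T hT hT4
  set g := G ((1 / 2 + a) / 2) ((b + 1) / 2) (B + 2) N with hg
  have hg0 : ∀ t, 0 ≤ g t := fun t => G_nonneg _ _ _ _ _
  have hint : ∀ x y : ℝ, IntervalIntegrable g volume x y := fun x y => hGc.intervalIntegrable x y
  · -- the measure
    have hsub : {t : ℝ | t ∈ Icc T (2 * T) ∧ Bad a b B δ N t} ⊆ {t : ℝ | t ∈ Ioc 0 (2 * T) ∧ δ ^ 2 ≤ C * g t} := by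
      rintro t ⟨ht, z, hz, hzt⟩
      refine ⟨⟨by linarith [ht.1], ht.2⟩, ?_⟩
      have := hpt N t t (by simp) z hz
      refine le_trans ?_ this
      gcongr
    refine (measure_mono hsub).trans ?_
    have hmeas : MeasurableSet {t : ℝ | t ∈ Ioc 0 (2 * T) ∧ δ ^ 2 ≤ C * g t} :=
      measurableSet_Ioc.inter (measurableSet_le measurable_const (hGc.measurable.const_mul C))
    set S := {t : ℝ | t ∈ Ioc 0 (2 * T) ∧ δ ^ 2 ≤ C * g t} with hS
    have hSsub : S ⊆ Ioc 0 (2 * T) := fun t ht => ht.1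
    have hfin : volume S < ⊤ := lt_of_le_of_lt (measure_mono hSsub) measure_Ioc_lt_top
    have h5 : δ ^ 2 * (volume S).toReal ≤ ∫ t in (0 : ℝ)..(2 * T), C * g t := by
      rw [intervalIntegral.integral_of_le (by linarith)]
      have hi : IntegrableOn (fun t => C * g t) (Ioc 0 (2 * T)) :=
        ((hint 0 (2 * T)).const_mul C).1
      calc δ ^ 2 * (volume S).toReal = ∫ t in S, δ ^ 2 := by
            rw [setIntegral_const, smul_eq_mul, mul_comm]; rfl
        _ ≤ ∫ t in S, C * g t := by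
            apply setIntegral_mono_on _ (hi.mono_set hSsub) hmeas
            · intro t ht; exact ht.2
            · exact integrableOn_const hfin.ne
        _ ≤ ∫ t in Ioc 0 (2 * T), C * g t := by
            apply setIntegral_mono_set hi
            · exact Filter.Eventually.of_forall fun t => mul_nonneg hC.le (hg0 t)
            · exact hSsub.eventuallyLE
    rw [intervalIntegral.integral_const_mul] at h5
    have h6 := hG (2 * T) (by linarith)
    have h7 : δ ^ 2 * (volume S).toReal ≤ C * (κ * (2 * T)) := h5.trans (by gcongr)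
    have h8 : (volume S).toReal ≤ ε * T := by
      have h9 : C * (κ * (2 * T)) ≤ δ ^ 2 * (ε * T) := by
        rw [hκ]
        have : C * (ε * δ ^ 2 / (4 * C * (1 + C2)) * (2 * T)) = δ ^ 2 * (ε * T) * (1 / (2 * (1 + C2))) := by
          field_simp
          ring
        rw [this]
        apply mul_le_of_le_one_right (by positivity)
        rw [div_le_one (by positivity)]
        linarith
      have h10 := h7.trans h9
      exact le_of_mul_le_mul_left h10 (by positivity)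
    rw [← ENNReal.ofReal_toReal hfin.ne]
    exact ENNReal.ofReal_le_ofReal h8

end Pool.Agent.H510.EX
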