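import Pool.Agent.H510.EX.Inst
import Pool.Agent.H510.UZ.Glob2

/-!
Extreme values in the classes: final form.
-/

set_option autoImplicit false

open Complex Filter Topology MeasureTheory
open scoped ENNReal
open Pool.Agent.Q97.UM (dp N2 cv prc EP ZI mz zt)

namespace Pool.Agent.H510.EX

open Pool.Agent.H510.UZ Pool.Agent.H510.PC

/-- the size -/
noncomputable def sz (T : ℝ) : ℝ := Real.sqrt (Real.log T / Real.log (Real.log T))

/-- the number of isolated simple zeros with a property -/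
noncomputable def NS (d a b : ℝ) (P : ℝ → Prop) : ℝ := (({γ ∈ SI (d / Real.log b) a b | P γ}.ncard : ℕ) : ℝ)

/-- the four extreme sets -/
def Four (d c ε a b : ℝ) (s : ℝ) (P : ℝ → Prop) : Prop :=
  b ^ (1 - ε) ≤ Ms a b (fun t => P t ∧ Real.exp (c * s) ≤ ‖riemannZeta (1 / 2 + t * I)‖) ∧
  b ^ (1 - ε) ≤ Ms a b (fun t => P t ∧ ‖riemannZeta (1 / 2 + t * I)‖ ≤ Real.exp (-(c * s))) ∧
  b ^ (1 - ε) ≤ NS d a b (fun t => P t ∧ Real.exp (c * s) ≤ ‖deriv riemannZeta (1 / 2 + t * I)‖) ∧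
  b ^ (1 - ε) ≤ NS d a b (fun t => P t ∧ ‖deriv riemannZeta (1 / 2 + t * I)‖ ≤ Real.exp (-(c * s)))

theorem log_ge {x y : ℝ} (hx : 0 ≤ x) (hy : 0 < y) (h : y ≤ Real.log x) : Real.exp y ≤ x := by
  rcases hx.eq_or_lt with h1 | h1
  · rw [← h1, Real.log_zero] at h
    linarith
  · exact (Real.le_log_iff_exp_le h1).1 h

theorem log_le' {x y : ℝ} (hx : 0 ≤ x) (h : Real.log x ≤ y) : x ≤ Real.exp y := by
  rcases hx.eq_or_lt with h1 | h1
  · rw [← h1]; exact (Real.exp_pos _).le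
  · exact (Real.log_le_iff_le_exp h1).1 h

theorem dyadic : ∃ d : ℝ, 0 < d ∧ d ≤ 1 ∧ ∀ K : Set ℂ, IsCompact K → (∀ z ∈ K, 1 / 2 < z.re ∧ z.re < 1) → ∀ κ : ℝ, 0 < κ →
    ∀ ε : ℝ, 0 < ε → ∃ c : ℝ, 0 < c ∧ ∀ᶠ T : ℝ in atTop, ∀ (A : Set (ℂ → ℂ)) (x : ℝ), ε * T ≤ Ms T (2 * T) (Near K A x) →
      Four d c ε T (2 * T) (sz T) (Near K A (x + κ)) := by
  classical
  obtain ⟨d, hd, hd1, hZ⟩ := SF_Z
  refine ⟨d, hd, hd1, ?_⟩
  intro K hK hKs κ hκ ε hε
  set ε₁ := min ε 1 / 2 with hε₁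
  have hε10 : 0 < ε₁ := by rw [hε₁]; positivity
  have hε1ε : ε₁ ≤ ε / 2 := by rw [hε₁]; gcongr; exact min_le_left _ _
  have hε11 : ε₁ ≤ 1 := by
    rw [hε₁]
    have := min_le_right ε 1
    linarith
  obtain ⟨c₁, hc₁, h1⟩ := ext_mass SF_L _ U_L_meas (fun _ => 0) (by
    filter_upwards [(Real.tendsto_log_atTop.comp Real.tendsto_log_atTop).eventually_ge_atTop 0] with T hT
    simpa using hT) ev_L K hK hKs κ hκ ε₁ hε10 hε11
  obtain ⟨c₂, hc₂, h2⟩ := ext_mass hZ _ U_Z_meas (fun T => Real.log (Real.log T)) (by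
    filter_upwards [(Real.tendsto_log_atTop.comp Real.tendsto_log_atTop).eventually_ge_atTop 0] with T hT
    exact (abs_of_nonneg hT).le) (ev_Z d hd) K hK hKs κ hκ ε₁ hε10 hε11
  set c := min c₁ c₂ with hc
  refine ⟨c, by positivity, ?_⟩
  have hpw : ∀ᶠ T : ℝ in atTop, (2 * T) ^ (1 - ε) ≤ T ^ (1 - ε₁) := by
    have e1 : ∀ᶠ T : ℝ in atTop, T ^ (-(ε - ε₁)) ≤ (2 ^ (1 - ε))⁻¹ :=
      (tendsto_rpow_neg_atTop (show 0 < ε - ε₁ by linarith)).eventually_le_const (by positivity)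
    filter_upwards [e1, eventually_gt_atTop 0] with T h3 h4
    rw [Real.mul_rpow (by norm_num) h4.le]
    have e2 : T ^ (1 - ε) = T ^ (-(ε - ε₁)) * T ^ (1 - ε₁) := by
      rw [← Real.rpow_add h4]; congr 1; ring
    rw [e2]
    calc (2 : ℝ) ^ (1 - ε) * (T ^ (-(ε - ε₁)) * T ^ (1 - ε₁)) ≤ 2 ^ (1 - ε) * ((2 ^ (1 - ε))⁻¹ * T ^ (1 - ε₁)) := by gcongr
      _ = T ^ (1 - ε₁) := by
          rw [← mul_assoc, mul_inv_cancel₀ (by positivity), one_mul]
  have hsz : ∀ᶠ T : ℝ in atTop, 0 < sz T := by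
    have e1 := Real.tendsto_log_atTop.eventually_ge_atTop 1
    have e2 := (Real.tendsto_log_atTop.comp Real.tendsto_log_atTop).eventually_ge_atTop 1
    filter_upwards [e1, e2] with T h3 h4
    unfold sz
    apply Real.sqrt_pos.2
    simp only [Function.comp] at h4
    apply div_pos <;> linarith
  filter_upwards [h1, h2, hpw, hsz, eventually_ge_atTop 16] with T h1 h2 hpw hsz hT A x hA
  have hT0 : 0 < T := by linarith
  have hV : ε₁ * T ≤ V T (Near K A x) := by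
    rw [V_eq]
    refine le_trans ?_ hA
    have : ε₁ ≤ ε := by linarith
    gcongr
  obtain ⟨a1, a2⟩ := h1 A x hV
  obtain ⟨b1, b2⟩ := h2 A x hV
  have hp1 : T ^ (1 - ε₁) = T ^ (-ε₁) * T := by
    rw [show (1 : ℝ) - ε₁ = -ε₁ + 1 by ring, Real.rpow_add hT0, Real.rpow_one]
  have hcs1 : c * sz T ≤ c₁ * sz T := mul_le_mul_of_nonneg_right (min_le_left _ _) hsz.le
  have hcs2 : c * sz T ≤ c₂ * sz T := mul_le_mul_of_nonneg_right (min_le_right _ _) hsz.le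
  have hcs0 : 0 < c * sz T := by positivity
  have hL1 : 1 ≤ Real.log T := by
    rw [Real.le_log_iff_exp_le (by linarith)]
    have := Real.exp_one_lt_d9
    linarith
  -- heights
  have hh : ∀ P Q : ℝ → Prop, (∀ t, P t → Q t) → ENNReal.ofReal (T ^ (-ε₁) * ((fun T => 2 * T) T)) ≤ nuL T {t | P t} →
      (2 * T) ^ (1 - ε) ≤ Ms T (2 * T) Q := by
    intro P Q hPQ h
    rw [← V_eq]
    unfold nuL at h
    rw [Measure.restrict_apply' measurableSet_Icc] at h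
    have h3 : ENNReal.ofReal (T ^ (-ε₁) * (2 * T)) ≤ volume {t : ℝ | t ∈ Set.Icc T (2 * T) ∧ Q t} := by
      refine h.trans (measure_mono ?_)
      rintro t ⟨ht1, ht2⟩
      exact ⟨ht2, hPQ t ht1⟩
    have h4 := ENNReal.toReal_mono (V_fin T Q) h3
    rw [ENNReal.toReal_ofReal (by positivity)] at h4
    refine hpw.trans (le_trans ?_ h4)
    rw [hp1]
    have : 0 ≤ T ^ (-ε₁) * T := by positivity
    linarith
  -- zeros
  have hz : ∀ P Q : ℝ → Prop, (∀ t, P t → Q t) →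
      ENNReal.ofReal (T ^ (-ε₁) * ((fun T => 2 * (Real.log T * T)) T)) ≤ nuZ d T {t | P t} →
      (2 * T) ^ (1 - ε) ≤ NS d T (2 * T) Q := by
    intro P Q hPQ h
    rw [nuZ_apply] at h
    have h3 : T ^ (-ε₁) * (2 * (Real.log T * T)) ≤ (((ZI d T).filter fun s => s.im ∈ {t | P t}).card : ℝ) := by
      rw [← ENNReal.ofReal_natCast, ENNReal.ofReal_le_ofReal_iff (Nat.cast_nonneg _)] at h
      exact h
    have h4 : (((ZI d T).filter fun s => s.im ∈ {t | P t}).card : ℝ) ≤ NS d T (2 * T) Q := by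
      have h5 := ZI_card hT hd1 P (d := d)
      have h6 : ((ZI d T).filter fun s => s.im ∈ {t | P t}) = (ZI d T).filter fun s => P s.im := rfl
      rw [h6, h5]
      unfold NS
      have hf : {γ ∈ SI (d / Real.log (2 * T)) T (2 * T) | Q γ}.Finite :=
        (SI_finite _ T (2 * T) hT0.le).subset fun _ h => h.1
      have hs : {γ ∈ SI (d / Real.log T) T (2 * T) | P γ} ⊆ {γ ∈ SI (d / Real.log (2 * T)) T (2 * T) | Q γ} := by
        rintro γ ⟨⟨g1, g2, g3, g4, g5⟩, g6⟩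
        refine ⟨⟨g1, g2, g3, g4, fun ρ k1 k2 k3 k4 => le_trans ?_ (g5 ρ k1 k2 k3 k4)⟩, hPQ γ g6⟩
        apply div_le_div_of_nonneg_left hd.le (by linarith)
        exact Real.log_le_log hT0 (by linarith)
      exact_mod_cast Set.ncard_le_ncard hs hf
    refine hpw.trans (le_trans ?_ (h3.trans h4))
    rw [hp1]
    have h7 : T ≤ 2 * (Real.log T * T) := by nlinarith
    gcongr
  refine ⟨hh _ _ ?_ a1, hh _ _ ?_ a2, hz _ _ ?_ b1, hz _ _ ?_ b2⟩
  · rintro t ⟨h3, h4⟩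
    refine ⟨h3, log_ge (norm_nonneg _) hcs0 (hcs1.trans h4)⟩
  · rintro t ⟨h3, h4⟩
    refine ⟨h3, log_le' (norm_nonneg _) (h4.trans ?_)⟩
    have : c₁ * Real.sqrt (Real.log T / Real.log (Real.log T)) = c₁ * sz T := rfl
    rw [this]
    linarith
  · rintro t ⟨h3, h4⟩
    refine ⟨h3, log_ge (norm_nonneg _) hcs0 (hcs2.trans h4)⟩
  · rintro t ⟨h3, h4⟩
    refine ⟨h3, log_le' (norm_nonneg _) (h4.trans ?_)⟩
    have : c₂ * Real.sqrt (Real.log T / Real.log (Real.log T)) = c₂ * sz T := rfl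
    rw [this]
    linarith

/-- the dyadic parts of a set of positive density -/
theorem pigeon (J : ℕ) (T ε₀ : ℝ) (hT : 0 < T) (hε₀ : 0 ≤ ε₀) (P : ℝ → Prop)
    (h : ∀ j < J, Ms (T / 2 ^ (j + 1)) (2 * (T / 2 ^ (j + 1))) P ≤ ε₀ * (T / 2 ^ (j + 1))) :
    Ms 0 T P ≤ T / 2 ^ J + ε₀ * T := by
  have hfin : ∀ a b : ℝ, volume {t : ℝ | t ∈ Set.Ioc a b ∧ P t} ≠ ⊤ := fun a b =>
    ne_top_of_le_ne_top measure_Ioc_lt_top.ne (measure_mono (t := Set.Ioc a b) fun t ht => ht.1)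
  have hadd : ∀ a b c : ℝ, Ms a c P ≤ Ms a b P + Ms b c P := by
    intro a b c
    unfold Ms
    rw [← ENNReal.toReal_add (hfin a b) (hfin b c)]
    apply ENNReal.toReal_mono (ENNReal.add_ne_top.2 ⟨hfin a b, hfin b c⟩)
    refine le_trans (measure_mono ?_) (measure_union_le _ _)
    rintro t ⟨ht, hP⟩
    by_cases h1 : t ≤ b
    · exact Or.inl ⟨⟨ht.1, h1⟩, hP⟩
    · exact Or.inr ⟨⟨not_le.1 h1, ht.2⟩, hP⟩
  have key : ∀ j ≤ J, Ms 0 T P ≤ Ms 0 (T / 2 ^ j) P + ε₀ * (T - T / 2 ^ j) := by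
    intro j
    induction j with
    | zero => intro _; simp
    | succ j ih =>
      intro hj
      have h1 := ih (by omega)
      have h2 := h j (by omega)
      have e1 : 2 * (T / 2 ^ (j + 1)) = T / 2 ^ j := by rw [pow_succ]; field_simp
      rw [e1] at h2
      have h3 := hadd 0 (T / 2 ^ (j + 1)) (T / 2 ^ j)
      have e2 : T / 2 ^ j = 2 * (T / 2 ^ (j + 1)) := e1.symm
      have e3 : ε₀ * (T - T / 2 ^ j) = ε₀ * (T - 2 * (T / 2 ^ (j + 1))) := by rw [e2]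
      rw [e3] at h1
      linarith
  have h1 := key J le_rfl
  have h2 : Ms 0 (T / 2 ^ J) P ≤ T / 2 ^ J := by
    unfold Ms
    have h3 : volume {t : ℝ | t ∈ Set.Ioc 0 (T / 2 ^ J) ∧ P t} ≤ ENNReal.ofReal (T / 2 ^ J) := by
      calc _ ≤ volume (Set.Ioc 0 (T / 2 ^ J)) := measure_mono fun t ht => ht.1
        _ = _ := by rw [Real.volume_Ioc, sub_zero]
    have h4 := ENNReal.toReal_mono ENNReal.ofReal_ne_top h3
    rwa [ENNReal.toReal_ofReal (by positivity)] at h4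
  have h3 : 0 ≤ ε₀ * (T / 2 ^ J) := by positivity
  linarith

theorem Ms_mono_set {a b a' b' : ℝ} (ha : a' ≤ a) (hb : b ≤ b') {P Q : ℝ → Prop} (h : ∀ t, P t → Q t) : Ms a b P ≤ Ms a' b' Q := by
  unfold Ms
  apply ENNReal.toReal_mono (ne_top_of_le_ne_top measure_Ioc_lt_top.ne (measure_mono (t := Set.Ioc a' b') fun t ht => ht.1))
  exact measure_mono fun t ht => ⟨⟨lt_of_le_of_lt ha ht.1.1, ht.1.2.trans hb⟩, h t ht.2⟩

theorem NS_mono_set {d a b a' b' : ℝ} (hd : 0 ≤ d) (ha' : 0 ≤ a') (ha : a' ≤ a) (hb1 : 1 < b) (hb : b ≤ b') {P Q : ℝ → Prop}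
    (h : ∀ t, P t → Q t) : NS d a b P ≤ NS d a' b' Q := by
  unfold NS
  have hf : {γ ∈ SI (d / Real.log b') a' b' | Q γ}.Finite := (SI_finite _ a' b' ha').subset fun _ h => h.1
  have hs : {γ ∈ SI (d / Real.log b) a b | P γ} ⊆ {γ ∈ SI (d / Real.log b') a' b' | Q γ} := by
    rintro γ ⟨⟨g1, g2, g3, g4, g5⟩, g6⟩
    refine ⟨⟨lt_of_le_of_lt ha g1, g2.trans hb, g3, g4, fun ρ k1 k2 k3 k4 => le_trans ?_ (g5 ρ k1 k2 k3 k4)⟩, h γ g6⟩
    apply div_le_div_of_nonneg_left hd (Real.log_pos hb1)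
    exact Real.log_le_log (by linarith) hb
  exact_mod_cast Set.ncard_le_ncard hs hf

/-- all heights -/
theorem glob : ∃ d : ℝ, 0 < d ∧ d ≤ 1 ∧
    (∀ K : Set ℂ, IsCompact K → (∀ z ∈ K, 1 / 2 < z.re ∧ z.re < 1) → ∀ κ : ℝ, 0 < κ →
      ∀ ε : ℝ, 0 < ε → ∃ c : ℝ, 0 < c ∧ ∀ᶠ T : ℝ in atTop, ∀ (A : Set (ℂ → ℂ)) (x : ℝ), ε * T ≤ Ms T (2 * T) (Near K A x) →
        Four d c ε T (2 * T) (sz T) (Near K A (x + κ))) ∧
    (∀ K : Set ℂ, IsCompact K → (∀ z ∈ K, 1 / 2 < z.re ∧ z.re < 1) → ∀ κ : ℝ, 0 < κ →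
      ∀ ε : ℝ, 0 < ε → ∃ c : ℝ, 0 < c ∧ ∀ᶠ T : ℝ in atTop, ∀ (A : Set (ℂ → ℂ)) (x : ℝ), ε * T ≤ Ms 0 T (Near K A x) →
        Four d c ε 0 T (sz T) (Near K A (x + κ))) := by
  obtain ⟨d, hd, hd1, hdy⟩ := dyadic
  refine ⟨d, hd, hd1, hdy, ?_⟩
  intro K hK hKs κ hκ ε hε
  set ε₀ := min ε 1 / 4 with hε₀
  have hε00 : 0 < ε₀ := by rw [hε₀]; positivity
  have hε0ε : ε₀ ≤ ε / 4 := by rw [hε₀]; gcongr; exact min_le_left _ _
  obtain ⟨J, hJ⟩ := exists_pow_lt_of_lt_one (show 0 < ε₀ by positivity) (show (1 / 2 : ℝ) < 1 by norm_num)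
  obtain ⟨c, hc, h⟩ := hdy K hK hKs κ hκ ε₀ hε00
  refine ⟨c / 2, by positivity, ?_⟩
  obtain ⟨T₀, hT₀⟩ := Filter.eventually_atTop.1 h
  have hlog : ∀ᶠ T : ℝ in atTop, 4 * (J * Real.log 2) ≤ Real.log T := Real.tendsto_log_atTop.eventually_ge_atTop _
  have hlog2 : ∀ᶠ T : ℝ in atTop, 8 ≤ Real.log T := Real.tendsto_log_atTop.eventually_ge_atTop _
  have hpw : ∀ᶠ T : ℝ in atTop, T ^ (1 - ε) ≤ (T / 2 ^ J) ^ (1 - ε₀) := by
    have e1 : ∀ᶠ T : ℝ in atTop, T ^ (-(ε - ε₀)) ≤ (1 / 2 ^ J) ^ (1 - ε₀) :=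
      (tendsto_rpow_neg_atTop (show 0 < ε - ε₀ by linarith)).eventually_le_const (by positivity)
    filter_upwards [e1, eventually_gt_atTop 0] with T h3 h4
    have e2 : T ^ (1 - ε) = T ^ (-(ε - ε₀)) * T ^ (1 - ε₀) := by
      rw [← Real.rpow_add h4]; congr 1; ring
    rw [e2, div_eq_mul_one_div, Real.mul_rpow h4.le (by positivity), mul_comm (T ^ (1 - ε₀))]
    gcongr
  filter_upwards [hlog, hlog2, hpw, eventually_ge_atTop (2 ^ J * max T₀ 16), eventually_ge_atTop 16] with T hl hl2 hpw hTb hT A x hA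
  have hT0 : 0 < T := by linarith
  -- the dyadic interval
  obtain ⟨j, hj, hjM⟩ : ∃ j < J, ε₀ * (T / 2 ^ (j + 1)) ≤ Ms (T / 2 ^ (j + 1)) (2 * (T / 2 ^ (j + 1))) (Near K A x) := by
    by_contra hcon
    push Not at hcon
    have h1 := pigeon J T ε₀ hT0 hε00.le (Near K A x) (fun j hj => (hcon j hj).le)
    have h2 : T / 2 ^ J ≤ ε₀ * T := by
      have : T / 2 ^ J = (1 / 2) ^ J * T := by rw [one_div, inv_pow]; field_simp
      rw [this]
      gcongr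
    have h3 : ε * T ≤ 2 * (ε₀ * T) := by linarith
    have h4 : ε₀ * T ≤ ε / 4 * T := by gcongr
    have h5 : 0 < ε * T := by positivity
    linarith
  set S := T / 2 ^ (j + 1) with hS
  have h2J : (2 : ℝ) ^ (j + 1) ≤ 2 ^ J := pow_le_pow_right₀ (by norm_num) (by omega)
  have hSlow : T / 2 ^ J ≤ S := by rw [hS]; gcongr
  have hTJ : max T₀ 16 ≤ T / 2 ^ J := by
    rw [le_div_iff₀ (by positivity)]
    linarith
  have hST₀ : T₀ ≤ S := (le_max_left _ _).trans (hTJ.trans hSlow)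
  have hS16 : 16 ≤ S := (le_max_right _ _).trans (hTJ.trans hSlow)
  have hS2 : 2 * S ≤ T := by
    rw [hS, pow_succ]
    have : T / (2 ^ j * 2) = T / 2 ^ j / 2 := by field_simp
    rw [this]
    have : T / 2 ^ j ≤ T := div_le_self hT0.le (one_le_pow₀ (by norm_num))
    linarith
  have hF := hT₀ S hST₀ A x hjM
  obtain ⟨f1, f2, f3, f4⟩ := hF
  have hpow : T ^ (1 - ε) ≤ (2 * S) ^ (1 - ε₀) := by
    refine hpw.trans (Real.rpow_le_rpow (by positivity) (by linarith) ?_)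
    have := min_le_right ε 1
    linarith
  -- sizes
  have hlS : Real.log T / 4 ≤ Real.log S := by
    have e1 : Real.log (T / 2 ^ J) ≤ Real.log S := Real.log_le_log (by positivity) hSlow
    rw [Real.log_div hT0.ne' (by positivity), Real.log_pow] at e1
    linarith
  have hlST : Real.log S ≤ Real.log T := Real.log_le_log (by linarith) (by linarith)
  have hlS2 : 2 ≤ Real.log S := by linarith
  have hllS : 0 < Real.log (Real.log S) := Real.log_pos (by linarith)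
  have hll : Real.log (Real.log S) ≤ Real.log (Real.log T) := Real.log_le_log (by linarith) hlST
  have hsz : sz T / 2 ≤ sz S := by
    unfold sz
    rw [show Real.sqrt (Real.log T / Real.log (Real.log T)) / 2 =
      Real.sqrt (Real.log T / 4 / Real.log (Real.log T)) by
        rw [div_right_comm, Real.sqrt_div' _ (by norm_num : (0 : ℝ) ≤ 4)]
        congr 1
        rw [show (4 : ℝ) = 2 ^ 2 by norm_num, Real.sqrt_sq (by norm_num)]]
    apply Real.sqrt_le_sqrt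
    apply div_le_div₀ (by linarith) hlS hllS hll
  have hcs : c / 2 * sz T ≤ c * sz S := by
    have := mul_le_mul_of_nonneg_left hsz hc.le
    linarith
  have hS1 : 1 < 2 * S := by linarith
  refine ⟨?_, ?_, ?_, ?_⟩
  · refine hpow.trans (f1.trans (Ms_mono_set (by linarith) hS2 ?_))
    rintro t ⟨g1, g2⟩
    exact ⟨g1, (Real.exp_le_exp.2 hcs).trans g2⟩
  · refine hpow.trans (f2.trans (Ms_mono_set (by linarith) hS2 ?_))
    rintro t ⟨g1, g2⟩
    exact ⟨g1, g2.trans (Real.exp_le_exp.2 (by linarith))⟩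
  · refine hpow.trans (f3.trans (NS_mono_set hd.le le_rfl (by linarith) hS1 hS2 ?_))
    rintro t ⟨g1, g2⟩
    exact ⟨g1, (Real.exp_le_exp.2 hcs).trans g2⟩
  · refine hpow.trans (f4.trans (NS_mono_set hd.le le_rfl (by linarith) hS1 hS2 ?_))
    rintro t ⟨g1, g2⟩
    exact ⟨g1, g2.trans (Real.exp_le_exp.2 (by linarith))⟩

end Pool.Agent.H510.EX
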