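import Pool.Graph.R_pool_sql_team_seeded_3997aac3.Q241.UM.RES

/-!
Convolution of the resonator with a Dirichlet polynomial to the right of the critical line.
-/

set_option autoImplicit false

namespace Pool.Agent.H510.EX

open Finset
open Pool.Agent.Q97.UM (N2 cv)
open Pool.Agent.Q241.UM

theorem rs_norm {P : Finset ℕ} {K : ℕ} {μ σ : ℝ} (hσ : σ = 1 ∨ σ = -1) (hμ : 0 ≤ μ) (n : ℕ) :
    ‖rs P K (σ * μ) n‖ ≤ μ ^ om n := by
  unfold rs
  split_ifs
  · rw [Complex.norm_real, Real.norm_eq_abs, abs_pow, abs_mul]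
    have h1 : |σ| = 1 := by rcases hσ with rfl | rfl <;> simp
    rw [h1, one_mul, abs_of_nonneg hμ]
  · rw [norm_zero]; positivity

/-- the pointwise bound -/
theorem cv_pt {P : Finset ℕ} (hP : ∀ p ∈ P, p.Prime) {y : ℕ} (hy1 : 1 ≤ y) (hy : ∀ p ∈ P, y < p) {K J₁ N Y : ℕ} {μ σ α : ℝ}
    (hσ : σ = 1 ∨ σ = -1) (hμ : 1 ≤ μ) (hα : 0 < α) (hJ : ∀ U ⊆ P, ∏ p ∈ U, p ≤ Y → U.card ≤ J₁) (e : ℕ → ℂ)
    (he : ∀ n, ‖e n‖ ≤ if N < n ∧ n ≤ Y then (n : ℝ) ^ (-α) else 0) (S : Finset ℕ) (hS : S ⊆ P) (w : ℕ) (hw : 1 ≤ w)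
    (hSw : ∀ p ∈ P, p ∣ (∏ q ∈ S, q) * w → p ∈ S) :
    ‖cv e (rs P K (σ * μ)) ((∏ q ∈ S, q) * w)‖ ≤
      μ ^ S.card * ((if N < w ∧ w ≤ Y then (w : ℝ) ^ (-α) else 0) +
        ((1 + (y : ℝ) ^ (-α) / μ) ^ (K + J₁) - 1) * (if w ≤ Y then (w : ℝ) ^ (-α) else 0)) := by
  classical
  have hμ0 : 0 < μ := by linarith
  have hSP : ∀ p ∈ S, p.Prime := fun p hp => hP p (hS hp)
  have hprod0 : ∀ U ⊆ S, 0 < ∏ p ∈ U, p := fun U hU => Finset.prod_pos fun p hp => (hSP p (hU hp)).pos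
  set m := (∏ q ∈ S, q) * w with hm
  have hm0 : m ≠ 0 := (Nat.mul_pos (hprod0 S subset_rfl) hw).ne'
  set z := (y : ℝ) ^ (-α) / μ with hz
  have hy0 : (0 : ℝ) < y := by exact_mod_cast (by omega : 0 < y)
  have hz0 : 0 ≤ z := by positivity
  -- the function on the subsets
  set h : Finset ℕ → ℝ := fun U => ‖e (w * ∏ p ∈ U, p)‖ * (if (S \ U).card ≤ K then μ ^ (S \ U).card else 0) with hh
  have hh0 : ∀ U, 0 ≤ h U := fun U => by
    simp only [hh]
    split_ifs <;> positivity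
  have key : ‖cv e (rs P K (σ * μ)) m‖ ≤ ∑ U ∈ S.powerset, h U := by
    unfold cv
    refine (norm_sum_le _ _).trans ?_
    rw [← Finset.sum_filter_ne_zero]
    have hx : ∀ x ∈ m.divisorsAntidiagonal.filter (fun x => ‖e x.1 * rs P K (σ * μ) x.2‖ ≠ 0),
        x.2.primeFactors ⊆ S ∧ ∏ p ∈ x.2.primeFactors, p = x.2 ∧ x.1 = w * ∏ p ∈ S \ x.2.primeFactors, p ∧
          om x.2 ≤ K := by
      intro x hx
      rw [Finset.mem_filter, Nat.mem_divisorsAntidiagonal] at hx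
      obtain ⟨⟨hx1, -⟩, hx2⟩ := hx
      have h3 : rs P K (σ * μ) x.2 ≠ 0 := by
        intro h4
        rw [h4, mul_zero, norm_zero] at hx2
        exact hx2 rfl
      obtain ⟨⟨h4, h5⟩, h6⟩ := rs_ne h3
      have h7 : x.2.primeFactors ⊆ S := by
        intro p hp
        refine hSw p (h5 hp) ?_
        rw [← hx1]
        exact Dvd.dvd.mul_left (Nat.dvd_of_mem_primeFactors hp) _
      have h8 := Nat.prod_primeFactors_of_squarefree h4
      refine ⟨h7, h8, ?_, h6⟩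
      have h9 : (∏ p ∈ S \ x.2.primeFactors, p) * ∏ p ∈ x.2.primeFactors, p = ∏ p ∈ S, p :=
        Finset.prod_sdiff h7
      have h10 : x.1 * x.2 = (w * ∏ p ∈ S \ x.2.primeFactors, p) * x.2 := by
        rw [hx1, hm, ← h9, h8]
        ring
      exact Nat.eq_of_mul_eq_mul_right (Nat.pos_of_ne_zero h4.ne_zero) h10
    have hinj : Set.InjOn (fun x : ℕ × ℕ => S \ x.2.primeFactors)
        (m.divisorsAntidiagonal.filter (fun x => ‖e x.1 * rs P K (σ * μ) x.2‖ ≠ 0) : Set (ℕ × ℕ)) := by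
      intro x hx1 x' hx2 heq
      obtain ⟨a1, a2, a3, -⟩ := hx x hx1
      obtain ⟨b1, b2, b3, -⟩ := hx x' hx2
      simp only at heq
      have h3 : x.2.primeFactors = x'.2.primeFactors := by
        rw [← Finset.sdiff_sdiff_eq_self a1, ← Finset.sdiff_sdiff_eq_self b1, heq]
      have h4 : x.2 = x'.2 := by rw [← a2, ← b2, h3]
      have h5 : x.1 = x'.1 := by rw [a3, b3, heq]
      exact Prod.ext h5 h4
    have hle : ∀ x ∈ m.divisorsAntidiagonal.filter (fun x => ‖e x.1 * rs P K (σ * μ) x.2‖ ≠ 0),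
        ‖e x.1 * rs P K (σ * μ) x.2‖ ≤ h (S \ x.2.primeFactors) := by
      intro x hx1
      obtain ⟨a1, a2, a3, a4⟩ := hx x hx1
      simp only [hh]
      have a5 : x.2.primeFactors.card ≤ K := a4
      rw [norm_mul, ← a3, Finset.sdiff_sdiff_eq_self a1, if_pos a5]
      exact mul_le_mul_of_nonneg_left (rs_norm hσ hμ0.le _) (norm_nonneg _)
    refine (Finset.sum_le_sum hle).trans ?_
    rw [← Finset.sum_image (f := h) hinj]
    refine Finset.sum_le_sum_of_subset_of_nonneg ?_ fun U _ _ => hh0 U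
    intro U hU
    rw [Finset.mem_image] at hU
    obtain ⟨x, _, rfl⟩ := hU
    exact Finset.mem_powerset.2 Finset.sdiff_subset
  refine key.trans ?_
  -- the value of h
  have hval : ∀ U ∈ S.powerset, U ≠ ∅ → h U ≤ (if w ≤ Y ∧ S.card ≤ K + J₁ then μ ^ S.card * (w : ℝ) ^ (-α) else 0) * z ^ U.card := by
    intro U hU hU0
    have hU1 := Finset.mem_powerset.1 hU
    have hpU : 0 < ∏ p ∈ U, p := hprod0 U hU1
    simp only [hh]
    by_cases hY : w * ∏ p ∈ U, p ≤ Y
    · have hwY : w ≤ Y := le_trans (Nat.le_mul_of_pos_right w hpU) hY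
      have hUY : ∏ p ∈ U, p ≤ Y := le_trans (Nat.le_mul_of_pos_left _ hw) hY
      have hcU := hJ U (hU1.trans hS) hUY
      have hcard : (S \ U).card + U.card = S.card := Finset.card_sdiff_add_card_eq_card hU1
      by_cases hK : (S \ U).card ≤ K
      · rw [if_pos hK, if_pos ⟨hwY, by omega⟩]
        have h1 : ‖e (w * ∏ p ∈ U, p)‖ ≤ (w : ℝ) ^ (-α) * ((y : ℝ) ^ (-α)) ^ U.card := by
          refine (he _).trans ?_
          have h2 : (((w * ∏ p ∈ U, p : ℕ) : ℝ)) ^ (-α) ≤ (w : ℝ) ^ (-α) * ((y : ℝ) ^ (-α)) ^ U.card := by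
            push_cast
            rw [Real.mul_rpow (by positivity) (by positivity)]
            apply mul_le_mul_of_nonneg_left _ (by positivity)
            rw [← Real.finset_prod_rpow _ _ (fun p _ => Nat.cast_nonneg p), ← Finset.prod_const]
            apply Finset.prod_le_prod
            · intro p _; positivity
            · intro p hp
              apply Real.rpow_le_rpow_of_nonpos hy0
              · exact_mod_cast (hy p (hS (hU1 hp))).le
              · linarith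
          split_ifs
          · exact h2
          · positivity
        have h3 : μ ^ (S \ U).card = μ ^ S.card * (1 / μ) ^ U.card := by
          rw [← hcard, pow_add, mul_assoc, ← mul_pow, mul_one_div_cancel hμ0.ne', one_pow, mul_one]
        rw [h3]
        calc ‖e (w * ∏ p ∈ U, p)‖ * (μ ^ S.card * (1 / μ) ^ U.card) ≤
            ((w : ℝ) ^ (-α) * ((y : ℝ) ^ (-α)) ^ U.card) * (μ ^ S.card * (1 / μ) ^ U.card) := by gcongr
          _ = μ ^ S.card * (w : ℝ) ^ (-α) * z ^ U.card := by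
            rw [hz, div_eq_mul_one_div, mul_pow]
            ring
      · rw [if_neg hK, mul_zero]
        split_ifs <;> positivity
    · have h1 : ‖e (w * ∏ p ∈ U, p)‖ = 0 := by
        have := he (w * ∏ p ∈ U, p)
        rw [if_neg fun h => hY h.2] at this
        exact le_antisymm this (norm_nonneg _)
      rw [h1, zero_mul]
      split_ifs <;> positivity
  rw [← Finset.sum_erase_add _ _ (Finset.empty_mem_powerset S)]
  have h1 : h ∅ ≤ μ ^ S.card * (if N < w ∧ w ≤ Y then (w : ℝ) ^ (-α) else 0) := by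
    simp only [hh, Finset.prod_empty, mul_one, Finset.sdiff_empty]
    have h2 : (if S.card ≤ K then μ ^ S.card else 0) ≤ μ ^ S.card := by
      split_ifs
      · exact le_rfl
      · positivity
    have h3 : (0 : ℝ) ≤ if S.card ≤ K then μ ^ S.card else 0 := by split_ifs <;> positivity
    calc ‖e w‖ * (if S.card ≤ K then μ ^ S.card else 0) ≤
        (if N < w ∧ w ≤ Y then (w : ℝ) ^ (-α) else 0) * μ ^ S.card := by
          apply mul_le_mul (he w) h2 h3
          split_ifs <;> positivity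
      _ = _ := mul_comm _ _
  have h2 : ∑ U ∈ S.powerset.erase ∅, h U ≤ μ ^ S.card * (((1 + z) ^ (K + J₁) - 1) * (if w ≤ Y then (w : ℝ) ^ (-α) else 0)) := by
    set c := (if w ≤ Y ∧ S.card ≤ K + J₁ then μ ^ S.card * (w : ℝ) ^ (-α) else 0) with hc
    have hc0 : 0 ≤ c := by rw [hc]; split_ifs <;> positivity
    have h3 : ∑ U ∈ S.powerset.erase ∅, h U ≤ ∑ U ∈ S.powerset.erase ∅, c * z ^ U.card := by
      apply Finset.sum_le_sum
      intro U hU
      rw [Finset.mem_erase] at hU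
      exact hval U hU.2 hU.1
    refine h3.trans ?_
    have h4 : ∑ U ∈ S.powerset, z ^ U.card = (1 + z) ^ S.card := by
      have := Finset.sum_pow_mul_eq_add_pow z 1 S
      simp only [one_pow, mul_one] at this
      rw [this, add_comm]
    have h5 : ∑ U ∈ S.powerset.erase ∅, z ^ U.card = (1 + z) ^ S.card - 1 := by
      rw [← h4, ← Finset.sum_erase_add _ _ (Finset.empty_mem_powerset S)]
      simp
    rw [← Finset.mul_sum, h5]
    by_cases hcase : w ≤ Y ∧ S.card ≤ K + J₁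
    · rw [hc, if_pos hcase, if_pos hcase.1]
      have h6 : (1 + z) ^ S.card ≤ (1 + z) ^ (K + J₁) := pow_le_pow_right₀ (by linarith) hcase.2
      have h7 : 0 ≤ μ ^ S.card * (w : ℝ) ^ (-α) := by positivity
      calc μ ^ S.card * (w : ℝ) ^ (-α) * ((1 + z) ^ S.card - 1) ≤ μ ^ S.card * (w : ℝ) ^ (-α) * ((1 + z) ^ (K + J₁) - 1) := by
            apply mul_le_mul_of_nonneg_left _ h7
            linarith
        _ = _ := by ring
    · rw [hc, if_neg hcase, zero_mul]
      have h6 : 1 ≤ (1 + z) ^ (K + J₁) := one_le_pow₀ (by linarith)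
      have h7 : 0 ≤ (1 + z) ^ (K + J₁) - 1 := by linarith
      split_ifs <;> positivity
  calc ∑ U ∈ S.powerset.erase ∅, h U + h ∅ ≤
      μ ^ S.card * (((1 + z) ^ (K + J₁) - 1) * (if w ≤ Y then (w : ℝ) ^ (-α) else 0)) +
        μ ^ S.card * (if N < w ∧ w ≤ Y then (w : ℝ) ^ (-α) else 0) := add_le_add h2 h1
    _ = _ := by ring

/-- the mean square of the product of the resonator and a polynomial to the right of the line -/
theorem N2_cv {P : Finset ℕ} (hP : ∀ p ∈ P, p.Prime) {y : ℕ} (hy1 : 1 ≤ y) (hy : ∀ p ∈ P, y < p) {K J₁ N Y : ℕ} {μ σ α : ℝ}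
    (hσ : σ = 1 ∨ σ = -1) (hμ : 1 ≤ μ) (hα : 0 < α) (hJ : ∀ U ⊆ P, ∏ p ∈ U, p ≤ Y → U.card ≤ J₁) (e : ℕ → ℂ)
    (he : ∀ n, ‖e n‖ ≤ if N < n ∧ n ≤ Y then (n : ℝ) ^ (-α) else 0) (M : ℕ) :
    N2 M (cv e (rs P K (σ * μ))) ≤ E0 (fun p => μ ^ 2 / p) P *
      (2 * ∑ w ∈ Ioc N Y, (w : ℝ) ^ (-(2 * α + 1)) +
        2 * ((1 + (y : ℝ) ^ (-α) / μ) ^ (K + J₁) - 1) ^ 2 * ∑ w ∈ Icc 1 Y, (w : ℝ) ^ (-(2 * α + 1))) := by
  classical
  have hμ0 : 0 < μ := by linarith
  set η := (1 + (y : ℝ) ^ (-α) / μ) ^ (K + J₁) - 1 with hη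
  set F : Finset ℕ × ℕ → ℝ := fun x => wt (fun p => μ ^ 2 / p) x.1 *
    (2 * (if N < x.2 ∧ x.2 ≤ Y then (x.2 : ℝ) ^ (-(2 * α + 1)) else 0) +
      2 * η ^ 2 * (if x.2 ≤ Y then (x.2 : ℝ) ^ (-(2 * α + 1)) else 0)) with hF
  have hF0 : ∀ x, 0 ≤ F x := by
    intro x
    simp only [hF]
    have h1 : 0 ≤ wt (fun p => μ ^ 2 / (p : ℝ)) x.1 := wt_nonneg (fun p => by positivity) _
    apply mul_nonneg h1
    split_ifs <;> positivity
  -- the decomposition
  set φ : ℕ → Finset ℕ × ℕ := fun m => (P.filter (· ∣ m), m / ∏ p ∈ P.filter (· ∣ m), p) with hφ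
  have hdvd : ∀ m, ∏ p ∈ P.filter (· ∣ m), p ∣ m := by
    intro m
    apply Finset.prod_primes_dvd
    · intro p hp
      exact (hP p (Finset.mem_filter.1 hp).1).prime
    · intro p hp
      exact (Finset.mem_filter.1 hp).2
  have hmul : ∀ m, (∏ p ∈ (φ m).1, p) * (φ m).2 = m := fun m => Nat.mul_div_cancel' (hdvd m)
  have hinj : Function.Injective φ := by
    intro m m' h
    rw [← hmul m, ← hmul m', h]
  have hpt : ∀ m ∈ Icc 1 M, ‖cv e (rs P K (σ * μ)) m‖ ^ 2 / (m : ℝ) ≤ F (φ m) := by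
    intro m hm
    have hm1 := (Finset.mem_Icc.1 hm).1
    have hm0 : m ≠ 0 := by omega
    set S := (φ m).1 with hSdef
    set w := (φ m).2 with hwdef
    have hSw := hmul m
    rw [← hSdef, ← hwdef] at hSw
    have hw1 : 1 ≤ w := by
      rcases Nat.eq_zero_or_pos w with h0 | h0
      · rw [h0, mul_zero] at hSw
        omega
      · exact h0
    have hSP : S ⊆ P := Finset.filter_subset _ _
    have hq0 : 0 < ∏ p ∈ S, p := Finset.prod_pos fun p hp => (hP p (hSP hp)).pos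
    have h1 := cv_pt hP hy1 hy (K := K) hσ hμ hα hJ e he S hSP w hw1 (by
      intro p hp hd
      rw [hSw] at hd
      exact Finset.mem_filter.2 ⟨hp, hd⟩)
    rw [hSw] at h1
    rw [← hη] at h1
    have hη0 : 0 ≤ η := by
      have h6 : 1 ≤ (1 + (y : ℝ) ^ (-α) / μ) ^ (K + J₁) := one_le_pow₀ (by
        have : 0 ≤ (y : ℝ) ^ (-α) / μ := by positivity
        linarith)
      rw [hη]; linarith
    have hwt : wt (fun p => μ ^ 2 / (p : ℝ)) S = μ ^ (2 * S.card) / ((∏ p ∈ S, p : ℕ) : ℝ) := wt_eq μ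
    have hw0 : (0 : ℝ) < w := by exact_mod_cast hw1
    have hq0' : (0 : ℝ) < ((∏ p ∈ S, p : ℕ) : ℝ) := by exact_mod_cast hq0
    have hmr : (m : ℝ) = ((∏ p ∈ S, p : ℕ) : ℝ) * w := by rw [← hSw]; push_cast; rfl
    simp only [hF]
    rw [← hSdef, ← hwdef, hwt, hmr]
    set u : ℝ := (if N < w ∧ w ≤ Y then (w : ℝ) ^ (-α) else 0) with hu
    set v : ℝ := (if w ≤ Y then (w : ℝ) ^ (-α) else 0) with hv
    have hu0 : 0 ≤ u := by rw [hu]; split_ifs <;> positivity
    have hv0 : 0 ≤ v := by rw [hv]; split_ifs <;> positivity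
    have hpw : ((w : ℝ) ^ (-α)) ^ 2 / w = (w : ℝ) ^ (-(2 * α + 1)) := by
      rw [← Real.rpow_natCast, ← Real.rpow_mul hw0.le, div_eq_mul_inv, ← Real.rpow_neg_one, ← Real.rpow_add hw0]
      congr 1
      push_cast
      ring
    have hu2 : u ^ 2 / w = if N < w ∧ w ≤ Y then (w : ℝ) ^ (-(2 * α + 1)) else 0 := by
      rw [hu]
      split_ifs
      · exact hpw
      · simp
    have hv2 : v ^ 2 / w = if w ≤ Y then (w : ℝ) ^ (-(2 * α + 1)) else 0 := by
      rw [hv]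
      split_ifs
      · exact hpw
      · simp
    rw [← hu2, ← hv2]
    have h2 : ‖cv e (rs P K (σ * μ)) m‖ ^ 2 ≤ (μ ^ S.card * (u + η * v)) ^ 2 := pow_le_pow_left₀ (norm_nonneg _) h1 2
    have h3 : (μ ^ S.card * (u + η * v)) ^ 2 ≤ μ ^ (2 * S.card) * (2 * u ^ 2 + 2 * η ^ 2 * v ^ 2) := by
      rw [mul_pow, ← pow_mul, mul_comm S.card 2]
      apply mul_le_mul_of_nonneg_left _ (by positivity)
      nlinarith [sq_nonneg (u - η * v)]
    calc ‖cv e (rs P K (σ * μ)) m‖ ^ 2 / (((∏ p ∈ S, p : ℕ) : ℝ) * w) ≤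
        (μ ^ (2 * S.card) * (2 * u ^ 2 + 2 * η ^ 2 * v ^ 2)) / (((∏ p ∈ S, p : ℕ) : ℝ) * w) := by
          apply div_le_div_of_nonneg_right (h2.trans h3) (by positivity)
      _ = _ := by
          field_simp
  unfold N2
  refine (Finset.sum_le_sum hpt).trans ?_
  have e1 : ∑ m ∈ Icc 1 M, F (φ m) = ∑ x ∈ (Icc 1 M).image φ, F x := by
    rw [Finset.sum_image fun a _ b _ h => hinj h]
  rw [e1]
  have e2 : ∑ x ∈ (Icc 1 M).image φ, F x ≤ ∑ x ∈ P.powerset ×ˢ Icc 1 Y, F x := by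
    rw [← Finset.sum_filter_ne_zero]
    refine Finset.sum_le_sum_of_subset_of_nonneg ?_ fun x _ _ => hF0 x
    intro x hx
    rw [Finset.mem_filter, Finset.mem_image] at hx
    obtain ⟨⟨m, hm, rfl⟩, hne⟩ := hx
    rw [Finset.mem_product, Finset.mem_powerset, Finset.mem_Icc]
    refine ⟨Finset.filter_subset _ _, ?_, ?_⟩
    · rcases Nat.eq_zero_or_pos (φ m).2 with h0 | h0
      · have := hmul m
        rw [h0, mul_zero] at this
        have := (Finset.mem_Icc.1 hm).1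
        omega
      · exact h0
    · by_contra hcon
      apply hne
      simp only [hF]
      rw [if_neg hcon, if_neg fun h => hcon h.2]
      ring
  refine e2.trans (le_of_eq ?_)
  rw [Finset.sum_product]
  unfold E0
  rw [Finset.sum_mul]
  refine Finset.sum_congr rfl fun S _ => ?_
  simp only [hF]
  rw [← Finset.mul_sum, Finset.sum_add_distrib, ← Finset.mul_sum, ← Finset.mul_sum]
  congr 2
  · congr 1
    rw [← Finset.sum_filter]
    apply Finset.sum_congr _ fun _ _ => rfl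
    ext w
    simp only [Finset.mem_filter, Finset.mem_Icc, Finset.mem_Ioc]
    omega
  · congr 1
    apply Finset.sum_congr rfl
    intro w hw
    rw [if_pos (Finset.mem_Icc.1 hw).2]

end Pool.Agent.H510.EX
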