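import Pool.Agent.H510.EX.Tilt2
import Pool.Graph.R_pool_sql_team_seeded_3997aac3.Q98.UM.EXT
import Pool.Graph.R_pool_sql_team_seeded_3997aac3.Q97.UM.Base8

/-!
Extreme values in the classes.
-/

set_option autoImplicit false

open Complex Filter Topology MeasureTheory
open scoped ENNReal
open Pool.Agent.Q97.UM (dp N2 cv prc EP)
open Pool.Agent.Q241.UM (rs)
open Pool.Agent.Q98.UM (S3 S3_nonneg supp_zero EP_prc)

namespace Pool.Agent.H510.EX

open Pool.Agent.H510.UZ Pool.Agent.H510.PC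

/-- growth facts -/
theorem growth2 (k : ℕ) (δ c₀ C q κ : ℝ) (hδ : 0 < δ) (hc₀ : 0 < c₀) (hq : 0 < q) (hκ : 0 < κ) : ∀ᶠ T : ℝ in atTop,
    C ≤ Real.log (Real.log T) ∧ 1 ≤ Real.log (Real.log T) ∧
    Real.log T ^ (2 * k) + 1 ≤ T ^ δ ∧
    3 * Real.log (Real.log T) ≤ c₀ / 2 * Real.sqrt (Real.log T / Real.log (Real.log T)) ∧ 4 ≤ T ^ δ ∧ T ^ (-q) ≤ κ := by
  have h3 : ∀ᶠ T : ℝ in atTop, ‖Real.log T ^ ((2 * k : ℕ) : ℝ)‖ ≤ 1 / 2 * ‖T ^ δ‖ :=
    (isLittleO_log_rpow_rpow_atTop (s := δ) ((2 * k : ℕ) : ℝ) hδ).def (by norm_num)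
  filter_upwards [Pool.Agent.Q98.UM.growth δ c₀ C hδ hc₀, h3, eventually_gt_atTop 1,
    (tendsto_rpow_neg_atTop hq).eventually_le_const hκ] with T h1 h3 hT hq
  obtain ⟨g1, g2, g3, g4, g5, g6⟩ := h1
  refine ⟨g2, g3, ?_, g5, g6, hq⟩
  rw [Real.norm_eq_abs, Real.norm_eq_abs, abs_of_nonneg (by positivity), abs_of_nonneg (by positivity), Real.rpow_natCast] at h3
  linarith

theorem le_of_sq_le_sq' {x y : ℝ} (h : x ^ 2 ≤ y ^ 2) (hy : 0 ≤ y) : x ≤ y := (abs_le_of_sq_le_sq' h hy).2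

theorem ext_mass {ν : ℝ → Measure ℝ} {A : ℝ → ℝ} (hS : SF ν A) (U : ℝ → ℝ) (hU : Measurable U) (off : ℝ → ℝ)
    (hoff : ∀ᶠ T : ℝ in atTop, |off T| ≤ Real.log (Real.log T))
    (hev : ∃ θ₃ δ₀ : ℝ, 0 < θ₃ ∧ 0 < δ₀ ∧ ∀ δ : ℝ, 0 < δ → δ ≤ δ₀ → ∃ C₁ : ℝ, 0 ≤ C₁ ∧ ∀ᶠ T : ℝ in atTop,
      ∀ N : ℕ, (N : ℝ) ≤ T ^ θ₃ → ∀ r : ℕ → ℂ,
        ∫⁻ t, ENNReal.ofReal |U t - off T - EP ⌊T ^ δ⌋₊ t| * ENNReal.ofReal (‖dp N r t‖ ^ 2) ∂(ν T) ≤
          ENNReal.ofReal (C₁ * (A T * N2 N r))) :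
    ∀ K : Set ℂ, IsCompact K → (∀ z ∈ K, 1 / 2 < z.re ∧ z.re < 1) → ∀ κ : ℝ, 0 < κ → ∀ ε : ℝ, 0 < ε → ε ≤ 1 →
    ∃ c : ℝ, 0 < c ∧ ∀ᶠ T : ℝ in atTop, ∀ (As : Set (ℂ → ℂ)) (ηs : ℝ), ε * T ≤ V T (Near K As ηs) →
      ENNReal.ofReal (T ^ (-ε) * A T) ≤
        ν T {t | Near K As (ηs + κ) t ∧ c * Real.sqrt (Real.log T / Real.log (Real.log T)) ≤ U t} ∧
      ENNReal.ofReal (T ^ (-ε) * A T) ≤
        ν T {t | Near K As (ηs + κ) t ∧ U t ≤ -(c * Real.sqrt (Real.log T / Real.log (Real.log T)))} := by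
  intro K hK hKs κ hκ ε hε hε1
  obtain ⟨κ₁, hκ₁, hmass⟩ := res_mass hS
  obtain ⟨k, hk2, θ₁, hθ₁, hmass⟩ := hmass K hK hKs κ⁻¹ (by positivity) ε hε hε1
  obtain ⟨θu, hθu, hup⟩ := hS.up
  obtain ⟨θ₃, δ₀, hθ₃, hδ₀, hev⟩ := hev
  obtain ⟨C₃, hC₃⟩ := Pool.Agent.Erdos456.Mert.mertens_inv
  obtain ⟨δ, hδ⟩ : ∃ δ : ℝ, δ = min (min δ₀ (θu / 2)) (1 / 2) := ⟨_, rfl⟩
  have hδ0 : 0 < δ := by rw [hδ]; positivity
  have hδ1 : δ ≤ δ₀ := by rw [hδ]; exact (min_le_left _ _).trans (min_le_left _ _)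
  have hδ2 : δ ≤ θu / 2 := by rw [hδ]; exact (min_le_left _ _).trans (min_le_right _ _)
  have hδ3 : δ ≤ 1 / 2 := by rw [hδ]; exact min_le_right _ _
  obtain ⟨θ, hθ⟩ : ∃ θ : ℝ, θ = min (min (ε / 2) 1) (min θ₁ (min (θu / 2) θ₃)) := ⟨_, rfl⟩
  have hθ0 : 0 < θ := by rw [hθ]; positivity
  have hθε : θ ≤ ε / 2 := by rw [hθ]; exact (min_le_left _ _).trans (min_le_left _ _)
  have hθ1 : θ ≤ 1 := by rw [hθ]; exact (min_le_left _ _).trans (min_le_right _ _)
  have hθθ₁ : θ ≤ θ₁ := by rw [hθ]; exact (min_le_right _ _).trans (min_le_left _ _)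
  have hθu2 : θ ≤ θu / 2 := by rw [hθ]; exact (min_le_right _ _).trans ((min_le_right _ _).trans (min_le_left _ _))
  have hθθ₃ : θ ≤ θ₃ := by rw [hθ]; exact (min_le_right _ _).trans ((min_le_right _ _).trans (min_le_right _ _))
  obtain ⟨c₀, C₂, hc₀, hC₂, hRD⟩ := ev_RD k hk2 θ hθ0 hθ1
  obtain ⟨C₁, hC₁, hev⟩ := hev δ hδ0 hδ1
  obtain ⟨K', hK'⟩ : ∃ K' : ℝ, K' = 2 * (C₁ + C₂) / (κ₁ * ε) + 1 := ⟨_, rfl⟩
  have hK'0 : 0 < K' := by rw [hK']; positivity
  have hKC : (C₁ + C₂) / K' ≤ κ₁ * ε / 2 := by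
    rw [div_le_iff₀ hK'0, hK']
    have : κ₁ * ε / 2 * (2 * (C₁ + C₂) / (κ₁ * ε) + 1) = (C₁ + C₂) + κ₁ * ε / 2 := by field_simp
    rw [this]
    have : 0 < κ₁ * ε := by positivity
    linarith
  have hS3 := S3_nonneg
  obtain ⟨C', hC'⟩ : ∃ C' : ℝ, C' = 3 * K' + 4 * S3 + |C₃| + 1 := ⟨_, rfl⟩
  refine ⟨c₀ / 4, by positivity, ?_⟩
  filter_upwards [hmass θ hθ0 hθθ₁ c₀ C₂, hup, hev, Real.tendsto_log_atTop.eventually hRD, hoff, hS.big,
    growth2 k δ (c₀ / 2) C' (ε / 2) (κ₁ * ε / 2) hδ0 (by positivity) (by positivity) (by positivity), eventually_ge_atTop 16]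
    with T hmass hup hev hRD hoff hbig hgr hT As ηs hV
  obtain ⟨g2, g3, g4, g5, g6, g7⟩ := hgr
  have hT0 : 0 < T := by linarith
  have hT1 : 1 ≤ T := by linarith
  have hT1' : 1 < T := by linarith
  have hA0 : 0 ≤ A T := by linarith
  set X : ℕ := ⌊T ^ δ⌋₊ with hX
  have hXle : (X : ℝ) ≤ T ^ δ := Nat.floor_le (by positivity)
  have hXT : (X : ℝ) ≤ T := hXle.trans (by
    calc T ^ δ ≤ T ^ (1 : ℝ) := Real.rpow_le_rpow_of_exponent_le hT1 (by linarith)
      _ = T := Real.rpow_one T)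
  have hXge : Real.log T ^ (2 * k) ≤ X := by
    have := Nat.lt_floor_add_one (T ^ δ)
    rw [← hX] at this
    linarith
  have hX3 : 3 ≤ X := by
    have h1 : (3 : ℝ) < X := by
      have := Nat.lt_floor_add_one (T ^ δ)
      rw [← hX] at this
      linarith
    exact_mod_cast h1.le
  set l := Real.log (Real.log T) with hl
  have hl0 : 0 < l := by linarith
  have hK1 : ∀ z ∈ K, z.re < 1 := fun z hz => (hKs z hz).2
  have hΦ := PhiA_fun K hκ As ηs
  have hΦc := val_cont hK hK1 (by positivity) hΦ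
  have hint : ε * T ≤ ∫ t in T..(2 * T), PhiA K hκ As ηs (zv t) := by
    refine hV.trans ((V_mono' T _ _ ?_).trans (int_ge _ hΦc (fun t => hΦ.nonneg _) T hT0.le))
    intro t h3
    rw [PhiA_one hκ h3]
  -- main statement for each sign
  have key : ∀ σ : ℝ, σ = 1 ∨ σ = -1 → ∃ a : ℝ, c₀ * Real.sqrt (Real.log T / l) ≤ a ∧
      ENNReal.ofReal (T ^ (-ε) * A T) ≤ ν T {t | Near K As (ηs + κ) t ∧ |U t - σ * a| ≤ 3 * l} := by
    intro σ hσ
    obtain ⟨P, y, Kk, N, μ, a, hR⟩ := hRD σ hσ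
    refine ⟨a, hR.ha, ?_⟩
    have hm := hmass _ hΦ hint σ P y Kk N μ a hR
    set r := rs P Kk (σ * μ) with hr
    set n2 := N2 N r with hn2
    have hn20 : 0 < n2 := by have := hR.one; linarith
    have hNle : (N : ℝ) ≤ T ^ θ := by
      have h4 := hR.hN
      rwa [mul_comm, Real.exp_mul, Real.exp_log hT0] at h4
    have hRX := hR.main X hXge (by rw [Real.exp_log hT0]; exact hXT)
    set G : ℕ → ℂ := fun n => cv (prc X) r n - σ * a * r n with hG
    have hprs : ∀ n, prc X n ≠ 0 → 1 ≤ n ∧ n ≤ X := by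
      intro n hn
      unfold prc at hn
      by_cases h : n.Prime ∧ n ≤ X
      · exact ⟨h.1.one_lt.le, h.2⟩
      · rw [if_neg h] at hn
        exact absurd rfl hn
    have hXN : ((X * N : ℕ) : ℝ) ≤ T ^ θu := by
      push_cast
      calc (X : ℝ) * N ≤ T ^ δ * T ^ θ := mul_le_mul hXle hNle (Nat.cast_nonneg _) (by positivity)
        _ = T ^ (δ + θ) := (Real.rpow_add hT0 _ _).symm
        _ ≤ T ^ θu := Real.rpow_le_rpow_of_exponent_le hT1 (by linarith)
    have hNX : N ≤ X * N := Nat.le_mul_of_pos_left N (by omega)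
    have hGeq : ∀ t, dp (X * N) G t = (dp X (prc X) t - σ * a) * dp N r t := by
      intro t
      have e1 := Pool.Agent.Q84.UM.t_DPM.1 X N (prc X) r t (supp_zero hprs) (supp_zero hR.supp)
      have e2 : dp (X * N) r t = dp N r t := by
        unfold dp
        symm
        refine Finset.sum_subset (Finset.Icc_subset_Icc_right hNX) fun n _ hn => ?_
        by_cases h : r n = 0
        · rw [h, zero_mul]
        · exact absurd (Finset.mem_Icc.mpr (hR.supp n h)) hn
      have e3 : dp (X * N) G t = dp (X * N) (cv (prc X) r) t - σ * a * dp (X * N) r t := by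
        unfold dp
        rw [Finset.mul_sum, ← Finset.sum_sub_distrib]
        refine Finset.sum_congr rfl fun n _ => ?_
        simp only [hG]
        ring
      rw [e3, e2, ← e1]
      ring
    set F : ℝ → ℝ≥0∞ := fun t => ENNReal.ofReal (‖dp N r t‖ ^ 2) with hF
    have hFc : Continuous fun t => ‖dp N r t‖ ^ 2 := (dp_cont N r).norm.pow 2
    have hFm : Measurable F := (ENNReal.continuous_ofReal.comp hFc).measurable
    have hFle : ∀ t, F t ≤ ENNReal.ofReal (N * n2) := fun t =>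
      ENNReal.ofReal_le_ofReal ((Pool.Agent.Q84.UM.t_DPM.2.2 N r t).1)
    have hprc : Continuous fun t => ‖dp X (prc X) t - σ * a‖ ^ 2 := ((dp_cont X _).sub continuous_const).norm.pow 2
    set D1 : ℝ → ℝ := fun t => |U t - off T - EP X t| with hD1
    set D2 : ℝ → ℝ := fun t => ‖dp X (prc X) t - σ * a‖ ^ 2 with hD2
    have hD1m : Measurable D1 := by
      have : Measurable fun t => U t - off T - EP X t := (hU.sub_const _).sub (Pool.Agent.Q247.UM.EP_cont X).measurable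
      exact continuous_abs.measurable.comp this
    have hD2m : Measurable D2 := hprc.measurable
    set S : Set ℝ := {t | 0 < PhiA K hκ As ηs (zv t) ∧ D1 t ≤ K' ∧ D2 t ≤ K' * l} with hSdef
    have hSm : MeasurableSet S :=
      (measurableSet_lt measurable_const hΦc.measurable).inter ((measurableSet_le hD1m measurable_const).inter
        (measurableSet_le hD2m measurable_const))
    have m1 : Measurable fun t => ENNReal.ofReal (D1 t) * F t := (ENNReal.measurable_ofReal.comp hD1m).mul hFm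
    have m2 : Measurable fun t => ENNReal.ofReal (D2 t) * F t := (ENNReal.measurable_ofReal.comp hD2m).mul hFm
    have i1 : ∫⁻ t, ENNReal.ofReal (D1 t) * F t ∂(ν T) ≤ ENNReal.ofReal (C₁ * (A T * n2)) :=
      hev N (hNle.trans (Real.rpow_le_rpow_of_exponent_le hT1 hθθ₃)) r
    have i2 : ∫⁻ t, ENNReal.ofReal (D2 t) * F t ∂(ν T) ≤ ENNReal.ofReal (C₂ * l * (A T * n2)) := by
      have e1 : ∀ t, ENNReal.ofReal (D2 t) * F t = ENNReal.ofReal (‖dp (X * N) G t‖ ^ 2) := by
        intro t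
        rw [hGeq, norm_mul, mul_pow, ENNReal.ofReal_mul (by positivity)]
      rw [lintegral_congr e1]
      refine (hup (X * N) hXN G).trans (ENNReal.ofReal_le_ofReal ?_)
      calc A T * N2 (X * N) G ≤ A T * (C₂ * l * n2) := by gcongr
        _ = _ := by ring
    have hpt : ∀ t, ENNReal.ofReal (PhiA K hκ As ηs (zv t)) * F t ≤ S.indicator F t +
        (ENNReal.ofReal (1 / K') * (ENNReal.ofReal (D1 t) * F t) + ENNReal.ofReal (1 / (K' * l)) * (ENNReal.ofReal (D2 t) * F t)) := by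
      intro t
      have hΦ1 : ENNReal.ofReal (PhiA K hκ As ηs (zv t)) * F t ≤ F t := by
        have h5 : ENNReal.ofReal (PhiA K hκ As ηs (zv t)) ≤ 1 := by
          rw [← ENNReal.ofReal_one]
          exact ENNReal.ofReal_le_ofReal (hΦ.le_one _)
        calc _ ≤ 1 * F t := mul_le_mul_left h5 _
          _ = F t := one_mul _
      by_cases h5 : t ∈ S
      · rw [Set.indicator_of_mem h5]
        exact hΦ1.trans le_self_add
      · rw [Set.indicator_of_notMem h5, zero_add]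
        by_cases h6 : 0 < PhiA K hκ As ηs (zv t)
        · by_cases h7 : D1 t ≤ K'
          · have h8 : K' * l < D2 t := by
              by_contra hcon
              exact h5 ⟨h6, h7, not_lt.1 hcon⟩
            refine hΦ1.trans (le_trans ?_ le_add_self)
            rw [← mul_assoc, ← ENNReal.ofReal_mul (by positivity)]
            have h9 : (1 : ℝ≥0∞) ≤ ENNReal.ofReal (1 / (K' * l) * D2 t) := by
              rw [← ENNReal.ofReal_one]
              apply ENNReal.ofReal_le_ofReal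
              rw [one_div_mul_eq_div, le_div_iff₀ (by positivity)]
              linarith
            calc F t = 1 * F t := (one_mul _).symm
              _ ≤ _ := mul_le_mul_left h9 _
          · refine hΦ1.trans (le_trans ?_ le_self_add)
            rw [← mul_assoc, ← ENNReal.ofReal_mul (by positivity)]
            have h9 : (1 : ℝ≥0∞) ≤ ENNReal.ofReal (1 / K' * D1 t) := by
              rw [← ENNReal.ofReal_one]
              apply ENNReal.ofReal_le_ofReal
              rw [one_div_mul_eq_div, le_div_iff₀ (by positivity)]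
              linarith
            calc F t = 1 * F t := (one_mul _).symm
              _ ≤ _ := mul_le_mul_left h9 _
        · rw [ENNReal.ofReal_of_nonpos (not_lt.1 h6), zero_mul]
          exact zero_le
    have hint2 : ENNReal.ofReal (κ₁ * ε * (A T * n2)) ≤ ENNReal.ofReal (N * n2) * ν T S +
        ENNReal.ofReal ((C₁ + C₂) / K' * (A T * n2)) := by
      refine hm.trans ((lintegral_mono hpt).trans ?_)
      rw [lintegral_add_left (hFm.indicator hSm), lintegral_add_left (m1.const_mul _), lintegral_const_mul _ m1,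
        lintegral_const_mul _ m2, lintegral_indicator hSm]
      refine add_le_add ?_ ?_
      · calc ∫⁻ t in S, F t ∂(ν T) ≤ ∫⁻ t in S, ENNReal.ofReal (N * n2) ∂(ν T) := lintegral_mono fun t => hFle t
          _ = _ := by rw [setLIntegral_const]
      · calc _ ≤ ENNReal.ofReal (1 / K') * ENNReal.ofReal (C₁ * (A T * n2)) +
              ENNReal.ofReal (1 / (K' * l)) * ENNReal.ofReal (C₂ * l * (A T * n2)) := by gcongr
          _ = ENNReal.ofReal (1 / K' * (C₁ * (A T * n2)) + 1 / (K' * l) * (C₂ * l * (A T * n2))) := by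
              rw [← ENNReal.ofReal_mul (by positivity), ← ENNReal.ofReal_mul (by positivity),
                ← ENNReal.ofReal_add (by positivity) (by positivity)]
          _ = _ := by
              congr 1
              field_simp
    have hint3 : ENNReal.ofReal (κ₁ * ε / 2 * (A T * n2)) ≤ ENNReal.ofReal (N * n2) * ν T S := by
      have h5 : ENNReal.ofReal (κ₁ * ε * (A T * n2) - (C₁ + C₂) / K' * (A T * n2)) ≤ ENNReal.ofReal (N * n2) * ν T S := by
        rw [ENNReal.ofReal_sub _ (by positivity)]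
        exact tsub_le_iff_right.2 hint2
      refine le_trans (ENNReal.ofReal_le_ofReal ?_) h5
      have h6 : (C₁ + C₂) / K' * (A T * n2) ≤ κ₁ * ε / 2 * (A T * n2) := by gcongr
      linarith
    have hN0 : 0 < N := by
      rcases Nat.eq_zero_or_pos N with h | h
      · exfalso
        have : n2 = 0 := by
          rw [hn2, h]
          unfold N2
          simp
        linarith
      · exact h
    have hN0' : (0 : ℝ) < N := by exact_mod_cast hN0
    have hcount : ENNReal.ofReal (T ^ (-ε) * A T) ≤ ν T S := by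
      have h5 : ENNReal.ofReal (N * n2) * ENNReal.ofReal (T ^ (-ε) * A T) ≤ ENNReal.ofReal (N * n2) * ν T S := by
        refine le_trans ?_ hint3
        rw [← ENNReal.ofReal_mul (by positivity)]
        apply ENNReal.ofReal_le_ofReal
        have h6 : (N : ℝ) * T ^ (-ε) ≤ κ₁ * ε / 2 := by
          calc (N : ℝ) * T ^ (-ε) ≤ T ^ (ε / 2) * T ^ (-ε) := by
                gcongr
                exact hNle.trans (Real.rpow_le_rpow_of_exponent_le hT1 hθε)
            _ = T ^ (-(ε / 2)) := by rw [← Real.rpow_add hT0]; congr 1; ring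
            _ ≤ _ := g7
        calc N * n2 * (T ^ (-ε) * A T) = (N * T ^ (-ε)) * (A T * n2) := by ring
          _ ≤ κ₁ * ε / 2 * (A T * n2) := by gcongr
      exact (ENNReal.mul_le_mul_iff_right (by rw [ne_eq, ENNReal.ofReal_eq_zero, not_le]; positivity) ENNReal.ofReal_ne_top).1 h5
    refine hcount.trans (measure_mono ?_)
    rintro t ⟨ht1, ht2, ht3⟩
    refine ⟨?_, ?_⟩
    · by_contra hcon
      rw [PhiA_zero hκ hcon] at ht1
      exact lt_irrefl _ ht1
    · have u1 := abs_le.mp (EP_prc hC₃ hX3 t)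
      have u2 : Real.log (Real.log X) ≤ l := by
        refine Real.log_le_log ?_ (Real.log_le_log (by exact_mod_cast (by omega : 0 < X)) hXT)
        exact Real.log_pos (by exact_mod_cast (by omega : 1 < X))
      have u3 := abs_le.mp ht2
      have u4 : ‖dp X (prc X) t - σ * a‖ ≤ (2 * K' + l / 2) / 2 := by
        have h1 : ‖dp X (prc X) t - σ * a‖ ^ 2 ≤ ((2 * K' + l / 2) / 2) ^ 2 := by
          have h2 : ‖dp X (prc X) t - σ * a‖ ^ 2 ≤ K' * l := ht3
          nlinarith [sq_nonneg (2 * K' - l / 2), sq_nonneg K', sq_nonneg l]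
        exact le_of_sq_le_sq' h1 (by positivity)
      have u5 : |(dp X (prc X) t).re - σ * a| ≤ (2 * K' + l / 2) / 2 := by
        have h1 : (dp X (prc X) t).re - σ * a = (dp X (prc X) t - σ * a).re := by
          rw [Complex.sub_re]
          congr 1
          have : ((σ : ℂ) * (a : ℂ)) = ((σ * a : ℝ) : ℂ) := by push_cast; ring
          rw [this, Complex.ofReal_re]
        rw [h1]
        exact (abs_re_le_norm _).trans u4
      have u6 := abs_le.mp u5
      have u7 := le_abs_self C₃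
      have u8 := abs_le.mp hoff
      rw [abs_le]
      constructor <;> linarith [u1.1, u1.2, u3.1, u3.2, u6.1, u6.2, u8.1, u8.2]
  have hlw : 3 * l ≤ c₀ / 4 * Real.sqrt (Real.log T / l) := by
    have : c₀ / 2 / 2 = c₀ / 4 := by ring
    rw [this] at g5
    exact g5
  have hsq : 0 ≤ Real.sqrt (Real.log T / l) := Real.sqrt_nonneg _
  constructor
  · obtain ⟨a, ha, h⟩ := key 1 (Or.inl rfl)
    refine h.trans (measure_mono ?_)
    rintro t ⟨ht1, ht2⟩
    refine ⟨ht1, ?_⟩
    have h5 := (abs_le.1 ht2).1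
    nlinarith
  · obtain ⟨a, ha, h⟩ := key (-1) (Or.inr rfl)
    refine h.trans (measure_mono ?_)
    rintro t ⟨ht1, ht2⟩
    refine ⟨ht1, ?_⟩
    have h5 := (abs_le.1 ht2).2
    nlinarith

end Pool.Agent.H510.EX
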