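import Pool.Agent.H510.EX.Rate

/-!
The heights and the zeros at which zeta is not close to a Dirichlet polynomial of length `T^η`.
-/

set_option autoImplicit false

open Complex Filter Topology Set MeasureTheory ZU

namespace Pool.Agent.H510.EX

open Pool.Agent.H510.UZ

theorem G_cont (a b B : ℝ) (h2 : a ≤ b) (h3 : b < 1) (hB : 0 < B) (N : ℕ) : Continuous (G a b B N) := by
  have hcont : ContinuousOn (E N) {z : ℂ | a ≤ z.re ∧ z.re ≤ b} := by
    intro z hz
    exact (E_diffAt N (lt_of_le_of_lt hz.2 h3)).continuousAt.continuousWithinAt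
  have hcont2 : ∀ σ : ℝ, σ ≤ b → Continuous (fun u : ℝ => ‖E N ((σ : ℂ) + u * I)‖ ^ 2) := by
    intro σ hσ
    have : Continuous (fun u : ℝ => E N ((σ : ℂ) + u * I)) := by
      rw [continuous_iff_continuousAt]
      intro u
      have h5 : ContinuousAt (E N) ((σ : ℂ) + u * I) :=
        (E_diffAt N (by simpa using lt_of_le_of_lt hσ h3)).continuousAt
      exact ContinuousAt.comp (f := fun u : ℝ => (σ : ℂ) + u * I) h5 (by fun_prop)
    exact this.norm.pow 2
  obtain ⟨M, hM⟩ : ∃ M : ℝ, ∀ s ∈ rect a b B, ∫ t in (0 : ℝ)..1, (1 : ℝ) * ‖E N (s + t * I)‖ ^ 2 ≤ M := by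
    have hc : ContinuousOn (fun p : ℂ × ℝ => ‖E N (p.1 + p.2 * I)‖ ^ 2) (rect a b B ×ˢ Set.Icc (0 : ℝ) 1) := by
      intro p hp
      have h5 : ContinuousAt (E N) (p.1 + p.2 * I) :=
        (E_diffAt N (by simpa using lt_of_le_of_lt hp.1.2.1 h3)).continuousAt
      have h6 : ContinuousAt (fun p : ℂ × ℝ => E N (p.1 + p.2 * I)) p :=
        ContinuousAt.comp (f := fun p : ℂ × ℝ => p.1 + p.2 * I) h5 (by fun_prop)
      exact (h6.norm.pow 2).continuousWithinAt
    have hK : IsCompact (rect a b B ×ˢ Set.Icc (0 : ℝ) 1) := (J_f.isCompact_rectV a b B).prod isCompact_Icc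
    obtain ⟨M, hM⟩ := hK.bddAbove_image hc
    refine ⟨M, ?_⟩
    intro s hs
    have h5 : ∫ t in (0 : ℝ)..1, (1 : ℝ) * ‖E N (s + t * I)‖ ^ 2 ≤ ∫ t in (0 : ℝ)..1, M := by
      apply intervalIntegral.integral_mono_on (by norm_num)
      · have h6 : Continuous fun t : ℝ => (1 : ℝ) * ‖E N (s + t * I)‖ ^ 2 := by
          simp only [one_mul]
          have h7 := hcont2 s.re hs.2.1
          have h8 : (fun t : ℝ => ‖E N (s + t * I)‖ ^ 2) = (fun u : ℝ => ‖E N ((s.re : ℂ) + u * I)‖ ^ 2) ∘ fun t : ℝ => t + s.im := by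
            ext t
            simp only [Function.comp]
            congr 3
            apply Complex.ext <;> simp [add_comm]
          rw [h8]
          exact h7.comp (by fun_prop)
        exact h6.intervalIntegrable _ _
      · simp
      · intro t ht
        rw [one_mul]
        exact hM ⟨(s, t), ⟨hs, ht⟩, rfl⟩
    simpa using h5
  exact (fubini_bound a b B h2 hB (E N) hcont (fun _ => 1) continuous_const 1 (by norm_num) M hM).1

theorem G_rate (a b B : ℝ) (h1 : 1 / 2 < a) (h2 : a ≤ b) (h3 : b < 1) (hB : 0 < B) (η : ℝ) (hη : 0 < η)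
    (hη1 : η ≤ 1 / 2) : ∃ c : ℝ, 0 < c ∧ c ≤ 1 ∧ ∀ᶠ T : ℝ in atTop, ∀ N : ℕ, T ^ η / 2 ≤ N → (N : ℝ) ≤ T ^ (1 / 2 : ℝ) →
      ∫ t in (0 : ℝ)..T, G a b B N t ≤ (b - a) * (2 * B) * T ^ (1 - c) := by
  obtain ⟨c, hc, hc1, h⟩ := rate a b h1 h2 h3 B hB η hη hη1
  refine ⟨c, hc, hc1, ?_⟩
  filter_upwards [h, eventually_gt_atTop 0] with T hT hT0 N hN1 hN2
  have hcont : ContinuousOn (E N) {z : ℂ | a ≤ z.re ∧ z.re ≤ b} := by
    intro z hz
    exact (E_diffAt N (lt_of_le_of_lt hz.2 h3)).continuousAt.continuousWithinAt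
  have h4 := hT N hN1 hN2
  have key := (fubini_bound a b B h2 hB (E N) hcont (fun _ => 1) continuous_const T (by linarith) (T ^ (1 - c)) (by
    rintro s ⟨hs1, hs2, hs3⟩
    simp only [one_mul]
    have h4 := h4 s.re ⟨hs1, hs2⟩
    have hcont2 : Continuous (fun u : ℝ => ‖E N ((s.re : ℂ) + u * I)‖ ^ 2) := by
      have : Continuous (fun u : ℝ => E N ((s.re : ℂ) + u * I)) := by
        rw [continuous_iff_continuousAt]
        intro u
        have h5 : ContinuousAt (E N) ((s.re : ℂ) + u * I) :=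
          (E_diffAt N (by simpa using lt_of_le_of_lt hs2 h3)).continuousAt
        exact ContinuousAt.comp (f := fun u : ℝ => (s.re : ℂ) + u * I) h5 (by fun_prop)
      exact this.norm.pow 2
    have e1 : ∫ t in (0 : ℝ)..T, ‖E N (s + t * I)‖ ^ 2 = ∫ u in (s.im)..(T + s.im), ‖E N ((s.re : ℂ) + u * I)‖ ^ 2 := by
      have := intervalIntegral.integral_comp_add_right (fun u : ℝ => ‖E N ((s.re : ℂ) + u * I)‖ ^ 2) s.im
        (a := 0) (b := T)
      rw [zero_add] at this
      rw [← this]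
      congr 1
      ext t
      congr 3
      apply Complex.ext <;> simp [add_comm]
    rw [e1]
    rw [abs_le] at hs3
    calc ∫ u in (s.im)..(T + s.im), ‖E N ((s.re : ℂ) + u * I)‖ ^ 2
        ≤ ∫ u in (-B)..(T + B), ‖E N ((s.re : ℂ) + u * I)‖ ^ 2 := by
          apply intervalIntegral.integral_mono_interval (by linarith [hs3.1]) (by linarith) (by linarith [hs3.2])
          · exact Filter.Eventually.of_forall fun _ => by positivity
          · exact hcont2.intervalIntegrable _ _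
      _ ≤ T ^ (1 - c) := h4)).2
  simp only [one_mul] at key
  exact key

open Classical in
/-- few heights and few zeros at which the long polynomial is not close to zeta -/
theorem few2 (a b B : ℝ) (h1 : 1 / 2 < a) (h2 : a ≤ b) (h3 : b < 1) (hB : 0 < B) (η : ℝ) (hη : 0 < η)
    (hη1 : η ≤ 1 / 2) : ∃ c : ℝ, 0 < c ∧ c ≤ 1 ∧ ∀ δ : ℝ, 0 < δ → ∀ᶠ T : ℝ in atTop,
      volume {t : ℝ | t ∈ Icc T (2 * T) ∧ Bad a b B δ ⌊T ^ η⌋₊ t} ≤ ENNReal.ofReal (T ^ (1 - c)) ∧
      ∑ s ∈ (H370.Zf riemannZeta T (2 * T)).filter (fun s => Bad a b B δ ⌊T ^ η⌋₊ s.im), (H370.mult riemannZeta s : ℝ) ≤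
        T ^ (1 - c) := by
  obtain ⟨C, hC, hpt⟩ := pt a b ((1 / 2 + a) / 2) ((b + 1) / 2) B (by linarith) h2 (by linarith) (by linarith) hB
  obtain ⟨C2, hC2, hloc⟩ := H370.local_sum H370.good_zeta
  obtain ⟨c, hc, hc1, hG⟩ := G_rate ((1 / 2 + a) / 2) ((b + 1) / 2) (B + 2) (by linarith) (by linarith) (by linarith)
    (by linarith) (η / 2) (by linarith) (by linarith)
  obtain ⟨A, hA⟩ : ∃ A : ℝ, A = ((b + 1) / 2 - (1 / 2 + a) / 2) * (2 * (B + 2)) := ⟨_, rfl⟩
  have hA0 : 0 ≤ A := by rw [hA]; apply mul_nonneg <;> linarith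
  rw [← hA] at hG
  refine ⟨c / 4, by positivity, by linarith, ?_⟩
  intro δ hδ
  have hlin : Tendsto (fun T : ℝ => 4 * T) atTop atTop := tendsto_id.const_mul_atTop (by norm_num)
  have hG4 := hlin.eventually hG
  have hpos : 0 < c / 4 := by positivity
  have v1 : ∀ᶠ T : ℝ in atTop, C * (A * 4) ≤ δ ^ 2 * T ^ (c / 2) := by
    have h := (tendsto_rpow_atTop (show 0 < c / 2 by positivity)).eventually_ge_atTop (C * (A * 4) / δ ^ 2)
    filter_upwards [h] with T hT
    rw [div_le_iff₀ (by positivity)] at hT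
    linarith
  have v2 : ∀ᶠ T : ℝ in atTop, C2 * (C * (A * 4)) ≤ δ ^ 2 * T ^ (c / 2) := by
    have h := (tendsto_rpow_atTop (show 0 < c / 2 by positivity)).eventually_ge_atTop (C2 * (C * (A * 4)) / δ ^ 2)
    filter_upwards [h] with T hT
    rw [div_le_iff₀ (by positivity)] at hT
    linarith
  have v3 : ∀ᶠ T : ℝ in atTop, Real.log T ≤ T ^ (c / 4) := by
    have h := (isLittleO_log_rpow_atTop hpos).bound one_pos
    filter_upwards [h, eventually_ge_atTop 1] with T hT hT1
    rw [one_mul, Real.norm_of_nonneg (Real.log_nonneg hT1), Real.norm_of_nonneg (by positivity)] at hT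
    exact hT
  have v4 : ∀ᶠ T : ℝ in atTop, (4 : ℝ) ≤ T ^ (η / 2) := (tendsto_rpow_atTop (by positivity)).eventually_ge_atTop _
  filter_upwards [hG4, v1, v2, v3, v4, eventually_ge_atTop 4] with T hG4 v1 v2 v3 v4 hT4
  have hT0 : 0 < T := by linarith
  have hT1 : 1 ≤ T := by linarith
  set N := ⌊T ^ η⌋₊ with hN
  have hNle : (N : ℝ) ≤ T ^ η := Nat.floor_le (by positivity)
  have hNge : T ^ η - 1 < N := by
    have := Nat.lt_floor_add_one (T ^ η)
    rw [← hN] at this
    linarith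
  have hTη : T ^ η = T ^ (η / 2) * T ^ (η / 2) := by
    rw [← Real.rpow_add hT0]; congr 1; ring
  have h4η : (4 * T) ^ (η / 2) ≤ 2 * T ^ (η / 2) := by
    rw [Real.mul_rpow (by norm_num) hT0.le]
    apply mul_le_mul_of_nonneg_right _ (by positivity)
    calc (4 : ℝ) ^ (η / 2) ≤ 4 ^ (1 / 2 : ℝ) := Real.rpow_le_rpow_of_exponent_le (by norm_num) (by linarith)
      _ = 2 := by
        rw [show (4 : ℝ) = 2 ^ (2 : ℝ) by norm_num, ← Real.rpow_mul (by norm_num)]
        norm_num
  have q1 : (4 * T) ^ (η / 2) / 2 ≤ N := by nlinarith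
  have q2 : (N : ℝ) ≤ (4 * T) ^ (1 / 2 : ℝ) := by
    calc (N : ℝ) ≤ T ^ η := hNle
      _ ≤ T ^ (1 / 2 : ℝ) := Real.rpow_le_rpow_of_exponent_le hT1 hη1
      _ ≤ (4 * T) ^ (1 / 2 : ℝ) := Real.rpow_le_rpow hT0.le (by linarith) (by norm_num)
  have hGT := hG4 N q1 q2
  set g := G ((1 / 2 + a) / 2) ((b + 1) / 2) (B + 2) N with hg
  have hGc : Continuous g := G_cont _ _ _ (by linarith) (by linarith) (by linarith) N
  have hg0 : ∀ t, 0 ≤ g t := fun t => G_nonneg _ _ _ _ _
  have hint : ∀ x y : ℝ, IntervalIntegrable g volume x y := fun x y => hGc.intervalIntegrable x y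
  have hpow : (4 * T) ^ (1 - c) ≤ 4 * T ^ (1 - c) := by
    rw [Real.mul_rpow (by norm_num) hT0.le]
    apply mul_le_mul_of_nonneg_right _ (by positivity)
    calc (4 : ℝ) ^ (1 - c) ≤ 4 ^ (1 : ℝ) := Real.rpow_le_rpow_of_exponent_le (by norm_num) (by linarith)
      _ = 4 := by norm_num
  have hGle : ∀ U : ℝ, 0 ≤ U → U ≤ 4 * T → ∫ t in (0 : ℝ)..U, g t ≤ A * 4 * T ^ (1 - c) := by
    intro U hU0 hU
    calc ∫ t in (0 : ℝ)..U, g t ≤ ∫ t in (0 : ℝ)..(4 * T), g t := by
          apply intervalIntegral.integral_mono_interval le_rfl hU0 hU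
          · exact Filter.Eventually.of_forall fun t => hg0 t
          · exact hint _ _
      _ ≤ A * (4 * T) ^ (1 - c) := hGT
      _ ≤ A * (4 * T ^ (1 - c)) := by gcongr
      _ = _ := by ring
  have hp1 : T ^ (1 - c) * T ^ (c / 2) = T ^ (1 - c / 2) := by
    rw [← Real.rpow_add hT0]; congr 1; ring
  have hp2 : T ^ (1 - c / 2) * T ^ (c / 4) = T ^ (1 - c / 4) := by
    rw [← Real.rpow_add hT0]; congr 1; ring
  have hp3 : T ^ (1 - c / 2) ≤ T ^ (1 - c / 4) := Real.rpow_le_rpow_of_exponent_le hT1 (by linarith)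
  constructor
  · -- the measure
    have hsub : {t : ℝ | t ∈ Icc T (2 * T) ∧ Bad a b B δ N t} ⊆ {t : ℝ | t ∈ Ioc 0 (2 * T) ∧ δ ^ 2 ≤ C * g t} := by
      rintro t ⟨ht, z, hz, hzt⟩
      refine ⟨⟨by linarith [ht.1], ht.2⟩, ?_⟩
      have := hpt N t t (by simp) z hz
      refine le_trans ?_ this
      gcongr
    refine (measure_mono hsub).trans ?_
    have hmeas : MeasurableSet {t : ℝ | t ∈ Ioc 0 (2 * T) ∧ δ ^ 2 ≤ C * g t} :=
      measurableSet_Ioc.inter (measurableSet_le measurable_const (hGc.measurable.const_mul C))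
    set S := {t : ℝ | t ∈ Ioc 0 (2 * T) ∧ δ ^ 2 ≤ C * g t} with hS
    have hSsub : S ⊆ Ioc 0 (2 * T) := fun t ht => ht.1
    have hfin : volume S < ⊤ := lt_of_le_of_lt (measure_mono hSsub) measure_Ioc_lt_top
    have h5 : δ ^ 2 * (volume S).toReal ≤ ∫ t in (0 : ℝ)..(2 * T), C * g t := by
      rw [intervalIntegral.integral_of_le (by linarith)]
      have hi : IntegrableOn (fun t => C * g t) (Ioc 0 (2 * T)) :=
        ((hint 0 (2 * T)).const_mul C).1
      calc δ ^ 2 * (volume S).toReal = ∫ t in S, δ ^ 2 := by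
            rw [setIntegral_const, smul_eq_mul, mul_comm]; rfl
        _ ≤ ∫ t in S, C * g t := by
            apply setIntegral_mono_on _ (hi.mono_set hSsub) hmeas
            · intro t ht; exact ht.2
            · exact integrableOn_const hfin.ne
        _ ≤ ∫ t in Ioc 0 (2 * T), C * g t := by
            apply setIntegral_mono_set hi
            · exact Filter.Eventually.of_forall fun t => mul_nonneg hC.le (hg0 t)
            · exact hSsub.eventuallyLE
    rw [intervalIntegral.integral_const_mul] at h5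
    have h6 := hGle (2 * T) (by linarith) (by linarith)
    have h7 : δ ^ 2 * (volume S).toReal ≤ C * (A * 4 * T ^ (1 - c)) := h5.trans (by gcongr)
    have h8 : (volume S).toReal ≤ T ^ (1 - c / 4) := by
      have h9 : C * (A * 4 * T ^ (1 - c)) ≤ δ ^ 2 * T ^ (1 - c / 4) := by
        calc C * (A * 4 * T ^ (1 - c)) = (C * (A * 4)) * T ^ (1 - c) := by ring
          _ ≤ (δ ^ 2 * T ^ (c / 2)) * T ^ (1 - c) := by gcongr
          _ = δ ^ 2 * (T ^ (1 - c) * T ^ (c / 2)) := by ring
          _ ≤ δ ^ 2 * T ^ (1 - c / 4) := by rw [hp1]; gcongr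
      exact le_of_mul_le_mul_left (h7.trans h9) (by positivity)
    rw [← ENNReal.ofReal_toReal hfin.ne]
    exact ENNReal.ofReal_le_ofReal h8
  · -- the zeros
    have hU : (1 : ℝ) ≤ T := by linarith
    set w : ℤ → ℝ := fun k => C * ∫ u in (k : ℝ)..(k + 1), g u with hw
    have hw0 : ∀ k, 0 ≤ w k := fun k => mul_nonneg hC.le
      (intervalIntegral.integral_nonneg (by linarith) fun u _ => hg0 u)
    have h5 := hloc T hT4 T (2 * T) le_rfl le_rfl 0 w hw0
      (fun s => if Bad a b B δ N s.im then δ ^ 2 else 0) (by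
        intro s hs
        split_ifs with hb
        · obtain ⟨z, hz, hzt⟩ := hb
          rw [sub_zero]
          have hk1 := Int.floor_le s.im
          have hk2 := Int.lt_floor_add_one s.im
          have h6 : ∀ u ∈ Icc ((⌊s.im⌋ : ℤ) : ℝ) (⌊s.im⌋ + 1), δ ^ 2 ≤ C * g u := by
            intro u hu
            have h7 := hpt N s.im u (by rw [abs_le]; constructor <;> linarith [hu.1, hu.2]) z hz
            refine le_trans ?_ h7
            gcongr
          have h8 : ∫ u in ((⌊s.im⌋ : ℤ) : ℝ)..(⌊s.im⌋ + 1), δ ^ 2 ≤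
              ∫ u in ((⌊s.im⌋ : ℤ) : ℝ)..(⌊s.im⌋ + 1), C * g u := by
            apply intervalIntegral.integral_mono_on (by linarith) (by simp) ((hint _ _).const_mul C)
            exact h6
          rw [intervalIntegral.integral_const, intervalIntegral.integral_const_mul] at h8
          simpa using h8
        · exact hw0 _)
    have h6 : ∑ s ∈ H370.Zf riemannZeta T (2 * T), (H370.mult riemannZeta s : ℝ) *
        (if Bad a b B δ N s.im then δ ^ 2 else 0) =
        δ ^ 2 * ∑ s ∈ (H370.Zf riemannZeta T (2 * T)).filter (fun s => Bad a b B δ N s.im), (H370.mult riemannZeta s : ℝ) := by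
      rw [Finset.sum_filter, Finset.mul_sum]
      apply Finset.sum_congr rfl
      intro s _
      split_ifs <;> ring
    rw [h6] at h5
    have hlog : 0 < Real.log T := Real.log_pos (by linarith)
    -- the sum of the integrals
    have h7 : ∑ k ∈ (H370.Zf riemannZeta T (2 * T)).image (fun s => ⌊s.im - 0⌋), w k ≤ C * (A * 4 * T ^ (1 - c)) := by
      set M : ℕ := ⌊2 * T⌋₊ + 1 with hM
      have hMle : (M : ℝ) ≤ 2 * T + 1 := by
        rw [hM]; push_cast
        have := Nat.floor_le (by linarith : 0 ≤ 2 * T)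
        linarith
      have hsub : (H370.Zf riemannZeta T (2 * T)).image (fun s => ⌊s.im - 0⌋) ⊆
          (Finset.range M).map ⟨(Nat.cast : ℕ → ℤ), Nat.cast_injective⟩ := by
        intro k hk
        rw [Finset.mem_image] at hk
        obtain ⟨s, hs, rfl⟩ := hk
        rw [H370.mem_Zf H370.good_zeta hU] at hs
        obtain ⟨_, _, hs3, hs4, _⟩ := hs
        rw [Finset.mem_map]
        refine ⟨⌊s.im⌋₊, ?_, ?_⟩
        · rw [Finset.mem_range, hM]
          exact Nat.lt_succ_of_le (Nat.floor_le_floor hs4)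
        · rw [sub_zero]
          simp only [Function.Embedding.coeFn_mk]
          exact Int.natCast_floor_eq_floor (by linarith)
      calc ∑ k ∈ (H370.Zf riemannZeta T (2 * T)).image (fun s => ⌊s.im - 0⌋), w k
          ≤ ∑ k ∈ (Finset.range M).map ⟨(Nat.cast : ℕ → ℤ), Nat.cast_injective⟩, w k :=
            Finset.sum_le_sum_of_subset_of_nonneg hsub fun k _ _ => hw0 k
        _ = ∑ n ∈ Finset.range M, w (n : ℤ) := by rw [Finset.sum_map]; rfl
        _ = C * ∑ n ∈ Finset.range M, ∫ u in (n : ℝ)..((n + 1 : ℕ) : ℝ), g u := by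
            rw [Finset.mul_sum]
            apply Finset.sum_congr rfl
            intro n _
            rw [hw]
            simp
        _ = C * ∫ u in ((0 : ℕ) : ℝ)..(M : ℝ), g u := by
            rw [intervalIntegral.sum_integral_adjacent_intervals (a := fun n : ℕ => (n : ℝ)) fun k _ => hint _ _]
        _ ≤ C * (A * 4 * T ^ (1 - c)) := by
            have := hGle M (Nat.cast_nonneg _) (by linarith)
            rw [Nat.cast_zero]
            gcongr
    have h8 : δ ^ 2 * ∑ s ∈ (H370.Zf riemannZeta T (2 * T)).filter (fun s => Bad a b B δ N s.im), (H370.mult riemannZeta s : ℝ) ≤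
        C2 * Real.log T * (C * (A * 4 * T ^ (1 - c))) := h5.trans (by gcongr)
    have h9 : C2 * Real.log T * (C * (A * 4 * T ^ (1 - c))) ≤ δ ^ 2 * T ^ (1 - c / 4) := by
      calc C2 * Real.log T * (C * (A * 4 * T ^ (1 - c))) = (C2 * (C * (A * 4))) * T ^ (1 - c) * Real.log T := by ring
        _ ≤ (δ ^ 2 * T ^ (c / 2)) * T ^ (1 - c) * T ^ (c / 4) := by gcongr
        _ = δ ^ 2 * ((T ^ (1 - c) * T ^ (c / 2)) * T ^ (c / 4)) := by ring
        _ = δ ^ 2 * T ^ (1 - c / 4) := by rw [hp1, hp2]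
    exact le_of_mul_le_mul_left (h8.trans h9) (by positivity)

end Pool.Agent.H510.EX
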