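import Pool.Agent.H510.EX.Ext
import Pool.Graph.R_pool_sql_team_seeded_3997aac3.Q97.UM.Base7

/-!
The two families of measures: the heights in `[T, 2T]` and the isolated simple zeros.
-/

set_option autoImplicit false

open Complex Filter Topology MeasureTheory
open scoped ENNReal
open Pool.Agent.Q97.UM (dp N2 cv prc EP ZI mz zt)

namespace Pool.Agent.H510.EX

open Pool.Agent.H510.UZ Pool.Agent.H510.PC

/-- the heights -/
noncomputable def nuL (T : ℝ) : Measure ℝ := volume.restrict (Set.Icc T (2 * T))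

theorem lint_L (f : ℝ → ℝ) (hf : Continuous f) (h0 : ∀ t, 0 ≤ f t) {T : ℝ} (hT : 0 ≤ T) :
    ∫⁻ t, ENNReal.ofReal (f t) ∂(nuL T) = ENNReal.ofReal (∫ t in T..(2 * T), f t) := by
  unfold nuL
  rw [intervalIntegral.integral_of_le (by linarith), ← integral_Icc_eq_integral_Ioc]
  rw [ofReal_integral_eq_lintegral_ofReal hf.continuousOn.integrableOn_Icc (Filter.Eventually.of_forall h0)]

theorem SF_L : SF nuL (fun T => 2 * T) where
  fin T := by
    unfold nuL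
    infer_instance
  big := by
    filter_upwards [eventually_ge_atTop 0] with T hT
    linarith
  up := by
    refine ⟨1 / 4, by norm_num, ?_⟩
    filter_upwards [eventually_ge_atTop 16] with T hT M hM b
    rw [lint_L (fun t => ‖dp M b t‖ ^ 2) ((dp_cont M b).norm.pow 2) (fun t => by positivity) (by linarith)]
    exact ENNReal.ofReal_le_ofReal (Pool.Agent.Q84.UM.t_MVL T hT M hM b).2
  low := by
    refine ⟨1 / 4, 1 / 4, by norm_num, by norm_num, by norm_num, ?_⟩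
    filter_upwards [eventually_ge_atTop 16] with T hT M hM b
    rw [lint_L (fun t => ‖dp M b t‖ ^ 2) ((dp_cont M b).norm.pow 2) (fun t => by positivity) (by linarith)]
    refine ENNReal.ofReal_le_ofReal (le_trans (le_of_eq ?_) (Pool.Agent.Q84.UM.t_MVL T hT M hM b).1)
    ring
  few := by
    intro a b B h1 h2 h3 hB η hη hη1
    obtain ⟨c, hc, hc1, h⟩ := few2 a b B h1 h2 h3 hB η hη hη1
    refine ⟨c, hc, fun δ hδ => ?_⟩
    filter_upwards [h δ hδ, eventually_ge_atTop 1] with T hT hT1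
    unfold nuL
    rw [Measure.restrict_apply' measurableSet_Icc]
    refine le_trans (measure_mono ?_) (hT.1.trans (ENNReal.ofReal_le_ofReal ?_))
    · rintro t ⟨ht1, ht2⟩
      exact ⟨ht2, ht1⟩
    · have h5 : T ^ (1 - c) = T ^ (-c) * T := by
        rw [show (1 : ℝ) - c = -c + 1 by ring, Real.rpow_add (by linarith), Real.rpow_one]
      rw [h5]
      have : 0 ≤ T ^ (-c) * T := by positivity
      linarith

theorem zt_cont : Continuous zt := by
  unfold zt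
  rw [continuous_iff_continuousAt]
  intro t
  have h1 : ((1 / 2 : ℂ) + t * I) ≠ 1 := by
    intro h
    have h2 := congrArg Complex.re h
    simp at h2
  have h4 : ContinuousAt riemannZeta ((1 / 2 : ℂ) + t * I) := (differentiableAt_riemannZeta h1).continuousAt
  exact ContinuousAt.comp (f := fun t : ℝ => (1 / 2 : ℂ) + t * I) h4 (by fun_prop)

theorem U_L_meas : Measurable fun t : ℝ => Real.log ‖zt t‖ := Real.measurable_log.comp zt_cont.norm.measurable

theorem ev_L : ∃ θ₃ δ₀ : ℝ, 0 < θ₃ ∧ 0 < δ₀ ∧ ∀ δ : ℝ, 0 < δ → δ ≤ δ₀ → ∃ C₁ : ℝ, 0 ≤ C₁ ∧ ∀ᶠ T : ℝ in atTop,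
      ∀ N : ℕ, (N : ℝ) ≤ T ^ θ₃ → ∀ r : ℕ → ℂ,
        ∫⁻ t, ENNReal.ofReal |Real.log ‖zt t‖ - 0 - EP ⌊T ^ δ⌋₊ t| * ENNReal.ofReal (‖dp N r t‖ ^ 2) ∂(nuL T) ≤
          ENNReal.ofReal (C₁ * ((fun T => 2 * T) T * N2 N r)) := by
  obtain ⟨θ, δ₀, hθ, hδ₀, h⟩ := Pool.Agent.Q97.UM.b_THP 1
  refine ⟨θ, δ₀, hθ, hδ₀, fun δ hδ hδ1 => ?_⟩
  obtain ⟨C, hC, h⟩ := h δ hδ hδ1
  refine ⟨C, hC, ?_⟩
  filter_upwards [h, eventually_ge_atTop 1] with T h hT N hN r
  obtain ⟨h1, h2⟩ := h N hN r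
  simp only [pow_one] at h1 h2
  have h3 : ∀ t, ENNReal.ofReal |Real.log ‖zt t‖ - 0 - EP ⌊T ^ δ⌋₊ t| * ENNReal.ofReal (‖dp N r t‖ ^ 2) =
      ENNReal.ofReal (|Real.log ‖zt t‖ - EP ⌊T ^ δ⌋₊ t| * ‖dp N r t‖ ^ 2) := by
    intro t
    rw [sub_zero, ENNReal.ofReal_mul (abs_nonneg _)]
  rw [lintegral_congr h3]
  unfold nuL
  have hN2 : 0 ≤ N2 N r := by unfold N2; positivity
  have h4 : T / 2 ≤ 4 * T := by linarith
  calc ∫⁻ t in Set.Icc T (2 * T), ENNReal.ofReal (|Real.log ‖zt t‖ - EP ⌊T ^ δ⌋₊ t| * ‖dp N r t‖ ^ 2)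
      ≤ ∫⁻ t in Set.Ioc (T / 2) (4 * T), ENNReal.ofReal (|Real.log ‖zt t‖ - EP ⌊T ^ δ⌋₊ t| * ‖dp N r t‖ ^ 2) := by
        apply lintegral_mono_set
        intro t ht
        exact ⟨by linarith [ht.1], by linarith [ht.2]⟩
    _ = ENNReal.ofReal (∫ t in (T / 2)..(4 * T), |Real.log ‖zt t‖ - EP ⌊T ^ δ⌋₊ t| * ‖dp N r t‖ ^ 2) := by
        rw [intervalIntegral.integral_of_le h4, ofReal_integral_eq_lintegral_ofReal]
        · exact (intervalIntegrable_iff_integrableOn_Ioc_of_le h4).1 h1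
        · exact Filter.Eventually.of_forall fun t => by positivity
    _ ≤ ENNReal.ofReal (C * (2 * T * N2 N r)) := by
        apply ENNReal.ofReal_le_ofReal
        refine h2.trans ?_
        have : 0 ≤ C * T * N2 N r := by positivity
        linarith

/-- the isolated simple zeros -/
noncomputable def nuZ (d T : ℝ) : Measure ℝ := ∑ s ∈ ZI d T, Measure.dirac s.im

theorem lint_Z (f : ℝ → ℝ) (h0 : ∀ t, 0 ≤ f t) (d T : ℝ) :
    ∫⁻ t, ENNReal.ofReal (f t) ∂(nuZ d T) = ENNReal.ofReal (∑ s ∈ ZI d T, f s.im) := by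
  unfold nuZ
  rw [lintegral_finsetSum_measure, ENNReal.ofReal_sum_of_nonneg (fun s _ => h0 _)]
  apply Finset.sum_congr rfl
  intro s _
  rw [lintegral_dirac]

open Classical in
theorem nuZ_apply (d T : ℝ) (S : Set ℝ) : nuZ d T S = (((ZI d T).filter fun s => s.im ∈ S).card : ℝ≥0∞) := by
  unfold nuZ
  rw [Measure.finsetSum_apply, Finset.card_filter]
  push_cast
  apply Finset.sum_congr rfl
  intro s _
  rw [Measure.dirac_apply]
  by_cases h : s.im ∈ S
  · rw [Set.indicator_of_mem h, if_pos h]; rfl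
  · rw [Set.indicator_of_notMem h, if_neg h]

theorem SF_Z : ∃ d : ℝ, 0 < d ∧ d ≤ 1 ∧ SF (nuZ d) (fun T => 2 * (Real.log T * T)) := by
  classical
  obtain ⟨d, θ₁, hd, hd1, hθ₁, -, hSI⟩ := Pool.Agent.Q97.UM.b_SAMPI (1 / 10) (by norm_num)
  obtain ⟨θ₂, hθ₂, -, hS⟩ := Pool.Agent.Q97.UM.b_SAMP 1 one_pos
  refine ⟨d, hd, hd1, ?_⟩
  constructor
  · intro T
    unfold nuZ
    infer_instance
  · filter_upwards [eventually_ge_atTop 16] with T hT
    have : 1 ≤ Real.log T := by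
      rw [Real.le_log_iff_exp_le (by linarith)]
      have := Real.exp_one_lt_d9
      linarith
    nlinarith
  · refine ⟨θ₂, hθ₂, ?_⟩
    filter_upwards [hS, eventually_ge_atTop 16] with T hS hT M hM b
    rw [lint_Z _ (fun t => by positivity)]
    apply ENNReal.ofReal_le_ofReal
    have h1 := Pool.Agent.Q98.UM.samp_upper (by linarith) (Real.log_nonneg (by linarith)) ((hS M hM b).2.2) d
    refine h1.trans (le_of_eq ?_)
    ring
  · refine ⟨θ₁, 1 / 40, hθ₁, by norm_num, by norm_num, ?_⟩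
    filter_upwards [hSI, eventually_ge_atTop 16] with T hSI hT M hM b
    rw [lint_Z _ (fun t => by positivity)]
    apply ENNReal.ofReal_le_ofReal
    have h1 := Pool.Agent.Q98.UM.samp_lower (by linarith) (Real.log_nonneg (by linarith)) (hSI M hM b)
    refine le_trans (le_of_eq ?_) h1
    ring
  · intro a b B h1 h2 h3 hB η hη hη1
    obtain ⟨c, hc, hc1, h⟩ := few2 a b B h1 h2 h3 hB η hη hη1
    refine ⟨c, hc, fun δ hδ => ?_⟩
    filter_upwards [h δ hδ, eventually_ge_atTop 16] with T hT hT1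
    have hL : 1 ≤ Real.log T := by
      rw [Real.le_log_iff_exp_le (by linarith)]
      have := Real.exp_one_lt_d9
      linarith
    rw [nuZ_apply, ← ENNReal.ofReal_natCast]
    apply ENNReal.ofReal_le_ofReal
    have h5 : T ^ (1 - c) = T ^ (-c) * T := by
      rw [show (1 : ℝ) - c = -c + 1 by ring, Real.rpow_add (by linarith), Real.rpow_one]
    have h6 : (((ZI d T).filter fun s => s.im ∈ {t | Bad a b B δ ⌊T ^ η⌋₊ t}).card : ℝ) ≤ T ^ (1 - c) := by
      refine le_trans ?_ hT.2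
      rw [Finset.card_eq_sum_ones]
      push_cast
      have h7 : ∀ s ∈ (ZI d T).filter (fun s => s.im ∈ {t | Bad a b B δ ⌊T ^ η⌋₊ t}), (1 : ℝ) ≤ (H370.mult riemannZeta s : ℝ) := by
        intro s hs
        have h8 := (Pool.Agent.Q98.UM.mem_ZI (Finset.mem_filter.1 hs).1).2.2
        have h9 : H370.mult riemannZeta s = mz s := rfl
        rw [h9, h8]
        simp
      refine (Finset.sum_le_sum h7).trans ?_
      apply Finset.sum_le_sum_of_subset_of_nonneg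
      · intro s hs
        rw [Finset.mem_filter] at hs ⊢
        exact ⟨(Pool.Agent.Q98.UM.mem_ZI hs.1).1, hs.2⟩
      · intro _ _ _
        exact Nat.cast_nonneg _
    refine h6.trans ?_
    rw [h5]
    have h10 : 0 ≤ T ^ (-c) := by positivity
    have h11 : T ≤ 2 * (Real.log T * T) := by nlinarith
    gcongr

theorem U_Z_meas : Measurable fun t : ℝ => Real.log ‖deriv riemannZeta (1 / 2 + t * I)‖ := by
  have h1 : Measurable (deriv riemannZeta) := measurable_deriv _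
  have h2 : Measurable fun t : ℝ => (1 / 2 : ℂ) + t * I := by fun_prop
  exact Real.measurable_log.comp (h1.comp h2).norm

theorem ev_Z (d : ℝ) (hd : 0 < d) : ∃ θ₃ δ₀ : ℝ, 0 < θ₃ ∧ 0 < δ₀ ∧ ∀ δ : ℝ, 0 < δ → δ ≤ δ₀ → ∃ C₁ : ℝ, 0 ≤ C₁ ∧ ∀ᶠ T : ℝ in atTop,
      ∀ N : ℕ, (N : ℝ) ≤ T ^ θ₃ → ∀ r : ℕ → ℂ,
        ∫⁻ t, ENNReal.ofReal |Real.log ‖deriv riemannZeta (1 / 2 + t * I)‖ - Real.log (Real.log T) - EP ⌊T ^ δ⌋₊ t| *
          ENNReal.ofReal (‖dp N r t‖ ^ 2) ∂(nuZ d T) ≤ ENNReal.ofReal (C₁ * ((fun T => 2 * (Real.log T * T)) T * N2 N r)) := by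
  obtain ⟨θ, δ₀, hθ, hδ₀, h⟩ := Pool.Agent.Q97.UM.b_THD 1
  refine ⟨θ, δ₀, hθ, hδ₀, fun δ hδ hδ1 => ?_⟩
  obtain ⟨C, hC, h⟩ := h δ d hδ hδ1 hd
  refine ⟨C, hC, ?_⟩
  filter_upwards [h, eventually_ge_atTop 1] with T h hT N hN r
  have h1 := (h N hN r).1
  simp only [pow_one] at h1
  have h3 : ∀ t : ℝ, ENNReal.ofReal |Real.log ‖deriv riemannZeta (1 / 2 + t * I)‖ - Real.log (Real.log T) - EP ⌊T ^ δ⌋₊ t| *
      ENNReal.ofReal (‖dp N r t‖ ^ 2) =
      ENNReal.ofReal (|Real.log ‖deriv riemannZeta (1 / 2 + t * I)‖ - Real.log (Real.log T) - EP ⌊T ^ δ⌋₊ t| * ‖dp N r t‖ ^ 2) := by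
    intro t
    rw [ENNReal.ofReal_mul (abs_nonneg _)]
  rw [lintegral_congr h3, lint_Z _ (fun t => by positivity)]
  apply ENNReal.ofReal_le_ofReal
  have hN2 : 0 ≤ N2 N r := by unfold N2; positivity
  have h4 : ∀ s ∈ ZI d T, |Real.log ‖deriv riemannZeta (1 / 2 + s.im * I)‖ - Real.log (Real.log T) - EP ⌊T ^ δ⌋₊ s.im| *
      ‖dp N r s.im‖ ^ 2 = |Real.log ‖deriv riemannZeta s‖ - Real.log (Real.log T) - EP ⌊T ^ δ⌋₊ s.im| * ‖dp N r s.im‖ ^ 2 := by
    intro s hs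
    have h5 : (1 / 2 : ℂ) + s.im * I = s := by
      apply Complex.ext
      · simp [(Pool.Agent.Q98.UM.mem_ZI hs).2.1]
      · simp
    rw [h5]
  rw [Finset.sum_congr rfl h4]
  refine h1.trans ?_
  have hL : 0 ≤ Real.log T := Real.log_nonneg hT
  have : 0 ≤ C * Real.log T * (T * N2 N r) := by positivity
  nlinarith

end Pool.Agent.H510.EX
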