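import Pool.Agent.H510.UZ.Ms

/-!
The mean square of `ζ - ∑_{n ≤ T^η} n^{-s}` to the right of the critical line, with a power of `T` saved.
-/

set_option autoImplicit false

open Complex Filter Topology Set MeasureTheory ZU

namespace Pool.Agent.H510.EX

open Pool.Agent.H510.UZ

theorem ev_pow (K p q : ℝ) (hpq : p < q) : ∀ᶠ T : ℝ in atTop, K * T ^ p ≤ 1 / 8 * T ^ q := by
  have h : ∀ᶠ T : ℝ in atTop, 8 * |K| ≤ T ^ (q - p) := (tendsto_rpow_atTop (by linarith)).eventually_ge_atTop _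
  filter_upwards [h, eventually_gt_atTop 0] with T hT hT0
  have h1 : T ^ q = T ^ (q - p) * T ^ p := by rw [← Real.rpow_add hT0]; congr 1; ring
  have h2 : 0 < T ^ p := Real.rpow_pos_of_pos hT0 _
  have h3 : K * T ^ p ≤ |K| * T ^ p := mul_le_mul_of_nonneg_right (le_abs_self K) h2.le
  rw [h1]
  nlinarith [mul_le_mul_of_nonneg_right hT h2.le]

/-- tails of `∑ n^{-2σ}` -/
theorem tail_sum (σ1 : ℝ) (h1 : 1 / 2 < σ1) : ∃ C : ℝ, 0 < C ∧ ∀ N L : ℕ, 1 ≤ N → ∀ σ : ℝ, σ1 ≤ σ →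
    ∑ n ∈ Finset.Ioc N L, (n : ℝ) ^ (-(2 * σ)) ≤ C * (N : ℝ) ^ (-((2 * σ1 - 1) / 2)) := by
  have hs : Summable fun n : ℕ => (n : ℝ) ^ (-(1 + (2 * σ1 - 1) / 2)) := Real.summable_nat_rpow.2 (by linarith)
  refine ⟨∑' n : ℕ, (n : ℝ) ^ (-(1 + (2 * σ1 - 1) / 2)) + 1, ?_, ?_⟩
  · have : 0 ≤ ∑' n : ℕ, (n : ℝ) ^ (-(1 + (2 * σ1 - 1) / 2)) := tsum_nonneg fun n => Real.rpow_nonneg (Nat.cast_nonneg n) _
    linarith
  intro N L hN σ hσ
  have hN0 : (0 : ℝ) < N := by exact_mod_cast (by omega : 0 < N)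
  have hN1 : (1 : ℝ) ≤ N := by exact_mod_cast hN
  have hd : 0 ≤ (2 * σ1 - 1) / 2 := by linarith
  have e1 : ∀ n ∈ Finset.Ioc N L, (n : ℝ) ^ (-(2 * σ)) ≤
      (n : ℝ) ^ (-(1 + (2 * σ1 - 1) / 2)) * (N : ℝ) ^ (-((2 * σ1 - 1) / 2)) := by
    intro n hn
    have hnN : (N : ℝ) ≤ n := by exact_mod_cast (Finset.mem_Ioc.1 hn).1.le
    have hn1 : (1 : ℝ) ≤ n := hN1.trans hnN
    have hn0 : (0 : ℝ) < n := by linarith
    calc (n : ℝ) ^ (-(2 * σ)) ≤ (n : ℝ) ^ (-(1 + (2 * σ1 - 1) / 2) + (-((2 * σ1 - 1) / 2))) :=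
          Real.rpow_le_rpow_of_exponent_le hn1 (by linarith)
      _ = (n : ℝ) ^ (-(1 + (2 * σ1 - 1) / 2)) * (n : ℝ) ^ (-((2 * σ1 - 1) / 2)) := Real.rpow_add hn0 _ _
      _ ≤ _ := by
          apply mul_le_mul_of_nonneg_left _ (Real.rpow_nonneg hn0.le _)
          exact Real.rpow_le_rpow_of_nonpos hN0 hnN (by linarith)
  refine (Finset.sum_le_sum e1).trans ?_
  rw [← Finset.sum_mul]
  have h2 : ∑ n ∈ Finset.Ioc N L, (n : ℝ) ^ (-(1 + (2 * σ1 - 1) / 2)) ≤ ∑' n : ℕ, (n : ℝ) ^ (-(1 + (2 * σ1 - 1) / 2)) :=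
    hs.sum_le_tsum _ fun n _ => Real.rpow_nonneg (Nat.cast_nonneg n) _
  have h3 : 0 ≤ (N : ℝ) ^ (-((2 * σ1 - 1) / 2)) := Real.rpow_nonneg hN0.le _
  exact mul_le_mul_of_nonneg_right (by linarith) h3

/-- the mean square on vertical lines, with a power saved -/
theorem rate (σ1 σ2 : ℝ) (h1 : 1 / 2 < σ1) (h2 : σ1 ≤ σ2) (h3 : σ2 < 1) (B : ℝ) (hB : 0 < B) (η : ℝ) (hη : 0 < η)
    (hη1 : η ≤ 1 / 2) : ∃ c : ℝ, 0 < c ∧ c ≤ 1 ∧ ∀ᶠ T : ℝ in atTop, ∀ N : ℕ, T ^ η / 2 ≤ N → (N : ℝ) ≤ T ^ (1 / 2 : ℝ) →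
      ∀ σ ∈ Icc σ1 σ2, ∫ t in (-B)..(T + B), ‖riemannZeta ((σ : ℂ) + t * I) - DN N ((σ : ℂ) + t * I)‖ ^ 2 ≤ T ^ (1 - c) := by
  have hσ1 : 0 < σ1 := by linarith
  obtain ⟨κ, hκa, hκb⟩ : ∃ κ, 1/(2*σ1) < κ ∧ κ < 1 :=
    exists_between (by rw [div_lt_one (by linarith)]; linarith)
  have hκ0 : 0 < κ := lt_trans (by positivity) hκa
  have hκ1 : 1 < 2*κ*σ1 := by
    have := (div_lt_iff₀ (by positivity : 0 < 2*σ1)).1 hκa
    linarith
  have hκ2 : 1 / 2 < κ := by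
    refine lt_of_le_of_lt ?_ hκa
    rw [div_le_div_iff₀ (by norm_num) (by positivity)]
    linarith
  obtain ⟨C, hC, htail⟩ := tail_sum σ1 h1
  obtain ⟨δ0, hδ0⟩ : ∃ x : ℝ, x = (2 * σ1 - 1) / 2 := ⟨_, rfl⟩
  have hδ0p : 0 < δ0 := by rw [hδ0]; linarith
  obtain ⟨c, hc⟩ : ∃ c : ℝ, c = min (min (η * δ0) (1 - κ * (2 - 2 * σ1))) (min (2 * κ * σ1 - 1) 1) / 2 := ⟨_, rfl⟩
  have hm1 : 0 < η * δ0 := by positivity
  have hm2 : 0 < 1 - κ * (2 - 2 * σ1) := by nlinarith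
  have hm3 : 0 < 2 * κ * σ1 - 1 := by linarith
  have hc0 : 0 < c := by
    rw [hc]
    have : 0 < min (min (η * δ0) (1 - κ * (2 - 2 * σ1))) (min (2 * κ * σ1 - 1) 1) :=
      lt_min (lt_min hm1 hm2) (lt_min hm3 one_pos)
    linarith
  have c1 : c < η * δ0 := by
    have := (min_le_left (min (η * δ0) (1 - κ * (2 - 2 * σ1))) (min (2 * κ * σ1 - 1) 1)).trans (min_le_left _ _)
    linarith
  have c2 : c < 1 - κ * (2 - 2 * σ1) := by
    have := (min_le_left (min (η * δ0) (1 - κ * (2 - 2 * σ1))) (min (2 * κ * σ1 - 1) 1)).trans (min_le_right _ _)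
    linarith
  have c3 : c < 2 * κ * σ1 - 1 := by
    have := (min_le_right (min (η * δ0) (1 - κ * (2 - 2 * σ1))) (min (2 * κ * σ1 - 1) 1)).trans (min_le_left _ _)
    linarith
  have c4 : c < 1 := by
    have := (min_le_right (min (η * δ0) (1 - κ * (2 - 2 * σ1))) (min (2 * κ * σ1 - 1) 1)).trans (min_le_right _ _)
    linarith
  refine ⟨c, hc0, c4.le, ?_⟩
  have hpi := Real.pi_pos
  have e1 := ev_pow (3 * Real.exp 4 * (√Real.pi * (C * 2 ^ δ0))) (1 - η * δ0) (1 - c) (by linarith)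
  have e2 := ev_pow (3 * Real.pi / (1 - σ2) ^ 2) (κ * (2 - 2 * σ1)) (1 - c) (by linarith)
  have e3 := ev_pow (120 * Real.pi * Real.exp 4) (2 - 2 * κ * σ1) (1 - c) (by linarith)
  have e5 : ∀ᶠ T : ℝ in atTop, (4 : ℝ) ≤ T ^ η := (tendsto_rpow_atTop hη).eventually_ge_atTop _
  have e6 : ∀ᶠ T : ℝ in atTop, (1 : ℝ) ≤ T ^ (1 - c) := (tendsto_rpow_atTop (by linarith)).eventually_ge_atTop _
  have e8 : ∀ᶠ T : ℝ in atTop, T * (3 * Real.exp 4 * √Real.pi * (T ^ (2 : ℝ) * Real.exp (-(1 / 4) * T ^ (2 - 2 * κ)))) ≤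
      1 / 8 * T ^ (1 - c) := by
    have h9 : Tendsto (fun x : ℝ => x ^ ((2 + c) / (2 - 2 * κ)) * Real.exp (-(1 / 4) * x)) atTop (𝓝 0) :=
      tendsto_rpow_mul_exp_neg_mul_atTop_nhds_zero _ _ (by norm_num)
    have h10 : Tendsto (fun T : ℝ => T ^ (2 - 2 * κ)) atTop atTop := tendsto_rpow_atTop (by linarith)
    have h11 := (h9.comp h10).eventually (ge_mem_nhds (show (0 : ℝ) < 1 / (8 * (3 * Real.exp 4 * √Real.pi)) by positivity))
    filter_upwards [h11, eventually_gt_atTop 0] with T hT hT0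
    simp only [Function.comp] at hT
    have h12 : (T ^ (2 - 2 * κ)) ^ ((2 + c) / (2 - 2 * κ)) = T ^ (2 + c) := by
      rw [← Real.rpow_mul hT0.le]
      congr 1
      have : 2 - 2 * κ ≠ 0 := by linarith
      rw [mul_comm, div_mul_cancel₀ _ this]
    rw [h12] at hT
    have h13 : T ^ (2 + c) = T * T ^ (2 : ℝ) / T ^ (1 - c) := by
      rw [eq_div_iff (Real.rpow_pos_of_pos hT0 _).ne', ← Real.rpow_add hT0]
      have : T * T ^ (2 : ℝ) = T ^ (3 : ℝ) := by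
        nth_rw 1 [← Real.rpow_one T]
        rw [← Real.rpow_add hT0]
        norm_num
      rw [this]
      congr 1
      ring
    rw [h13] at hT
    have hp := Real.rpow_pos_of_pos hT0 (1 - c)
    have h14 : T * T ^ (2 : ℝ) * Real.exp (-(1 / 4) * T ^ (2 - 2 * κ)) ≤
        1 / (8 * (3 * Real.exp 4 * √Real.pi)) * T ^ (1 - c) := by
      calc T * T ^ (2 : ℝ) * Real.exp (-(1 / 4) * T ^ (2 - 2 * κ)) =
          (T * T ^ (2 : ℝ) / T ^ (1 - c) * Real.exp (-(1 / 4) * T ^ (2 - 2 * κ))) * T ^ (1 - c) := by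
            field_simp
        _ ≤ _ := mul_le_mul_of_nonneg_right hT hp.le
    have hK : 0 < 3 * Real.exp 4 * √Real.pi := by positivity
    calc T * (3 * Real.exp 4 * √Real.pi * (T ^ (2 : ℝ) * Real.exp (-(1 / 4) * T ^ (2 - 2 * κ)))) =
        (3 * Real.exp 4 * √Real.pi) * (T * T ^ (2 : ℝ) * Real.exp (-(1 / 4) * T ^ (2 - 2 * κ))) := by ring
      _ ≤ (3 * Real.exp 4 * √Real.pi) * (1 / (8 * (3 * Real.exp 4 * √Real.pi)) * T ^ (1 - c)) := by gcongr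
      _ = 1 / 8 * T ^ (1 - c) := by field_simp
  filter_upwards [e1, e2, e3, e8, e5, e6, eventually_ge_atTop (max 1 B)] with T g1 g2 g3 g4 g5 g6 hT
  intro N hNge hNle σ hσ
  have hT1' : 1 ≤ T := (le_max_left _ _).trans hT
  have hBT : B ≤ T := (le_max_right _ _).trans hT
  have hT0 : 0 < T := by linarith
  set L := ⌊T^κ⌋₊ with hLdef
  have hTk : 0 < T ^ κ := Real.rpow_pos_of_pos hT0 _
  have hηκ : T ^ (1 / 2 : ℝ) ≤ T ^ κ := Real.rpow_le_rpow_of_exponent_le hT1' (by linarith)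
  have hLle : (L:ℝ) ≤ T^κ := Nat.floor_le hTk.le
  have hNL : N ≤ L := Nat.le_floor (hNle.trans hηκ)
  have hN4 : 1 ≤ N := by
    have h5 : (1 : ℝ) ≤ N := by linarith
    exact_mod_cast h5
  have hL1 : (1:ℝ) ≤ (L:ℝ) := by
    have : 1 ≤ L := by omega
    exact_mod_cast this
  have hLge : T^κ/2 ≤ L := by
    have h5 := Nat.lt_floor_add_one (T^κ)
    rw [← hLdef] at h5
    linarith
  have hL0 : (0:ℝ) < L := by linarith
  obtain ⟨hσa, hσb⟩ := hσ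
  have hσ00 : 0 < σ := by linarith
  have hmain := ZU.J_a4.zm_bound σ1 σ2 σ B T N L hNL (by omega) h1 ⟨hσa, hσb⟩ h3 hB hT1' hBT
  refine hmain.trans ?_
  -- first term
  have s1 : T * ∑ n ∈ Finset.Ioc N L, (n : ℝ) ^ (-(2 * σ)) ≤ (C * 2 ^ δ0) * T ^ (1 - η * δ0) := by
    have h5 := htail N L (by omega) σ hσa
    rw [← hδ0] at h5
    have h6 : (N : ℝ) ^ (-δ0) ≤ 2 ^ δ0 * T ^ (-(η * δ0)) := by
      calc (N : ℝ) ^ (-δ0) ≤ (T ^ η / 2) ^ (-δ0) :=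
            Real.rpow_le_rpow_of_nonpos (by positivity) hNge (by linarith)
        _ = 2 ^ δ0 * T ^ (-(η * δ0)) := by
            rw [Real.div_rpow (by positivity) (by norm_num), ← Real.rpow_mul hT0.le, div_eq_mul_inv,
              ← Real.rpow_neg (by norm_num), neg_neg, mul_comm]
            congr 2
            ring
    calc T * ∑ n ∈ Finset.Ioc N L, (n : ℝ) ^ (-(2 * σ)) ≤ T * (C * (2 ^ δ0 * T ^ (-(η * δ0)))) := by
          gcongr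
          exact h5.trans (by gcongr)
      _ = (C * 2 ^ δ0) * (T * T ^ (-(η * δ0))) := by ring
      _ = (C * 2 ^ δ0) * T ^ (1 - η * δ0) := by
          congr 1
          nth_rw 1 [← Real.rpow_one T]
          rw [← Real.rpow_add hT0]
          congr 1
  have s2 : T * ((L : ℝ) ^ 2 * Real.exp (-(T ^ 2 / (4 * (L : ℝ) ^ 2)))) ≤
      T * (T ^ (2 : ℝ) * Real.exp (-(1 / 4) * T ^ (2 - 2 * κ))) := by
    have q1 : (L:ℝ)^2 ≤ T^(2:ℝ) := by
      have : (L:ℝ) ≤ T := hLle.trans (by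
        calc T^κ ≤ T^(1:ℝ) := Real.rpow_le_rpow_of_exponent_le hT1' hκb.le
          _ = T := Real.rpow_one T)
      rw [Real.rpow_two]
      exact pow_le_pow_left₀ hL0.le this 2
    have q2 : (L:ℝ)^2 ≤ T^(2*κ) := by
      have h5 : T^(2*κ) = (T^κ)^2 := by
        rw [← Real.rpow_natCast (T^κ) 2, ← Real.rpow_mul hT0.le]
        congr 1
        push_cast
        ring
      rw [h5]
      exact pow_le_pow_left₀ hL0.le hLle 2
    have q3 : (1/4) * T ^ (2 - 2*κ) ≤ T ^ 2 / (4 * (L : ℝ) ^ 2) := by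
      rw [Real.rpow_sub hT0, Real.rpow_two]
      have h6 : T^2 / T^(2*κ) ≤ T^2/(L:ℝ)^2 :=
        div_le_div_of_nonneg_left (by positivity) (by positivity) q2
      calc (1/4) * (T^2 / T^(2*κ)) ≤ (1/4) * (T^2/(L:ℝ)^2) := by linarith
        _ = T ^ 2 / (4 * (L : ℝ) ^ 2) := by
          field_simp
    have q4 : Real.exp (-(T ^ 2 / (4 * (L : ℝ) ^ 2))) ≤ Real.exp (-(1/4) * T ^ (2 - 2*κ)) := by
      apply Real.exp_le_exp.2
      linarith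
    gcongr
  -- second term
  have s3 : 3 * (((L : ℝ) ^ (1 - σ)) ^ 2 / (1 - σ2) ^ 2) * Real.pi ≤ 1 / 8 * T ^ (1 - c) := by
    refine le_trans ?_ g2
    have q1 : ((L : ℝ) ^ (1 - σ)) ^ 2 ≤ T ^ (κ*(2-2*σ1)) := by
      have h5 : ((L : ℝ) ^ (1 - σ)) ^ 2 = (L:ℝ)^(2 - 2*σ) := by
        rw [← Real.rpow_natCast ((L:ℝ)^(1-σ)) 2, ← Real.rpow_mul hL0.le]
        congr 1
        push_cast
        ring
      rw [h5, Real.rpow_mul hT0.le]
      calc (L:ℝ)^(2 - 2*σ) ≤ (L:ℝ)^(2 - 2*σ1) := Real.rpow_le_rpow_of_exponent_le hL1 (by linarith)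
        _ ≤ (T ^ κ) ^ (2 - 2 * σ1) := Real.rpow_le_rpow hL0.le hLle (by linarith)
    have q2 : 0 < (1 - σ2) ^ 2 := by
      have : 0 < 1 - σ2 := by linarith
      positivity
    calc 3 * (((L : ℝ) ^ (1 - σ)) ^ 2 / (1 - σ2) ^ 2) * Real.pi = 3 * Real.pi / (1 - σ2) ^ 2 * ((L : ℝ) ^ (1 - σ)) ^ 2 := by
          ring
      _ ≤ _ := by gcongr
  have s4 : 3 * Real.exp 4 * (1 + 4 * T ^ 2) * (2 * Real.pi * ((L : ℝ) ^ (-(2 * σ)) / (2 * σ))) ≤ 1 / 8 * T ^ (1 - c) := by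
    refine le_trans ?_ g3
    have q1 : (L : ℝ) ^ (-(2 * σ)) ≤ 4 * T ^ (-(2 * κ * σ1)) := by
      calc (L : ℝ) ^ (-(2 * σ)) ≤ (L : ℝ) ^ (-(2 * σ1)) := Real.rpow_le_rpow_of_exponent_le hL1 (by linarith)
        _ ≤ (T ^ κ / 2) ^ (-(2 * σ1)) := Real.rpow_le_rpow_of_nonpos (by positivity) hLge (by linarith)
        _ = T ^ (-(2 * κ * σ1)) * 2 ^ (2 * σ1) := by
            rw [Real.div_rpow (by positivity) (by norm_num), ← Real.rpow_mul hT0.le, div_eq_mul_inv,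
              ← Real.rpow_neg (by norm_num), neg_neg]
            congr 2
            ring
        _ ≤ T ^ (-(2 * κ * σ1)) * 4 := by
            gcongr
            calc (2 : ℝ) ^ (2 * σ1) ≤ 2 ^ (2 : ℝ) := Real.rpow_le_rpow_of_exponent_le (by norm_num) (by linarith)
              _ = 4 := by norm_num
        _ = _ := by ring
    have q2 : (L : ℝ) ^ (-(2 * σ)) / (2 * σ) ≤ 4 * T ^ (-(2 * κ * σ1)) := by
      have : 1 ≤ 2 * σ := by linarith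
      exact (div_le_self (by positivity) this).trans q1
    have q3 : 1 + 4 * T ^ 2 ≤ 5 * T ^ 2 := by nlinarith
    have q4 : T ^ 2 * T ^ (-(2 * κ * σ1)) = T ^ (2 - 2 * κ * σ1) := by
      rw [← Real.rpow_two, ← Real.rpow_add hT0]
      congr 1
    calc 3 * Real.exp 4 * (1 + 4 * T ^ 2) * (2 * Real.pi * ((L : ℝ) ^ (-(2 * σ)) / (2 * σ))) ≤
        3 * Real.exp 4 * (5 * T ^ 2) * (2 * Real.pi * (4 * T ^ (-(2 * κ * σ1)))) := by gcongr
      _ = 120 * Real.pi * Real.exp 4 * (T ^ 2 * T ^ (-(2 * κ * σ1))) := by ring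
      _ = _ := by rw [q4]
  have s5 : 3 * Real.exp 4 * (√Real.pi * T * (∑ n ∈ Finset.Ioc N L, (n : ℝ) ^ (-(2 * σ)) +
        (L : ℝ) ^ 2 * Real.exp (-(T ^ 2 / (4 * (L : ℝ) ^ 2))))) ≤ 1 / 8 * T ^ (1 - c) + 1 / 8 * T ^ (1 - c) := by
    have q1 : 3 * Real.exp 4 * (√Real.pi * T * (∑ n ∈ Finset.Ioc N L, (n : ℝ) ^ (-(2 * σ)) +
        (L : ℝ) ^ 2 * Real.exp (-(T ^ 2 / (4 * (L : ℝ) ^ 2))))) =
        3 * Real.exp 4 * √Real.pi * (T * ∑ n ∈ Finset.Ioc N L, (n : ℝ) ^ (-(2 * σ))) +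
        3 * Real.exp 4 * √Real.pi * (T * ((L : ℝ) ^ 2 * Real.exp (-(T ^ 2 / (4 * (L : ℝ) ^ 2))))) := by ring
    rw [q1]
    apply add_le_add
    · refine le_trans ?_ g1
      calc 3 * Real.exp 4 * √Real.pi * (T * ∑ n ∈ Finset.Ioc N L, (n : ℝ) ^ (-(2 * σ))) ≤
          3 * Real.exp 4 * √Real.pi * ((C * 2 ^ δ0) * T ^ (1 - η * δ0)) := by gcongr
        _ = _ := by ring
    · refine le_trans ?_ g4
      calc 3 * Real.exp 4 * √Real.pi * (T * ((L : ℝ) ^ 2 * Real.exp (-(T ^ 2 / (4 * (L : ℝ) ^ 2))))) ≤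
          3 * Real.exp 4 * √Real.pi * (T * (T ^ (2 : ℝ) * Real.exp (-(1 / 4) * T ^ (2 - 2 * κ)))) := by gcongr
        _ = _ := by ring
  have hp : 0 ≤ T ^ (1 - c) := by positivity
  linarith

end Pool.Agent.H510.EX
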