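import Pool.Agent.H510.EX.Ari

/-!
The resonator supported on the primes in `(L^k, L^(2k)]`, `L = log T`.
-/

set_option autoImplicit false

namespace Pool.Agent.H510.EX

open Finset Filter Topology
open Pool.Agent.Q97.UM (N2 cv prc)
open Pool.Agent.Q241.UM

/-- the data of the resonator -/
structure RD (k : ℕ) (θ c C L σ : ℝ) (P : Finset ℕ) (y K N : ℕ) (μ a : ℝ) : Prop where
  hP : ∀ p ∈ P, p.Prime
  hy1 : 1 ≤ y
  hy : ∀ p ∈ P, y < p
  hyL : L ^ k < y + 1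
  hσ : σ = 1 ∨ σ = -1
  hμ : 1 ≤ μ
  hKL : (K : ℝ) ≤ L
  hN : (N : ℝ) ≤ Real.exp (θ * L)
  supp : ∀ n, rs P K (σ * μ) n ≠ 0 → 1 ≤ n ∧ n ≤ N
  one : 1 ≤ N2 N (rs P K (σ * μ))
  tr : 9 * E0 (fun p => μ ^ 2 / p) P ≤ 10 * N2 N (rs P K (σ * μ))
  ha : c * Real.sqrt (L / Real.log L) ≤ a
  main : ∀ X : ℕ, L ^ (2 * k) ≤ X → (X : ℝ) ≤ Real.exp L →
        N2 (X * N) (fun n => cv (prc X) (rs P K (σ * μ)) n - σ * a * rs P K (σ * μ) n) ≤
          C * Real.log L * N2 N (rs P K (σ * μ))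

theorem ev_RD (k : ℕ) (hk : 2 ≤ k) (θ : ℝ) (hθ : 0 < θ) (hθ1 : θ ≤ 1) : ∃ c C : ℝ, 0 < c ∧ 0 ≤ C ∧ ∀ᶠ L : ℝ in atTop,
    ∀ σ : ℝ, σ = 1 ∨ σ = -1 → ∃ (P : Finset ℕ) (y K N : ℕ) (μ a : ℝ), RD k θ c C L σ P y K N μ a := by
  obtain ⟨C₁, hC₁, hsum⟩ := ev_sum
  have hk0 : (0 : ℝ) < k := by exact_mod_cast (by omega : 0 < k)
  have hk2 : (2 : ℝ) ≤ k := by exact_mod_cast hk
  refine ⟨Real.sqrt (θ / (40 * k)) / 2, 12 + 2 * C₁, by positivity, by positivity, ?_⟩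
  obtain ⟨X₀, hX₀⟩ := Filter.eventually_atTop.1 hsum
  have hfl : Tendsto (fun L : ℝ => ⌊L ^ k⌋₊) atTop atTop :=
    tendsto_nat_floor_atTop.comp (tendsto_pow_atTop (by omega))
  have hlogo : ∀ᶠ L : ℝ in atTop, Real.log L ≤ θ / (40 * k) * L := by
    have h1 := Real.isLittleO_log_id_atTop.bound (c := θ / (40 * k)) (by positivity)
    filter_upwards [h1, eventually_ge_atTop 1] with L hL hL1
    rw [Real.norm_eq_abs, id, Real.norm_eq_abs, abs_of_nonneg (by linarith : (0 : ℝ) ≤ L)] at hL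
    exact (le_abs_self _).trans hL
  filter_upwards [hfl.eventually ev_Py, hlogo, eventually_ge_atTop (Real.exp 1), eventually_ge_atTop 3,
    eventually_ge_atTop (X₀ : ℝ)] with L hPy hlo hLe hL3 hLX₀
  obtain ⟨hS1, hS2⟩ := hPy
  have hL0 : 0 < L := by linarith
  have hL1 : 1 ≤ L := by linarith
  have hlog1 : 1 ≤ Real.log L := by
    rw [← Real.log_exp 1]
    exact Real.log_le_log (Real.exp_pos 1) hLe
  have hlog0 : 0 < Real.log L := by linarith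
  have hL2k : L ^ 2 ≤ L ^ k := pow_le_pow_right₀ hL1 hk
  set y := ⌊L ^ k⌋₊ with hy
  have hyL : (y : ℝ) ≤ L ^ k := Nat.floor_le (by positivity)
  have hyL' : L ^ k < y + 1 := Nat.lt_floor_add_one _
  have hy1 : 1 ≤ y := by
    rw [hy, Nat.one_le_floor_iff]
    exact one_le_pow₀ hL1
  -- the number of prime factors
  set z := θ * L / (2 * k * Real.log L) with hz
  have hz20 : 20 ≤ z := by
    rw [hz, le_div_iff₀ (by positivity)]
    have h1 : 20 * (2 * k * Real.log L) ≤ 20 * (2 * k * (θ / (40 * k) * L)) := by gcongr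
    have h2 : 20 * (2 * k * (θ / (40 * k) * L)) = θ * L := by field_simp; ring
    linarith
  set K := ⌊z⌋₊ with hK
  have hKz : (K : ℝ) ≤ z := Nat.floor_le (by linarith)
  have hKz' : z < K + 1 := Nat.lt_floor_add_one _
  have hK10 : (10 : ℝ) ≤ K := by linarith
  have hKz2 : z / 2 ≤ K := by linarith
  set μ := Real.sqrt (K / 10) with hμ
  have hμ2 : μ ^ 2 = K / 10 := Real.sq_sqrt (by positivity)
  have hμ0 : 0 ≤ μ := Real.sqrt_nonneg _
  have hμ1 : 1 ≤ μ := by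
    rw [hμ, Real.one_le_sqrt]
    linarith
  have hKL : (K : ℝ) ≤ L := by
    refine hKz.trans ?_
    rw [hz, div_le_iff₀ (by positivity)]
    have h1 : 1 ≤ 2 * k * Real.log L := by nlinarith
    nlinarith [mul_le_mul_of_nonneg_right hθ1 hL0.le, mul_le_mul_of_nonneg_left h1 hL0.le]
  set P := Py y with hPdef
  have hP : ∀ p ∈ P, p.Prime := fun p hp => (mem_filter.1 hp).2.1
  have hPle : ∀ p ∈ P, p ≤ y ^ 2 := fun p hp => (mem_Icc.1 (mem_filter.1 hp).1).2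
  have hPgt : ∀ p ∈ P, y < p := fun p hp => (mem_filter.1 hp).2.2
  set a := μ * ∑ p ∈ P, (1 : ℝ) / p with ha
  have hx : ∀ p ∈ P, μ ^ 4 ≤ (p : ℝ) := by
    intro p hp
    have h1 : μ ^ 4 = (K / 10 : ℝ) ^ 2 := by rw [← hμ2]; ring
    rw [h1]
    have h2 : (y : ℝ) + 1 ≤ p := by exact_mod_cast hPgt p hp
    nlinarith [hKL, hK10]
  have hN : ∀ S ∈ P.powerset, S.card ≤ K → ∏ p ∈ S, p ≤ (y ^ 2) ^ K := by
    intro S hS hc
    have hSP := Finset.mem_powerset.1 hS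
    calc ∏ p ∈ S, p ≤ (y ^ 2) ^ S.card := Finset.prod_le_pow_card _ _ _ fun p hp => hPle p (hSP hp)
      _ ≤ (y ^ 2) ^ K := Nat.pow_le_pow_right (by positivity) hc
  have hNN : 1 ≤ (y ^ 2) ^ K := Nat.one_le_pow _ _ (by positivity)
  intro σ hσ
  have hσ2 : σ ^ 2 = 1 := by rcases hσ with rfl | rfl <;> norm_num
  have hS0 : 0 ≤ ∑ p ∈ P, (1 : ℝ) / p := Finset.sum_nonneg fun p _ => by positivity
  refine ⟨P, y, K, (y ^ 2) ^ K, μ, a, hP, hy1, hPgt, hyL', hσ, hμ1, hKL, ?_, ?_, one_le_N2 hNN, ?_, ?_, ?_⟩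
  · -- the length
    push_cast
    have h1 : ((y : ℝ) ^ 2) ^ K ≤ (L ^ (2 * k)) ^ K := by
      refine pow_le_pow_left₀ (by positivity) ?_ K
      calc (y : ℝ) ^ 2 ≤ (L ^ k) ^ 2 := pow_le_pow_left₀ (Nat.cast_nonneg _) hyL 2
        _ = L ^ (2 * k) := by rw [← pow_mul]; congr 1; ring
    refine h1.trans ?_
    have h2 : (L ^ (2 * k)) ^ K = Real.exp ((2 * k * K : ℝ) * Real.log L) := by
      rw [← pow_mul, ← Real.rpow_natCast, Real.rpow_def_of_pos hL0]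
      congr 1
      push_cast
      ring
    rw [h2]
    refine Real.exp_le_exp.2 ?_
    have h3 : (2 * k * Real.log L) * K ≤ (2 * k * Real.log L) * z := mul_le_mul_of_nonneg_left hKz (by positivity)
    have h4 : (2 * k * Real.log L) * z = θ * L := by
      rw [hz]
      field_simp
    linarith
  · intro n hn
    obtain ⟨⟨h3, h4⟩, h5⟩ := rs_ne hn
    have h6 := hN n.primeFactors (Finset.mem_powerset.2 h4) h5
    rw [Nat.prod_primeFactors_of_squarefree h3] at h6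
    exact ⟨Nat.one_le_iff_ne_zero.2 h3.ne_zero, h6⟩
  · -- truncation
    have hW : N2 ((y ^ 2) ^ K) (rs P K (σ * μ)) = ∑ S ∈ P.powerset.filter (fun S => S.card ≤ K), wt (fun p => μ ^ 2 / p) S := by
      rw [N2_rs hP K _ (σ * μ) hN, mul_pow, hσ2, one_mul]
    rw [hW]
    refine trunc (fun p => by positivity) P K ?_ ?_
    · have h1 : ∑ p ∈ P, μ ^ 2 / (p : ℝ) = μ ^ 2 * ∑ p ∈ P, (1 : ℝ) / p := by
        rw [Finset.mul_sum]
        exact Finset.sum_congr rfl fun p _ => by ring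
      rw [h1, hμ2]
      nlinarith
    · have : (1 : ℝ) ≤ K := by linarith
      exact_mod_cast this
  · -- the size of `a`
    have h1 : Real.sqrt (θ / (40 * k)) * Real.sqrt (L / Real.log L) ≤ μ := by
      rw [← Real.sqrt_mul (by positivity), hμ]
      refine Real.sqrt_le_sqrt ?_
      have h2 : θ / (40 * k) * (L / Real.log L) = z / 20 := by
        rw [hz]
        field_simp
        norm_num
      rw [h2]
      linarith
    rw [ha]
    have h3 : 0 ≤ Real.sqrt (θ / (40 * k)) * Real.sqrt (L / Real.log L) := by positivity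
    nlinarith
  · intro X hX1 hX2
    have hy2 : y ^ 2 ≤ X := by
      have h1 : ((y ^ 2 : ℕ) : ℝ) ≤ X := by
        push_cast
        calc (y : ℝ) ^ 2 ≤ (L ^ k) ^ 2 := pow_le_pow_left₀ (Nat.cast_nonneg _) hyL 2
          _ = L ^ (2 * k) := by rw [← pow_mul]; congr 1; ring
          _ ≤ X := hX1
      exact_mod_cast h1
    have h1 := res_core hP (K := K) (N := (y ^ 2) ^ K) (X := X) hσ hμ1 hS2 ha (by rw [hμ2]; linarith) hx hN
      (fun p hp => (hPle p hp).trans hy2)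
    refine h1.trans ?_
    have hW : 0 ≤ N2 ((y ^ 2) ^ K) (rs P K (σ * μ)) := zero_le_one.trans (one_le_N2 hNN)
    refine mul_le_mul_of_nonneg_right ?_ hW
    have hXL : L ≤ X := by
      have : L ^ 1 ≤ L ^ (2 * k) := pow_le_pow_right₀ hL1 (by omega)
      linarith
    have hXX₀ : X₀ ≤ X := by
      have : (X₀ : ℝ) ≤ X := by linarith
      exact_mod_cast this
    have h2 := hX₀ X hXX₀
    have hX1' : (1 : ℝ) < X := by linarith
    have h3 : Real.log (Real.log X) ≤ Real.log L := by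
      refine Real.log_le_log (Real.log_pos hX1') ?_
      have h4 := Real.log_le_log (by linarith) hX2
      rwa [Real.log_exp] at h4
    nlinarith

/-- small tails under the resonator -/
theorem tilt_tail (k : ℕ) (hk : 2 ≤ k) (θ c C α : ℝ) (hα : 0 < α) (hkα : 2 ≤ k * α) (κ : ℝ) (hκ : 0 < κ) : ∃ N₀ : ℕ, ∀ᶠ L : ℝ in atTop,
    ∀ (σ : ℝ) (P : Finset ℕ) (y K N : ℕ) (μ a : ℝ), RD k θ c C L σ P y K N μ a → ∀ Y : ℕ, (Y : ℝ) ≤ Real.exp L →
      ∀ e : ℕ → ℂ, (∀ n, ‖e n‖ ≤ if N₀ < n ∧ n ≤ Y then (n : ℝ) ^ (-α) else 0) → ∀ M : ℕ,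
        N2 M (cv e (rs P K (σ * μ))) ≤ κ * N2 N (rs P K (σ * μ)) := by
  have hs : Summable fun n : ℕ => (n : ℝ) ^ (-(2 * α + 1)) := Real.summable_nat_rpow.2 (by linarith)
  have hf0 : ∀ n : ℕ, 0 ≤ (n : ℝ) ^ (-(2 * α + 1)) := fun n => Real.rpow_nonneg (Nat.cast_nonneg n) _
  set Z := ∑' n : ℕ, (n : ℝ) ^ (-(2 * α + 1)) with hZ
  have hZ0 : 0 ≤ Z := tsum_nonneg hf0
  have hev : ∀ᶠ n : ℕ in atTop, Z - κ / 8 < ∑ i ∈ Finset.range n, (i : ℝ) ^ (-(2 * α + 1)) :=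
    hs.hasSum.tendsto_sum_nat.eventually (lt_mem_nhds (by linarith))
  obtain ⟨N₀, hN₀⟩ := eventually_atTop.1 hev
  refine ⟨N₀, ?_⟩
  obtain ⟨ε, hε⟩ : ∃ ε : ℝ, ε = min 1 (κ / (16 * (Z + 1))) := ⟨_, rfl⟩
  have hε0 : 0 < ε := by rw [hε]; positivity
  have hε1 : ε ≤ 1 := by rw [hε]; exact min_le_left _ _
  have hε2 : 2 * ε ^ 2 * Z ≤ κ / 8 := by
    have h1 : ε ≤ κ / (16 * (Z + 1)) := by rw [hε]; exact min_le_right _ _
    have h2 : ε * (16 * (Z + 1)) ≤ κ := by rwa [le_div_iff₀ (by positivity)] at h1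
    have h3 : ε ^ 2 ≤ ε := by nlinarith
    nlinarith [mul_nonneg hε0.le hZ0]
  -- the exponent
  have hlim : ∀ᶠ L : ℝ in atTop, 3 * 2 ^ α / L ≤ ε / 2 := by
    filter_upwards [eventually_ge_atTop (3 * 2 ^ α * 2 / ε), eventually_gt_atTop 0] with L hL hL0
    rw [div_le_iff₀ hε0] at hL
    rw [div_le_iff₀ hL0]
    linarith
  filter_upwards [hlim, eventually_ge_atTop 2] with L hL hL2 σ P y K N μ a hR Y hY e he M
  have hL0 : 0 < L := by linarith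
  have hL1 : 1 ≤ L := by linarith
  have hμ0 : 0 < μ := by linarith [hR.hμ]
  have hJ : ∀ U ⊆ P, ∏ p ∈ U, p ≤ Y → U.card ≤ ⌊2 * L⌋₊ := by
    intro U hU hUY
    apply Nat.le_floor
    have h1 : 2 ^ U.card ≤ ∏ p ∈ U, p := by
      apply Finset.pow_card_le_prod
      intro p hp
      exact (hR.hP p (hU hp)).two_le
    have h2 : ((2 : ℝ)) ^ U.card ≤ Real.exp L := by
      refine le_trans ?_ hY
      have : ((2 ^ U.card : ℕ) : ℝ) ≤ (Y : ℝ) := by exact_mod_cast h1.trans hUY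
      push_cast at this
      exact this
    have h3 : (U.card : ℝ) * Real.log 2 ≤ L := by
      have := Real.log_le_log (by positivity) h2
      rwa [Real.log_pow, Real.log_exp] at this
    have h4 := Real.log_two_gt_d9
    nlinarith [(Nat.cast_nonneg U.card : (0 : ℝ) ≤ U.card)]
  have h1 := N2_cv hR.hP hR.hy1 hR.hy (K := K) (J₁ := ⌊2 * L⌋₊) (N := N₀) (Y := Y) hR.hσ hR.hμ hα hJ e he M
  set z := (y : ℝ) ^ (-α) / μ with hz
  have hy0 : (0 : ℝ) < y := by exact_mod_cast (by have := hR.hy1; omega : 0 < y)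
  have hz0 : 0 ≤ z := by positivity
  have hyhalf : L ^ k / 2 ≤ y := by
    have h2 := hR.hyL
    have h3 : (1 : ℝ) ≤ y := by exact_mod_cast hR.hy1
    linarith
  have hzle : z ≤ 2 ^ α * L ^ (-(2 : ℝ)) := by
    calc z ≤ (y : ℝ) ^ (-α) := div_le_self (by positivity) hR.hμ
      _ ≤ (L ^ k / 2) ^ (-α) := Real.rpow_le_rpow_of_nonpos (by positivity) hyhalf (by linarith)
      _ = 2 ^ α * L ^ (-(k * α)) := by
          rw [Real.div_rpow (by positivity) (by norm_num), div_eq_mul_inv, ← Real.rpow_neg (by norm_num), neg_neg,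
            ← Real.rpow_natCast, ← Real.rpow_mul hL0.le, mul_comm]
          congr 2
          ring
      _ ≤ 2 ^ α * L ^ (-(2 : ℝ)) := by
          apply mul_le_mul_of_nonneg_left _ (by positivity)
          exact Real.rpow_le_rpow_of_exponent_le hL1 (by linarith)
  have hJz : ((K + ⌊2 * L⌋₊ : ℕ) : ℝ) * z ≤ ε / 2 := by
    have h2 : ((K + ⌊2 * L⌋₊ : ℕ) : ℝ) ≤ 3 * L := by
      push_cast
      have := Nat.floor_le (by linarith : 0 ≤ 2 * L)
      have := hR.hKL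
      linarith
    calc ((K + ⌊2 * L⌋₊ : ℕ) : ℝ) * z ≤ (3 * L) * (2 ^ α * L ^ (-(2 : ℝ))) := by gcongr
      _ = 3 * 2 ^ α / L := by
          rw [Real.rpow_neg hL0.le, Real.rpow_two]
          field_simp
      _ ≤ ε / 2 := hL
  have hη0 : 0 ≤ (1 + z) ^ (K + ⌊2 * L⌋₊) - 1 := by
    have : 1 ≤ (1 + z) ^ (K + ⌊2 * L⌋₊) := one_le_pow₀ (by linarith)
    linarith
  have hη1 : (1 + z) ^ (K + ⌊2 * L⌋₊) - 1 ≤ ε := by
    have h2 : (1 + z) ^ (K + ⌊2 * L⌋₊) ≤ Real.exp (ε / 2) := by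
      calc (1 + z) ^ (K + ⌊2 * L⌋₊) ≤ (Real.exp z) ^ (K + ⌊2 * L⌋₊) := by
            apply pow_le_pow_left₀ (by linarith)
            linarith [Real.add_one_le_exp z]
        _ = Real.exp (((K + ⌊2 * L⌋₊ : ℕ) : ℝ) * z) := by rw [← Real.exp_nat_mul]
        _ ≤ _ := Real.exp_le_exp.2 hJz
    have h3 : Real.exp (ε / 2) ≤ 1 + ε := by
      have h4 := Real.exp_bound_div_one_sub_of_interval (x := ε / 2) (by positivity) (by linarith)
      refine h4.trans ?_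
      rw [div_le_iff₀ (by linarith)]
      nlinarith
    linarith
  have htail : ∑ w ∈ Ioc N₀ Y, (w : ℝ) ^ (-(2 * α + 1)) ≤ κ / 8 := by
    have h5 := hN₀ (N₀ + 1) (by omega)
    have h6 : ∑ i ∈ Finset.range (N₀ + 1), (i : ℝ) ^ (-(2 * α + 1)) + ∑ n ∈ Finset.Ioc N₀ Y, (n : ℝ) ^ (-(2 * α + 1)) ≤ Z := by
      rw [← Finset.sum_union]
      · exact hs.sum_le_tsum _ (fun i _ => hf0 i)
      · rw [Finset.disjoint_left]
        intro a ha hb
        simp only [Finset.mem_range, Finset.mem_Ioc] at ha hb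
        omega
    linarith
  have hfull : ∑ w ∈ Icc 1 Y, (w : ℝ) ^ (-(2 * α + 1)) ≤ Z := hs.sum_le_tsum _ fun n _ => hf0 n
  have hfull0 : 0 ≤ ∑ w ∈ Icc 1 Y, (w : ℝ) ^ (-(2 * α + 1)) := Finset.sum_nonneg fun n _ => hf0 n
  have hE0 : 0 < E0 (fun p => μ ^ 2 / p) P := E0_pos (fun p => by positivity) P
  refine h1.trans ?_
  have h7 : 2 * ((1 + z) ^ (K + ⌊2 * L⌋₊) - 1) ^ 2 * ∑ w ∈ Icc 1 Y, (w : ℝ) ^ (-(2 * α + 1)) ≤ κ / 8 := by
    refine le_trans ?_ hε2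
    gcongr
  have h8 : 2 * ∑ w ∈ Ioc N₀ Y, (w : ℝ) ^ (-(2 * α + 1)) +
        2 * ((1 + z) ^ (K + ⌊2 * L⌋₊) - 1) ^ 2 * ∑ w ∈ Icc 1 Y, (w : ℝ) ^ (-(2 * α + 1)) ≤ κ / 2 := by linarith
  have h9 := mul_le_mul_of_nonneg_left h8 hE0.le
  have h10 := hR.tr
  have h11 : 0 ≤ N2 N (rs P K (σ * μ)) := by linarith [hR.one]
  nlinarith

/-- the mean square of a product whose factors have coprime supports -/
theorem N2_prod (c r : ℕ → ℂ) (M N : ℕ) (hc : ∀ n, c n ≠ 0 → 1 ≤ n ∧ n ≤ M) (hr : ∀ n, r n ≠ 0 → 1 ≤ n ∧ n ≤ N)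
    (hinj : ∀ x x' z z', c x ≠ 0 → r z ≠ 0 → c x' ≠ 0 → r z' ≠ 0 → x * z = x' * z' → x = x' ∧ z = z') :
    N2 (M * N) (cv c r) = N2 M c * N2 N r := by
  classical
  have e1 : ∀ n, ‖cv c r n‖ ^ 2 = ∑ x ∈ n.divisorsAntidiagonal, ‖c x.1‖ ^ 2 * ‖r x.2‖ ^ 2 := by
    intro n
    unfold cv
    have hne : ∀ x : ℕ × ℕ, ‖c x.1‖ ^ 2 * ‖r x.2‖ ^ 2 ≠ 0 ↔ c x.1 * r x.2 ≠ 0 := by
      intro x
      rw [← mul_pow, ← norm_mul]
      simp
    have h0 : ∑ x ∈ n.divisorsAntidiagonal, c x.1 * r x.2 =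
        ∑ x ∈ n.divisorsAntidiagonal.filter (fun x => c x.1 * r x.2 ≠ 0), c x.1 * r x.2 :=
      (Finset.sum_filter_ne_zero _).symm
    have h0' : ∑ x ∈ n.divisorsAntidiagonal, ‖c x.1‖ ^ 2 * ‖r x.2‖ ^ 2 =
        ∑ x ∈ n.divisorsAntidiagonal.filter (fun x => c x.1 * r x.2 ≠ 0), ‖c x.1‖ ^ 2 * ‖r x.2‖ ^ 2 := by
      rw [← Finset.sum_filter_ne_zero]
      apply Finset.sum_congr _ fun _ _ => rfl
      ext x
      simp only [Finset.mem_filter, hne]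
    have hcard : (n.divisorsAntidiagonal.filter (fun x => c x.1 * r x.2 ≠ 0)).card ≤ 1 := by
      rw [Finset.card_le_one]
      intro x hx x' hx'
      rw [Finset.mem_filter, Nat.mem_divisorsAntidiagonal] at hx hx'
      obtain ⟨h1, h2⟩ := hinj x.1 x'.1 x.2 x'.2 (left_ne_zero_of_mul hx.2) (right_ne_zero_of_mul hx.2)
        (left_ne_zero_of_mul hx'.2) (right_ne_zero_of_mul hx'.2) (hx.1.1.trans hx'.1.1.symm)
      exact Prod.ext h1 h2
    rw [h0, h0']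
    rcases Finset.card_le_one_iff_subset_singleton.1 hcard with ⟨x, hx⟩
    rcases Finset.subset_singleton_iff.1 hx with h | h
    · rw [h]; simp
    · rw [h]; simp [mul_pow]
  unfold N2
  have e2 : ∀ n ∈ Icc 1 (M * N), ‖cv c r n‖ ^ 2 / (n : ℝ) =
      ∑ x ∈ Icc 1 M ×ˢ Icc 1 N, if x.1 * x.2 = n then (‖c x.1‖ ^ 2 / x.1) * (‖r x.2‖ ^ 2 / x.2) else 0 := by
    intro n hn
    rw [Finset.mem_Icc] at hn
    rw [e1, Finset.sum_div, ← Finset.sum_filter]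
    have e3 : ∀ x ∈ n.divisorsAntidiagonal, ‖c x.1‖ ^ 2 * ‖r x.2‖ ^ 2 / (n : ℝ) = (‖c x.1‖ ^ 2 / x.1) * (‖r x.2‖ ^ 2 / x.2) := by
      intro x hx
      rw [Nat.mem_divisorsAntidiagonal] at hx
      rw [← hx.1]
      push_cast
      rw [div_mul_div_comm]
    rw [sum_congr rfl e3]
    symm
    apply Finset.sum_subset_zero_on_sdiff
    · intro x hx
      rw [Finset.mem_filter] at hx
      rw [Nat.mem_divisorsAntidiagonal]
      exact ⟨hx.2, by omega⟩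
    · intro x hx
      rw [Finset.mem_sdiff, Nat.mem_divisorsAntidiagonal, Finset.mem_filter, Finset.mem_product, Finset.mem_Icc, Finset.mem_Icc] at hx
      by_contra hne
      apply hx.2
      have h1 : c x.1 ≠ 0 := by
        rintro h
        apply hne
        rw [h]; simp
      have h2 : r x.2 ≠ 0 := by
        rintro h
        apply hne
        rw [h]; simp
      exact ⟨⟨hc _ h1, hr _ h2⟩, hx.1.1⟩
    · intro x _; rfl
  rw [Finset.sum_congr rfl e2, Finset.sum_comm]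
  have e4 : ∀ x ∈ Icc 1 M ×ˢ Icc 1 N, (∑ n ∈ Icc 1 (M * N), if x.1 * x.2 = n then (‖c x.1‖ ^ 2 / (x.1 : ℝ)) * (‖r x.2‖ ^ 2 / (x.2 : ℝ)) else 0) =
      (‖c x.1‖ ^ 2 / (x.1 : ℝ)) * (‖r x.2‖ ^ 2 / (x.2 : ℝ)) := by
    intro x hx
    rw [Finset.mem_product, Finset.mem_Icc, Finset.mem_Icc] at hx
    rw [Finset.sum_ite_eq, if_pos]
    rw [Finset.mem_Icc]
    exact ⟨Nat.mul_pos hx.1.1 hx.2.1, Nat.mul_le_mul hx.1.2 hx.2.2⟩
  rw [Finset.sum_congr rfl e4, Finset.sum_mul_sum, Finset.sum_product]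

/-- the polynomial of small length and the resonator are independent -/
theorem N2_res {k : ℕ} {θ c C L σ : ℝ} {P : Finset ℕ} {y K N : ℕ} {μ a : ℝ} (hR : RD k θ c C L σ P y K N μ a) (M : ℕ)
    (hM : M ≤ y) (b : ℕ → ℂ) (hb : ∀ n, b n ≠ 0 → 1 ≤ n ∧ n ≤ M) :
    N2 (M * N) (cv b (rs P K (σ * μ))) = N2 M b * N2 N (rs P K (σ * μ)) := by
  apply N2_prod b _ M N hb hR.supp
  intro x x' z z' hx hz hx' hz' he
  have hco : ∀ u v : ℕ, b u ≠ 0 → rs P K (σ * μ) v ≠ 0 → Nat.Coprime v u := by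
    intro u v hu hv
    obtain ⟨⟨h1, h2⟩, -⟩ := rs_ne hv
    have h3 := hb u hu
    rw [Nat.coprime_iff_gcd_eq_one]
    by_contra h4
    obtain ⟨p, hp, hpd⟩ := Nat.exists_prime_and_dvd h4
    have h5 : p ∣ v := hpd.trans (Nat.gcd_dvd_left _ _)
    have h6 : p ∣ u := hpd.trans (Nat.gcd_dvd_right _ _)
    have h7 : p ∈ P := h2 (Nat.mem_primeFactors.2 ⟨hp, h5, h1.ne_zero⟩)
    have h8 := hR.hy p h7
    have h9 := Nat.le_of_dvd (by omega) h6
    omega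
  have h1 : z ∣ z' := by
    have : z ∣ x' * z' := ⟨x, by rw [← he, mul_comm]⟩
    exact (hco x' z hx' hz).dvd_of_dvd_mul_left this
  have h2 : z' ∣ z := by
    have : z' ∣ x * z := ⟨x', by rw [he, mul_comm]⟩
    exact (hco x z' hx hz').dvd_of_dvd_mul_left this
  have h3 : z = z' := Nat.dvd_antisymm h1 h2
  refine ⟨?_, h3⟩
  rw [h3] at he
  exact Nat.eq_of_mul_eq_mul_right (hR.supp z' hz').1 he

end Pool.Agent.H510.EX
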