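import Pool.Agent.H510.EX.Res
import Pool.Agent.H510.EX.Few
import Pool.Agent.H510.PC.Cls

/-!
The values of zeta in the strip under measures with a resonator: outside a set of small mass zeta is close to a fixed
Dirichlet polynomial.
-/

set_option autoImplicit false

open Complex Filter Topology MeasureTheory
open scoped ENNReal
open Pool.Agent.Q97.UM (dp N2 cv)

namespace Pool.Agent.H510.EX

open Pool.Agent.H510.UZ Pool.Agent.H510.PC

/-- a block of the Dirichlet series of zeta -/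
noncomputable def Qf (N₀ Y : ℕ) (s : ℂ) : ℂ := ∑ n ∈ Finset.Ioc N₀ Y, (n : ℂ) ^ (-s)

/-- the coefficients of the block -/
noncomputable def ew (N₀ Y : ℕ) (w : ℂ) (n : ℕ) : ℂ := if N₀ < n ∧ n ≤ Y then (n : ℂ) ^ (1 / 2 - w) else 0

theorem dp_ew (N₀ Y : ℕ) (w : ℂ) (t : ℝ) : dp Y (ew N₀ Y w) t = Qf N₀ Y (w + t * I) := by
  unfold dp ew Qf
  have hs : Finset.Ioc N₀ Y = (Finset.Icc 1 Y).filter (fun n => N₀ < n ∧ n ≤ Y) := by
    ext n; simp only [Finset.mem_Ioc, Finset.mem_filter, Finset.mem_Icc]; omega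
  rw [hs, Finset.sum_filter]
  apply Finset.sum_congr rfl
  intro n hn
  have hn0 : (n : ℂ) ≠ 0 := by
    have := (Finset.mem_Icc.mp hn).1
    exact_mod_cast (by omega : n ≠ 0)
  split_ifs with h
  · rw [← Complex.cpow_add _ _ hn0]; congr 1; ring
  · simp

theorem ew_norm (N₀ Y : ℕ) {w : ℂ} {a : ℝ} (hw : (1 / 2 + a) / 2 ≤ w.re) (n : ℕ) :
    ‖ew N₀ Y w n‖ ≤ if N₀ < n ∧ n ≤ Y then (n : ℝ) ^ (-(a / 2 - 1 / 4)) else 0 := by
  unfold ew
  split_ifs with h
  · have hn : 0 < n := by omega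
    rw [Complex.norm_natCast_cpow_of_pos hn]
    apply Real.rpow_le_rpow_of_exponent_le (by exact_mod_cast hn)
    simp only [Complex.sub_re, Complex.div_ofNat_re, Complex.one_re]
    linarith
  · simp

theorem Qf_cont (N₀ Y : ℕ) : Continuous (Qf N₀ Y) := by
  unfold Qf
  apply continuous_finsetSum
  intro n hn
  have hn1 := (Finset.mem_Ioc.mp hn).1
  have hn0 : (n : ℂ) ≠ 0 := by exact_mod_cast (by omega : n ≠ 0)
  exact Continuous.const_cpow continuous_neg (Or.inl hn0)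

theorem Qf_diff (N₀ Y : ℕ) : Differentiable ℂ (Qf N₀ Y) := by
  unfold Qf
  apply Differentiable.fun_sum
  intro n hn
  have hn1 := (Finset.mem_Ioc.mp hn).1
  have hn0 : (n : ℂ) ≠ 0 := by exact_mod_cast (by omega : n ≠ 0)
  intro s
  exact (differentiableAt_id.neg).const_cpow (Or.inl hn0)

theorem rect_compact (a b B : ℝ) : IsCompact (ZU.rect a b B) := by
  have e : ZU.rect a b B = Set.Icc a b ×ℂ Set.Icc (-B) B := by
    ext z
    simp only [ZU.rect, Set.mem_ofPred_eq, Complex.mem_reProdIm, Set.mem_Icc, abs_le]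
    tauto
  rw [e]
  exact isCompact_Icc.reProdIm isCompact_Icc

theorem bad_mass (a b B : ℝ) (h1 : 1 / 2 < a) (h2 : a ≤ b) (h3 : b < 1) (hB : 0 < B) : ∃ C : ℝ, 0 < C ∧
    ∀ (N₀ Y N : ℕ) (δ κ A ε₁ : ℝ) (r : ℕ → ℂ) (ν : Measure ℝ), IsFiniteMeasure ν → 0 < δ → 0 ≤ A → 0 ≤ κ → 0 ≤ ε₁ → N₀ ≤ Y →
      (∀ n, r n ≠ 0 → 1 ≤ n ∧ n ≤ N) →
      (∀ e : ℕ → ℂ, (∀ n, ‖e n‖ ≤ if N₀ < n ∧ n ≤ Y then (n : ℝ) ^ (-(a / 2 - 1 / 4)) else 0) →
        N2 (Y * N) (cv e r) ≤ κ * N2 N r) →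
      (∀ b : ℕ → ℂ, ∫⁻ t, ENNReal.ofReal (‖dp (Y * N) b t‖ ^ 2) ∂ν ≤ ENNReal.ofReal (A * N2 (Y * N) b)) →
      ν {t | Bad a b B (δ / 2) Y t} ≤ ENNReal.ofReal ε₁ →
      ∃ f : ℝ → ℝ≥0∞, Measurable f ∧ (∀ t, Bad a b B δ N₀ t → 1 ≤ f t) ∧
        ∫⁻ t, f t * ENNReal.ofReal (‖dp N r t‖ ^ 2) ∂ν ≤
          ENNReal.ofReal (ε₁ * (N * N2 N r)) + ENNReal.ofReal (C / δ ^ 2 * κ * (A * N2 N r)) := by
  obtain ⟨C, hC, hsup⟩ := ZU.sup_le_area a b ((1 / 2 + a) / 2) ((b + 1) / 2) B (B + 1) (by linarith) h2 (by linarith) hB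
    (by linarith)
  set R := ZU.rect ((1 / 2 + a) / 2) ((b + 1) / 2) (B + 1) with hR
  have hRc : IsCompact R := rect_compact _ _ _
  have hRf : volume R < ⊤ := hRc.measure_lt_top
  have hRm : MeasurableSet R := hRc.measurableSet
  set V₀ := (volume R).toReal with hV₀
  refine ⟨4 * C * (V₀ + 1), by positivity, ?_⟩
  intro N₀ Y N δ κ A ε₁ r ν hν hδ hA hκ hε₁ hNY hr htail hup hbad
  have hN2 : 0 ≤ N2 N r := by unfold N2; positivity
  set Bd := toMeasurable ν {t | Bad a b B (δ / 2) Y t} with hBd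
  have hBdm : MeasurableSet Bd := measurableSet_toMeasurable _ _
  have hBdν : ν Bd ≤ ENNReal.ofReal ε₁ := by rw [hBd, measure_toMeasurable]; exact hbad
  set g : ℝ → ℝ≥0∞ := fun t => ∫⁻ w in R, ENNReal.ofReal (‖Qf N₀ Y (w + t * I)‖ ^ 2) with hg
  have hjc : Continuous fun p : ℝ × ℂ => ‖Qf N₀ Y (p.2 + p.1 * I)‖ ^ 2 := by
    have : Continuous fun p : ℝ × ℂ => Qf N₀ Y (p.2 + p.1 * I) := (Qf_cont N₀ Y).comp (by fun_prop)
    exact this.norm.pow 2
  have hgm : Measurable g := by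
    exact Measurable.lintegral_prod_right' (f := fun p : ℝ × ℂ => ENNReal.ofReal (‖Qf N₀ Y (p.2 + p.1 * I)‖ ^ 2))
      (ENNReal.continuous_ofReal.comp hjc).measurable
  have hgint : ∀ t : ℝ, ENNReal.ofReal (∫ w in R, ‖Qf N₀ Y (w + t * I)‖ ^ 2) = g t := by
    intro t
    have hc : Continuous fun w : ℂ => ‖Qf N₀ Y (w + t * I)‖ ^ 2 := by
      have : Continuous fun w : ℂ => Qf N₀ Y (w + t * I) := (Qf_cont N₀ Y).comp (by fun_prop)
      exact this.norm.pow 2
    rw [hg]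
    exact ofReal_integral_eq_lintegral_ofReal (hc.continuousOn.integrableOn_compact hRc)
      (Filter.Eventually.of_forall fun w => by positivity)
  refine ⟨fun t => Bd.indicator (fun _ => 1) t + ENNReal.ofReal (4 * C / δ ^ 2) * g t,
    (measurable_const.indicator hBdm).add (hgm.const_mul _), ?_, ?_⟩
  · rintro t ⟨z, hz, hzt⟩
    by_cases hb : Bad a b B (δ / 2) Y t
    · have : t ∈ Bd := subset_toMeasurable _ _ hb
      simp only [Set.indicator_of_mem this]
      exact le_self_add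
    · have hb2 : ‖E Y (z + t * I)‖ < δ / 2 := by
        by_contra hcon
        exact hb ⟨z, hz, not_lt.1 hcon⟩
      have e1 : E N₀ (z + t * I) = E Y (z + t * I) + Qf N₀ Y (z + t * I) := by
        unfold E Qf
        rw [ZU.J_a4.zm_DN N₀ Y hNY]
        ring
      have e2 : δ / 2 ≤ ‖Qf N₀ Y (z + t * I)‖ := by
        have := norm_add_le (E Y (z + t * I)) (Qf N₀ Y (z + t * I))
        rw [← e1] at this
        linarith
      have e3 := hsup (fun w : ℂ => Qf N₀ Y (w + t * I)) Set.univ isOpen_univ (Set.subset_univ _)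
        (((Qf_diff N₀ Y).comp (by fun_prop : Differentiable ℂ fun w : ℂ => w + t * I)).differentiableOn) z hz
      have e4 : 1 ≤ 4 * C / δ ^ 2 * ∫ w in R, ‖Qf N₀ Y (w + t * I)‖ ^ 2 := by
        rw [div_mul_eq_mul_div, le_div_iff₀ (by positivity)]
        have e5 : (δ / 2) ^ 2 ≤ ‖Qf N₀ Y (z + t * I)‖ ^ 2 := by gcongr
        nlinarith
      have e6 : (1 : ℝ≥0∞) ≤ ENNReal.ofReal (4 * C / δ ^ 2) * g t := by
        rw [← hgint, ← ENNReal.ofReal_mul (by positivity), ← ENNReal.ofReal_one]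
        exact ENNReal.ofReal_le_ofReal e4
      exact e6.trans le_add_self
  · set F : ℝ → ℝ≥0∞ := fun t => ENNReal.ofReal (‖dp N r t‖ ^ 2) with hF
    have hFc : Continuous fun t => ‖dp N r t‖ ^ 2 := (dp_cont N r).norm.pow 2
    have hFm : Measurable F := (ENNReal.continuous_ofReal.comp hFc).measurable
    have hFle : ∀ t, F t ≤ ENNReal.ofReal (N * N2 N r) := fun t =>
      ENNReal.ofReal_le_ofReal ((Pool.Agent.Q84.UM.t_DPM.2.2 N r t).1)
    have e0 : ∀ t, (Bd.indicator (fun _ => (1 : ℝ≥0∞)) t + ENNReal.ofReal (4 * C / δ ^ 2) * g t) * F t =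
        Bd.indicator (fun _ => (1 : ℝ≥0∞)) t * F t + ENNReal.ofReal (4 * C / δ ^ 2) * (g t * F t) := by
      intro t; rw [add_mul, mul_assoc]
    have e00 : ∫⁻ t, (Bd.indicator (fun _ => (1 : ℝ≥0∞)) t + ENNReal.ofReal (4 * C / δ ^ 2) * g t) * F t ∂ν =
        ∫⁻ t, Bd.indicator (fun _ => (1 : ℝ≥0∞)) t * F t ∂ν + ENNReal.ofReal (4 * C / δ ^ 2) * ∫⁻ t, g t * F t ∂ν := by
      rw [lintegral_congr e0]
      have m1 : Measurable fun t => Bd.indicator (fun _ => (1 : ℝ≥0∞)) t * F t := (measurable_const.indicator hBdm).mul hFm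
      have m2 : Measurable fun t => g t * F t := hgm.mul hFm
      rw [lintegral_add_left m1, lintegral_const_mul _ m2]
    refine le_trans (le_of_eq e00) ?_
    refine add_le_add ?_ ?_
    · calc ∫⁻ t, Bd.indicator (fun _ => (1 : ℝ≥0∞)) t * F t ∂ν
          ≤ ∫⁻ t, Bd.indicator (fun _ => ENNReal.ofReal (N * N2 N r)) t ∂ν := by
            apply lintegral_mono
            intro t
            by_cases ht : t ∈ Bd
            · simp only [Set.indicator_of_mem ht, one_mul]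
              exact hFle t
            · simp only [Set.indicator_of_notMem ht, zero_mul, le_refl]
        _ = ENNReal.ofReal (N * N2 N r) * ν Bd := by
            rw [lintegral_indicator hBdm, lintegral_const, Measure.restrict_apply_univ]
        _ ≤ ENNReal.ofReal (N * N2 N r) * ENNReal.ofReal ε₁ := by gcongr
        _ = ENNReal.ofReal (ε₁ * (N * N2 N r)) := by
            rw [← ENNReal.ofReal_mul (by positivity)]; congr 1; ring
    · have hm1 : Measurable (Function.uncurry fun (t : ℝ) (w : ℂ) => ENNReal.ofReal (‖Qf N₀ Y (w + t * I)‖ ^ 2) * F t) := by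
        have hm2 : Measurable fun p : ℝ × ℂ => ENNReal.ofReal (‖Qf N₀ Y (p.2 + p.1 * I)‖ ^ 2) :=
          (ENNReal.continuous_ofReal.comp hjc).measurable
        have hm3 : Measurable fun p : ℝ × ℂ => F p.1 := hFm.comp measurable_fst
        exact hm2.mul hm3
      have hsw := lintegral_lintegral_swap (μ := ν) (ν := volume.restrict R)
        (f := fun (t : ℝ) (w : ℂ) => ENNReal.ofReal (‖Qf N₀ Y (w + t * I)‖ ^ 2) * F t) hm1.aemeasurable
      have e1' : ∀ t : ℝ, g t * F t = ∫⁻ w in R, ENNReal.ofReal (‖Qf N₀ Y (w + t * I)‖ ^ 2) * F t := by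
        intro t
        have hm4 : Measurable fun w : ℂ => ENNReal.ofReal (‖Qf N₀ Y (w + t * I)‖ ^ 2) := by
          have : Continuous fun w : ℂ => Qf N₀ Y (w + t * I) := (Qf_cont N₀ Y).comp (by fun_prop)
          exact (ENNReal.continuous_ofReal.comp (this.norm.pow 2)).measurable
        exact (lintegral_mul_const (F t) hm4).symm
      have e1 : ∫⁻ t, g t * F t ∂ν = ∫⁻ w in R, ∫⁻ t, ENNReal.ofReal (‖Qf N₀ Y (w + t * I)‖ ^ 2) * F t ∂ν := by
        rw [lintegral_congr e1']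
        exact hsw
      have hsupp1 : ∀ w n, Y < n → ew N₀ Y w n = 0 := by
        intro w n hn
        unfold ew
        rw [if_neg]; omega
      have hsupp2 : ∀ n, N < n → r n = 0 := by
        intro n hn
        by_contra hcon
        have := (hr n hcon).2
        omega
      have e2 : ∀ w ∈ R, ∫⁻ t, ENNReal.ofReal (‖Qf N₀ Y (w + t * I)‖ ^ 2) * F t ∂ν ≤ ENNReal.ofReal (A * (κ * N2 N r)) := by
        intro w hw
        have e3 : ∀ t : ℝ, ENNReal.ofReal (‖Qf N₀ Y (w + t * I)‖ ^ 2) * F t =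
            ENNReal.ofReal (‖dp (Y * N) (cv (ew N₀ Y w) r) t‖ ^ 2) := by
          intro t
          rw [hF, ← ENNReal.ofReal_mul (by positivity), ← mul_pow, ← norm_mul, ← dp_ew,
            Pool.Agent.Q84.UM.t_DPM.1 Y N (ew N₀ Y w) r t (hsupp1 w) hsupp2]
        rw [lintegral_congr e3]
        refine (hup _).trans (ENNReal.ofReal_le_ofReal ?_)
        apply mul_le_mul_of_nonneg_left _ hA
        exact htail _ (fun n => ew_norm N₀ Y hw.1 n)
      rw [e1]
      calc ENNReal.ofReal (4 * C / δ ^ 2) * ∫⁻ w in R, ∫⁻ t, ENNReal.ofReal (‖Qf N₀ Y (w + t * I)‖ ^ 2) * F t ∂ν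
          ≤ ENNReal.ofReal (4 * C / δ ^ 2) * ∫⁻ w in R, ENNReal.ofReal (A * (κ * N2 N r)) := by
            gcongr ENNReal.ofReal (4 * C / δ ^ 2) * ?_
            apply setLIntegral_mono' hRm
            exact e2
        _ = ENNReal.ofReal (4 * C / δ ^ 2) * (ENNReal.ofReal (A * (κ * N2 N r)) * ENNReal.ofReal V₀) := by
            rw [setLIntegral_const, hV₀, ENNReal.ofReal_toReal hRf.ne]
        _ = ENNReal.ofReal (4 * C / δ ^ 2 * (A * (κ * N2 N r) * V₀)) := by
            rw [← ENNReal.ofReal_mul (by positivity), ← ENNReal.ofReal_mul (by positivity)]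
        _ ≤ ENNReal.ofReal (4 * C * (V₀ + 1) / δ ^ 2 * κ * (A * N2 N r)) := by
            apply ENNReal.ofReal_le_ofReal
            have hq : 4 * C * (V₀ + 1) / δ ^ 2 * κ * (A * N2 N r) = 4 * C / δ ^ 2 * (A * (κ * N2 N r) * (V₀ + 1)) := by ring
            rw [hq]
            have hV0' : 0 ≤ V₀ := ENNReal.toReal_nonneg
            gcongr
            linarith

end Pool.Agent.H510.EX
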