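import Pool.Agent.H510.EX.Fin
import Pool.Agent.H510.UZ.Rec
import Pool.Graph.R_pool_sql_team_seeded_3997aac3.Q97.UM.Base2

/-!
Few heights near the zeros off the line, with a power saving.
-/

set_option autoImplicit false

open Complex Filter Topology MeasureTheory
open Pool.Agent.Q97.UM (dp N2 Zw)

namespace Pool.Agent.H510.EX

open Pool.Agent.H510.UZ Pool.Agent.H510.PC

/-- there is a zero at distance at least `α` from the line within `r` of the height `u` -/
def Off (α r u : ℝ) : Prop := ∃ ρ : ℂ, riemannZeta ρ = 0 ∧ 1 / 2 + α ≤ ρ.re ∧ ρ.re < 1 ∧ |ρ.im - u| ≤ r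

theorem off_dyadic (α : ℝ) (hα : 0 < α) : ∃ c C : ℝ, 0 < c ∧ 0 < C ∧ c ≤ 1 / 2 ∧ ∀ᶠ T : ℝ in atTop,
    volume {t : ℝ | T ≤ t ∧ t ≤ 2 * T ∧ Off α (1 / Real.log T) t} ≤ ENNReal.ofReal (C * T ^ (1 - c)) := by
  obtain ⟨θ, c, C, hθ, -, hc, hC, h⟩ := Pool.Agent.Q97.UM.b_TAIL
  refine ⟨min (c * α) (1 / 2), C + 1, by positivity, by positivity, min_le_right _ _, ?_⟩
  filter_upwards [h, eventually_ge_atTop 16] with T h hT
  have hT0 : 0 < T := by linarith
  have hL : 0 < Real.log T := Real.log_pos (by linarith)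
  have h1 := (h 1 (by rw [Nat.cast_one]; exact Real.one_le_rpow (by linarith) hθ.le) (fun _ => 1)).1 (α * Real.log T)
    (by positivity)
  have hN21 : N2 1 (fun _ => (1 : ℂ)) = 1 := by simp [N2]
  have hdp1 : ∀ t : ℝ, dp 1 (fun _ => (1 : ℂ)) t = 1 := by intro t; simp [dp]
  simp only [hN21, hdp1, norm_one, one_pow, mul_one] at h1
  rw [setIntegral_const, smul_eq_mul, mul_one] at h1
  have e1 : α * Real.log T / Real.log T = α := by field_simp
  rw [e1] at h1
  set S := {t : ℝ | T ≤ t ∧ t ≤ 2 * T ∧ ∃ ρ ∈ Zw t (1 / Real.log T), α ≤ |ρ.re - 1 / 2|} with hS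
  have hSf : volume S ≠ ⊤ := by
    refine ne_top_of_le_ne_top ?_ (measure_mono (t := Set.Icc T (2 * T)) fun t ht => ⟨ht.1, ht.2.1⟩)
    exact measure_Icc_lt_top.ne
  have hsub : {t : ℝ | T ≤ t ∧ t ≤ 2 * T ∧ Off α (1 / Real.log T) t} ⊆ S := by
    rintro t ⟨g1, g2, ρ, g3, g4, g5, g6⟩
    refine ⟨g1, g2, ρ, ⟨g3, by linarith, g5, g6⟩, ?_⟩
    rw [abs_of_nonneg (by linarith)]
    linarith
  refine (measure_mono hsub).trans ?_
  rw [← ENNReal.ofReal_toReal hSf]
  apply ENNReal.ofReal_le_ofReal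
  have h2 : (volume S).toReal ≤ C * Real.exp (-(c * (α * Real.log T))) * T := h1
  refine h2.trans ?_
  have e2 : Real.exp (-(c * (α * Real.log T))) = T ^ (-(c * α)) := by
    rw [Real.rpow_def_of_pos hT0]; congr 1; ring
  rw [e2, mul_assoc]
  have e3 : T ^ (-(c * α)) * T = T ^ (1 - c * α) := by
    rw [show (1 : ℝ) - c * α = -(c * α) + 1 by ring, Real.rpow_add hT0, Real.rpow_one]
  rw [e3]
  have e4 : T ^ (1 - c * α) ≤ T ^ (1 - min (c * α) (1 / 2)) :=
    Real.rpow_le_rpow_of_exponent_le (by linarith) (by linarith [min_le_left (c * α) (1 / 2)])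
  calc C * T ^ (1 - c * α) ≤ (C + 1) * T ^ (1 - c * α) := by
        gcongr
        linarith
    _ ≤ _ := by gcongr

/-- the number of heights `u ≤ 4 U` close to such zeros -/
theorem off_thin (α : ℝ) (hα : 0 < α) : ∃ c : ℝ, 0 < c ∧ c ≤ 1 / 2 ∧ ∀ᶠ U : ℝ in atTop,
    volume {t : ℝ | 1 ≤ t ∧ t ≤ 4 * U ∧ Off α (1 / Real.log (4 * U)) t} ≤ ENNReal.ofReal (U ^ (1 - c)) := by
  obtain ⟨c, C, hc, hC, hc2, h⟩ := off_dyadic α hα
  obtain ⟨T₀, hT₀⟩ := Filter.eventually_atTop.1 h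
  obtain ⟨n₀, hn₀⟩ := exists_nat_ge (max T₀ 2)
  have hn₀1 : T₀ ≤ n₀ := (le_max_left _ _).trans hn₀
  have hn₀2 : (2 : ℝ) ≤ n₀ := (le_max_right _ _).trans hn₀
  refine ⟨c / 2, by positivity, by linarith, ?_⟩
  have hlogU : ∀ᶠ U : ℝ in atTop, 2 ^ n₀ + (2 * Real.log (4 * U) + 1) * (C * (4 * U) ^ (1 - c)) ≤ U ^ (1 - c / 2) := by
    have e1 : ∀ᶠ U : ℝ in atTop, Real.log U ≤ U ^ (c / 4) := by
      have h := (isLittleO_log_rpow_atTop (show 0 < c / 4 by positivity)).bound one_pos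
      filter_upwards [h, eventually_ge_atTop 1] with T hT hT1
      rw [one_mul, Real.norm_of_nonneg (Real.log_nonneg hT1), Real.norm_of_nonneg (by positivity)] at hT
      exact hT
    have e2 : ∀ᶠ U : ℝ in atTop, 2 * (C * 4 ^ (1 - c) * 8) ≤ U ^ (c / 4) :=
      (tendsto_rpow_atTop (by positivity)).eventually_ge_atTop _
    have e3 : ∀ᶠ U : ℝ in atTop, 2 * (2 : ℝ) ^ n₀ ≤ U ^ (1 - c / 2) :=
      (tendsto_rpow_atTop (by linarith)).eventually_ge_atTop _
    have e4 : ∀ᶠ U : ℝ in atTop, 4 ≤ Real.log U := Real.tendsto_log_atTop.eventually_ge_atTop _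
    filter_upwards [e1, e2, e3, e4, eventually_ge_atTop 16] with U e1 e2 e3 e4 hU
    have hU0 : 0 < U := by linarith
    have e5 : Real.log (4 * U) ≤ 2 * Real.log U := by
      rw [Real.log_mul (by norm_num) hU0.ne']
      have : Real.log 4 ≤ Real.log U := Real.log_le_log (by norm_num) (by linarith)
      linarith
    have e6 : 2 * Real.log (4 * U) + 1 ≤ 8 * Real.log U := by linarith
    have e7 : (4 * U) ^ (1 - c) = 4 ^ (1 - c) * U ^ (1 - c) := Real.mul_rpow (by norm_num) hU0.le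
    have e8 : (2 * Real.log (4 * U) + 1) * (C * (4 * U) ^ (1 - c)) ≤ U ^ (1 - c / 2) / 2 := by
      rw [e7]
      calc (2 * Real.log (4 * U) + 1) * (C * (4 ^ (1 - c) * U ^ (1 - c)))
          ≤ (8 * U ^ (c / 4)) * (C * (4 ^ (1 - c) * U ^ (1 - c))) := by
            apply mul_le_mul_of_nonneg_right _ (by positivity)
            linarith
        _ = (2 * (C * 4 ^ (1 - c) * 8)) * (U ^ (c / 4) * U ^ (1 - c)) / 2 := by ring
        _ ≤ U ^ (c / 4) * (U ^ (c / 4) * U ^ (1 - c)) / 2 := by gcongr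
        _ = U ^ (1 - c / 2) / 2 := by
            rw [← Real.rpow_add hU0, ← Real.rpow_add hU0]
            congr 2; ring
    linarith
  filter_upwards [hlogU, eventually_ge_atTop 16] with U hlU hU
  have hU0 : 0 < U := by linarith
  set J := Nat.log 2 ⌊4 * U⌋₊ with hJ
  have hcover : {t : ℝ | 1 ≤ t ∧ t ≤ 4 * U ∧ Off α (1 / Real.log (4 * U)) t} ⊆
      Set.Icc 0 (2 ^ n₀) ∪ ⋃ j ∈ (Finset.range (J + 1)).filter (fun j => n₀ ≤ j),
        {t : ℝ | (2 : ℝ) ^ j ≤ t ∧ t ≤ 2 * 2 ^ j ∧ Off α (1 / Real.log (2 ^ j)) t} := by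
    rintro t ⟨g1, g2, ρ, g3, g4, g5, g6⟩
    by_cases ht : t ≤ 2 ^ n₀
    · left
      exact ⟨by linarith, ht⟩
    · right
      rw [not_le] at ht
      set j := Nat.log 2 ⌊t⌋₊ with hj
      have hf1 : 1 ≤ ⌊t⌋₊ := Nat.le_floor (by simpa using g1)
      have hj1 : (2 : ℝ) ^ j ≤ t := by
        have := Nat.pow_log_le_self 2 (show ⌊t⌋₊ ≠ 0 by omega)
        have h3 : ((2 ^ j : ℕ) : ℝ) ≤ (⌊t⌋₊ : ℝ) := by exact_mod_cast this
        push_cast at h3
        exact h3.trans (Nat.floor_le (by linarith))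
      have hj2 : t ≤ 2 * 2 ^ j := by
        have := Nat.lt_pow_succ_log_self (b := 2) (by norm_num) ⌊t⌋₊
        have h3 : ((⌊t⌋₊ + 1 : ℕ) : ℝ) ≤ ((2 ^ (j + 1) : ℕ) : ℝ) := by exact_mod_cast this
        push_cast at h3
        have := Nat.lt_floor_add_one t
        rw [pow_succ] at h3
        linarith
      have hj3 : j ≤ J := Nat.log_mono_right (Nat.floor_le_floor g2)
      have hj4 : n₀ ≤ j := by
        by_contra hcon
        have h3 : j + 1 ≤ n₀ := by omega
        have h4 : (2 : ℝ) ^ (j + 1) ≤ 2 ^ n₀ := pow_le_pow_right₀ (by norm_num) h3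
        rw [pow_succ] at h4
        linarith
      rw [Set.mem_iUnion₂]
      refine ⟨j, by rw [Finset.mem_filter, Finset.mem_range]; exact ⟨by omega, hj4⟩, hj1, hj2, ρ, g3, g4, g5, g6.trans ?_⟩
      have h5 : (4 : ℝ) ≤ 2 ^ j := by
        have h6 : (2 : ℕ) ≤ j := by
          have : (2 : ℝ) ≤ (j : ℝ) := hn₀2.trans (by exact_mod_cast hj4)
          exact_mod_cast this
        calc (4 : ℝ) = 2 ^ 2 := by norm_num
          _ ≤ 2 ^ j := pow_le_pow_right₀ (by norm_num) h6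
      apply one_div_le_one_div_of_le (Real.log_pos (by linarith))
      exact Real.log_le_log (by linarith) (hj1.trans g2)
  refine (measure_mono hcover).trans ((measure_union_le _ _).trans ?_)
  have hb : ∀ j ∈ (Finset.range (J + 1)).filter (fun j => n₀ ≤ j),
      volume {t : ℝ | (2 : ℝ) ^ j ≤ t ∧ t ≤ 2 * 2 ^ j ∧ Off α (1 / Real.log (2 ^ j)) t} ≤
        ENNReal.ofReal (C * (4 * U) ^ (1 - c)) := by
    intro j hj
    rw [Finset.mem_filter, Finset.mem_range] at hj
    have h3 : (n₀ : ℝ) ≤ 2 ^ j := by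
      calc (n₀ : ℝ) ≤ j := by exact_mod_cast hj.2
        _ ≤ 2 ^ j := by exact_mod_cast Nat.lt_two_pow_self.le
    refine (hT₀ (2 ^ j) (hn₀1.trans h3)).trans (ENNReal.ofReal_le_ofReal ?_)
    have h4 : (2 : ℝ) ^ j ≤ 4 * U := by
      have h5 : j ≤ J := by omega
      have h6 : 2 ^ j ≤ ⌊4 * U⌋₊ := by
        calc 2 ^ j ≤ 2 ^ J := Nat.pow_le_pow_right (by norm_num) h5
          _ ≤ ⌊4 * U⌋₊ := Nat.pow_log_le_self 2 (by
            have : 1 ≤ ⌊4 * U⌋₊ := Nat.le_floor (by push_cast; linarith)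
            omega)
      have h7 : ((2 ^ j : ℕ) : ℝ) ≤ (⌊4 * U⌋₊ : ℝ) := by exact_mod_cast h6
      push_cast at h7
      exact h7.trans (Nat.floor_le (by linarith))
    have h8 : ((2 : ℝ) ^ j) ^ (1 - c) ≤ (4 * U) ^ (1 - c) := Real.rpow_le_rpow (by positivity) h4 (by linarith)
    gcongr
  have hJle : (J : ℝ) ≤ 2 * Real.log (4 * U) := by
    have h6 : ((2 ^ J : ℕ) : ℝ) ≤ (⌊4 * U⌋₊ : ℝ) := by
      exact_mod_cast Nat.pow_log_le_self 2 (by
        have : 1 ≤ ⌊4 * U⌋₊ := Nat.le_floor (by push_cast; linarith)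
        omega)
    push_cast at h6
    have h7 : (2 : ℝ) ^ J ≤ 4 * U := h6.trans (Nat.floor_le (by linarith))
    have h8 := Real.log_le_log (by positivity) h7
    rw [Real.log_pow] at h8
    have h9 := Real.log_two_gt_d9
    have h10 : (0 : ℝ) ≤ J := Nat.cast_nonneg _
    nlinarith
  calc volume (Set.Icc (0 : ℝ) (2 ^ n₀)) + volume (⋃ j ∈ (Finset.range (J + 1)).filter (fun j => n₀ ≤ j),
        {t : ℝ | (2 : ℝ) ^ j ≤ t ∧ t ≤ 2 * 2 ^ j ∧ Off α (1 / Real.log (2 ^ j)) t})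
      ≤ ENNReal.ofReal (2 ^ n₀) + ∑ j ∈ (Finset.range (J + 1)).filter (fun j => n₀ ≤ j), ENNReal.ofReal (C * (4 * U) ^ (1 - c)) := by
        refine add_le_add ?_ ((measure_biUnion_finset_le _ _).trans (Finset.sum_le_sum hb))
        rw [Real.volume_Icc, sub_zero]
    _ ≤ ENNReal.ofReal (2 ^ n₀) + ENNReal.ofReal ((J + 1) * (C * (4 * U) ^ (1 - c))) := by
        gcongr
        rw [Finset.sum_const, nsmul_eq_mul]
        rw [ENNReal.ofReal_mul (show (0 : ℝ) ≤ (J : ℝ) + 1 by positivity)]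
        apply mul_le_mul_left
        have hcard := Finset.card_filter_le (Finset.range (J + 1)) (fun j => n₀ ≤ j)
        rw [Finset.card_range] at hcard
        rw [show ((J : ℝ) + 1) = ((J + 1 : ℕ) : ℝ) by push_cast; ring, ENNReal.ofReal_natCast]
        exact_mod_cast hcard
    _ = ENNReal.ofReal (2 ^ n₀ + (J + 1) * (C * (4 * U) ^ (1 - c))) := by
        rw [ENNReal.ofReal_add (by positivity) (by positivity)]
    _ ≤ ENNReal.ofReal (U ^ (1 - c / 2)) := by
        apply ENNReal.ofReal_le_ofReal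
        refine le_trans ?_ hlU
        have : 0 ≤ C * (4 * U) ^ (1 - c) := by positivity
        gcongr

/-- heights at bounded distance from the zeros off the line -/
theorem off_thick (α R : ℝ) (hα : 0 < α) (hR : 0 ≤ R) : ∃ c : ℝ, 0 < c ∧ c ≤ 1 / 2 ∧ ∀ᶠ U : ℝ in atTop, Ms 0 U (Off α R) ≤ U ^ (1 - c) := by
  obtain ⟨c, hc, hc2, h⟩ := off_thin α hα
  refine ⟨c / 2, by positivity, by linarith, ?_⟩
  have hfin : ∀ᶠ U : ℝ in atTop, (R + 3) + (2 * (R * Real.log (4 * U) + 2) + 1) * U ^ (1 - c) ≤ U ^ (1 - c / 2) := by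
    have e1 : ∀ᶠ U : ℝ in atTop, Real.log U ≤ U ^ (c / 4) := by
      have h := (isLittleO_log_rpow_atTop (show 0 < c / 4 by positivity)).bound one_pos
      filter_upwards [h, eventually_ge_atTop 1] with T hT hT1
      rw [one_mul, Real.norm_of_nonneg (Real.log_nonneg hT1), Real.norm_of_nonneg (by positivity)] at hT
      exact hT
    have e2 : ∀ᶠ U : ℝ in atTop, 2 * (4 * R + 5) ≤ U ^ (c / 4) :=
      (tendsto_rpow_atTop (by positivity)).eventually_ge_atTop _
    have e3 : ∀ᶠ U : ℝ in atTop, 2 * (R + 3) ≤ U ^ (1 - c / 2) :=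
      (tendsto_rpow_atTop (by linarith)).eventually_ge_atTop _
    have e4 : ∀ᶠ U : ℝ in atTop, 4 ≤ Real.log U := Real.tendsto_log_atTop.eventually_ge_atTop _
    filter_upwards [e1, e2, e3, e4, eventually_ge_atTop 16] with U e1 e2 e3 e4 hU
    have hU0 : 0 < U := by linarith
    have e5 : Real.log (4 * U) ≤ 2 * Real.log U := by
      rw [Real.log_mul (by norm_num) hU0.ne']
      have : Real.log 4 ≤ Real.log U := Real.log_le_log (by norm_num) (by linarith)
      linarith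
    have e6 : 2 * (R * Real.log (4 * U) + 2) + 1 ≤ (4 * R + 5) * Real.log U := by nlinarith
    have e8 : (2 * (R * Real.log (4 * U) + 2) + 1) * U ^ (1 - c) ≤ U ^ (1 - c / 2) / 2 := by
      calc (2 * (R * Real.log (4 * U) + 2) + 1) * U ^ (1 - c)
          ≤ ((4 * R + 5) * U ^ (c / 4)) * U ^ (1 - c) := by
            apply mul_le_mul_of_nonneg_right _ (by positivity)
            refine e6.trans ?_
            gcongr
        _ = (2 * (4 * R + 5)) * (U ^ (c / 4) * U ^ (1 - c)) / 2 := by ring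
        _ ≤ U ^ (c / 4) * (U ^ (c / 4) * U ^ (1 - c)) / 2 := by gcongr
        _ = U ^ (1 - c / 2) / 2 := by
            rw [← Real.rpow_add hU0, ← Real.rpow_add hU0]
            congr 2; ring
    linarith
  filter_upwards [h, hfin, eventually_ge_atTop 16, eventually_ge_atTop (R + 2)] with U hU hfin hU16 hUR
  have hU0 : 0 < U := by linarith
  have hL : 1 ≤ Real.log (4 * U) := by
    rw [Real.le_log_iff_exp_le (by linarith)]
    have := Real.exp_one_lt_d9
    linarith
  set w := 1 / Real.log (4 * U) with hw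
  have hw0 : 0 < w := by positivity
  have hw1 : w ≤ 1 := by
    rw [hw, div_le_one (by linarith)]
    exact hL
  set W := {t : ℝ | 1 ≤ t ∧ t ≤ 4 * U ∧ Off α w t} with hW
  set m : ℕ := ⌈R / w⌉₊ with hm
  have hm1 : R ≤ m * w := by
    have := Nat.le_ceil (R / w)
    rw [div_le_iff₀ hw0] at this
    exact this
  have hm2 : (m : ℝ) ≤ R * Real.log (4 * U) + 1 := by
    have := Nat.ceil_lt_add_one (show 0 ≤ R / w by positivity)
    have e : R / w = R * Real.log (4 * U) := by rw [hw]; field_simp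
    rw [e] at this
    rw [hm, e]
    exact this.le
  have hcover : {t : ℝ | t ∈ Set.Ioc 0 U ∧ Off α R t} ⊆ Set.Icc 0 (R + 2) ∪
      ⋃ k ∈ Finset.Icc (-(m : ℤ) - 1) m, (fun t : ℝ => t + k * w) ⁻¹' W := by
    rintro t ⟨⟨g1, g2⟩, ρ, g3, g4, g5, g6⟩
    by_cases ht : t ≤ R + 2
    · left; exact ⟨g1.le, ht⟩
    · right
      rw [not_le] at ht
      rw [Set.mem_iUnion₂]
      set k : ℤ := ⌊(ρ.im - t) / w⌋ with hk
      have hk1 : (k : ℝ) * w ≤ ρ.im - t := by
        have := Int.floor_le ((ρ.im - t) / w)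
        rwa [le_div_iff₀ hw0] at this
      have hk2 : ρ.im - t < (k + 1) * w := by
        have := Int.lt_floor_add_one ((ρ.im - t) / w)
        rwa [div_lt_iff₀ hw0] at this
      rw [abs_le] at g6
      have hk3 : (k : ℝ) ≤ m := by
        by_contra hcon
        rw [not_le] at hcon
        have h5 : (k : ℝ) * w ≤ m * w := by linarith [g6.2]
        nlinarith
      have hk4 : -(m : ℝ) - 1 ≤ k := by
        by_contra hcon
        rw [not_le] at hcon
        have h5 : -(m * w) < ((k : ℝ) + 1) * w := by linarith [g6.1]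
        nlinarith
      refine ⟨k, ?_, ?_, ?_, ρ, g3, g4, g5, ?_⟩
      · rw [Finset.mem_Icc]
        constructor
        · exact_mod_cast hk4
        · exact_mod_cast hk3
      · show 1 ≤ t + k * w
        linarith [g6.1, g6.2]
      · show t + k * w ≤ 4 * U
        linarith [g6.1, g6.2]
      · rw [abs_le]
        constructor <;> linarith
  have hmeas : volume {t : ℝ | t ∈ Set.Ioc 0 U ∧ Off α R t} ≤ ENNReal.ofReal (U ^ (1 - c / 2)) := by
    refine (measure_mono hcover).trans ((measure_union_le _ _).trans ?_)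
    calc volume (Set.Icc (0 : ℝ) (R + 2)) + volume (⋃ k ∈ Finset.Icc (-(m : ℤ) - 1) m, (fun t : ℝ => t + k * w) ⁻¹' W)
        ≤ ENNReal.ofReal (R + 2) + ∑ k ∈ Finset.Icc (-(m : ℤ) - 1) m, ENNReal.ofReal (U ^ (1 - c)) := by
          refine add_le_add ?_ ((measure_biUnion_finset_le _ _).trans (Finset.sum_le_sum fun k _ => ?_))
          · rw [Real.volume_Icc, sub_zero]
          · rw [measure_preimage_add_right]
            exact hU
      _ = ENNReal.ofReal (R + 2) + ENNReal.ofReal ((2 * m + 2) * U ^ (1 - c)) := by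
          congr 1
          rw [Finset.sum_const, nsmul_eq_mul, Int.card_Icc, ENNReal.ofReal_mul (by positivity)]
          congr 1
          have : ((m : ℤ) + 1 - (-(m : ℤ) - 1)).toNat = 2 * m + 2 := by omega
          rw [this, show (2 * (m : ℝ) + 2) = ((2 * m + 2 : ℕ) : ℝ) by push_cast; ring, ENNReal.ofReal_natCast]
      _ = ENNReal.ofReal ((R + 2) + (2 * m + 2) * U ^ (1 - c)) := by
          rw [← ENNReal.ofReal_add (by positivity) (by positivity)]
      _ ≤ ENNReal.ofReal (U ^ (1 - c / 2)) := by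
          apply ENNReal.ofReal_le_ofReal
          refine le_trans ?_ hfin
          have : 0 ≤ U ^ (1 - c) := by positivity
          have h3 : (2 * (m : ℝ) + 2) ≤ 2 * (R * Real.log (4 * U) + 2) + 1 := by linarith
          nlinarith
  have h9 := ENNReal.toReal_mono ENNReal.ofReal_ne_top hmeas
  rwa [ENNReal.toReal_ofReal (by positivity)] at h9

/-- self-approximation on sets of measure `T^(1-ε)` for all `ε` implies the Riemann hypothesis -/
theorem rh_of_self (h : ∀ K : Set ℂ, IsCompact K → (∀ z ∈ K, 1 / 2 < z.re ∧ z.re < 1) → IsConnected Kᶜ → ∀ x : ℝ, 0 < x →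
    ∀ ε : ℝ, 0 < ε → ∃ᶠ T : ℝ in atTop, T ^ (1 - ε) ≤ Ms 0 T (Near K {riemannZeta} x)) : RiemannHypothesis := by
  rw [rh_iff]
  intro s0 hs1 hs2 hs0
  set a := (1 / 2 + s0.re) / 2 with ha
  set b := (s0.re + 1) / 2 with hb
  set B := |s0.im| + 1 with hB
  have hB0 : 0 < B := by positivity
  have hK := ZU.J_b2.rect_compact a b B
  have hKs : ∀ z ∈ ZU.rect a b B, 1 / 2 < z.re ∧ z.re < 1 := by
    rintro z ⟨h3, h4, h5⟩
    constructor <;> linarith
  have hnhds : ZU.rect a b B ∈ 𝓝 s0 := by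
    have h6 : IsOpen {z : ℂ | a < z.re ∧ z.re < b ∧ |z.im| < B} :=
      (isOpen_lt continuous_const Complex.continuous_re).inter
        ((isOpen_lt Complex.continuous_re continuous_const).inter (isOpen_lt Complex.continuous_im.abs continuous_const))
    refine Filter.mem_of_superset (h6.mem_nhds ⟨by linarith, by linarith, by linarith⟩) ?_
    rintro z ⟨h7, h8, h9⟩
    exact ⟨h7.le, h8.le, h9.le⟩
  obtain ⟨η, hη, hz⟩ := zero_of_near s0 hs0 (ZU.rect a b B) hnhds (fun z hz => (hKs z hz).2)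
  obtain ⟨c, hc, -, hoff⟩ := off_thick (a - 1 / 2) B (by linarith) hB0.le
  have h1 := h (ZU.rect a b B) hK hKs (ZU.J_b2.rect_compl_conn a b B) η hη (c / 2) (by positivity)
  obtain ⟨T, hT1, hT2, hT3⟩ := (h1.and_eventually (hoff.and (eventually_gt_atTop 1))).exists
  have h10 : Ms 0 T (Near (ZU.rect a b B) {riemannZeta} η) ≤ Ms 0 T (Off (a - 1 / 2) B) := by
    apply Ms_mono_set le_rfl le_rfl
    intro t ht
    obtain ⟨z, ⟨g1, g2, g3⟩, g4⟩ := hz t ht
    refine ⟨z + t * I, g4, ?_, ?_, ?_⟩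
    · simp; linarith
    · simp; linarith
    · simpa using g3
  have h11 : T ^ (1 - c) < T ^ (1 - c / 2) := Real.rpow_lt_rpow_of_exponent_lt hT3 (by linarith)
  linarith

end Pool.Agent.H510.EX
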